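import Pool.Agent.HM13.LS.Defs

/-!
# Functions computed by loop programs
-/

set_option autoImplicit false

namespace Pool.Agent.HM13.LS

open Function

/-- types whose elements are given by finitely many numbers -/
class Ctx (X : Type) where
  /-- the names of the coordinates -/
  I : Type
  /-- there are finitely many -/
  fin : Fintype I
  /-- the coordinates -/
  c : X → I → ℕ

instance (X : Type) [Ctx X] : Fintype (Ctx.I X) := Ctx.fin

instance : Ctx Unit := ⟨Empty, inferInstance, fun _ i => i.elim⟩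

instance : Ctx ℕ := ⟨Unit, inferInstance, fun x _ => x⟩

instance (X Y : Type) [Ctx X] [Ctx Y] : Ctx (X × Y) :=
  ⟨Ctx.I X ⊕ Ctx.I Y, inferInstance, fun x => Sum.elim (Ctx.c x.1) (Ctx.c x.2)⟩

instance (Q : Type) [Fintype Q] : Ctx (Q → ℕ) := ⟨Q, inferInstance, fun x => x⟩

variable {α : Type} {X Y Z : Type} [Ctx X] [Ctx Y] [Ctx Z]

/-- all coordinates are at most `(n + 2) ^ d` -/
def Bd (w : List α) (d : ℕ) (x : X) : Prop := ∀ i, Ctx.c x i ≤ (w.length + 2) ^ d

theorem Bd.mono {w : List α} {d e : ℕ} {x : X} (h : Bd w d x) (hde : d ≤ e) : Bd w e x :=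
  fun i => (h i).trans (Nat.pow_le_pow_right (by omega) hde)

theorem bd_nat {w : List α} {d x : ℕ} : Bd w d x ↔ x ≤ (w.length + 2) ^ d :=
  ⟨fun h => h (), fun h _ => h⟩

theorem bd_prod {w : List α} {d : ℕ} {x : X × Y} : Bd w d x ↔ Bd w d x.1 ∧ Bd w d x.2 :=
  ⟨fun h => ⟨fun i => h (Sum.inl i), fun i => h (Sum.inr i)⟩, fun h i => by
    cases i with
    | inl i => exact h.1 i
    | inr i => exact h.2 i⟩

theorem bd_pi {w : List α} {d : ℕ} {Q : Type} [Fintype Q] {x : Q → ℕ} :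
    Bd w d x ↔ ∀ q, x q ≤ (w.length + 2) ^ d := Iff.rfl

/-- the program `P` computes `f`, for arguments in the registers `v`, into the registers `o`, and
changes no other register below `b` -/
def Does (f : List α → X → Y) (d e b : ℕ) (v : Ctx.I X → ℕ) (o : Ctx.I Y → ℕ) (P : Prog α) : Prop :=
  ∀ (w : List α) (k : ℕ) (σ : ℕ → ℕ) (x : X), e ≤ k → Bd w d x → (∀ i, σ (v i) = Ctx.c x i) →
    (∀ j, P.run w ((w.length + 2) ^ k) σ (o j) = Ctx.c (f w x) j) ∧
    ∀ i < b, (∀ j, o j ≠ i) → P.run w ((w.length + 2) ^ k) σ i = σ i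

/-- `f` is computed by loop programs -/
def LS (f : List α → X → Y) : Prop :=
  ∀ d, ∃ e, (∀ w x, Bd w d x → Bd w e (f w x)) ∧
    ∀ (b : ℕ) (v : Ctx.I X → ℕ) (o : Ctx.I Y → ℕ), (∀ i, v i < b) → (∀ j, o j < b) →
      Injective o → ∃ P, Does f d e b v o P

theorem LS.congr {f g : List α → X → Y} (h : LS f) (hfg : ∀ w x, f w x = g w x) : LS g := by
  have : f = g := funext fun w => funext fun x => hfg w x
  rwa [← this]

theorem exists_temps (I : Type) [Fintype I] (b : ℕ) : ∃ (b' : ℕ) (t : I → ℕ), b ≤ b' ∧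
    Injective t ∧ ∀ i, b ≤ t i ∧ t i < b' := by
  refine ⟨b + Fintype.card I, fun i => b + (Fintype.equivFin I i : ℕ), by omega, fun i j h => ?_,
    fun i => ⟨Nat.le_add_right _ _, Nat.add_lt_add_left (Fintype.equivFin I i).2 _⟩⟩
  · have h1 : (Fintype.equivFin I i : ℕ) = (Fintype.equivFin I j : ℕ) := by
      have h2 : b + (Fintype.equivFin I i : ℕ) = b + (Fintype.equivFin I j : ℕ) := h
      omega
    exact (Fintype.equivFin I).injective (Fin.ext h1)

/-- sequential copies -/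
theorem exists_copies (α : Type) {I : Type} [Fintype I] {b : ℕ} (o t : I → ℕ) (ho : Injective o)
    (h1 : ∀ i, o i < b) (h2 : ∀ i, b ≤ t i ∨ ∀ j, o j ≠ t i) : ∃ P : Prog α,
    ∀ (w : List α) (B : ℕ) (σ : ℕ → ℕ), (∀ i, P.run w B σ (o i) = σ (t i)) ∧
      ∀ a, (∀ i, o i ≠ a) → P.run w B σ a = σ a := by
  classical
  have hot : ∀ i j, o j ≠ t i := fun i j => by
    rcases h2 i with h | h
    · have := h1 j
      omega
    · exact h j
  have key : ∀ l : List I, l.Nodup → ∃ P : Prog α, ∀ (w : List α) (B : ℕ) (σ : ℕ → ℕ),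
      (∀ i ∈ l, P.run w B σ (o i) = σ (t i)) ∧
        ∀ a, (∀ i ∈ l, o i ≠ a) → P.run w B σ a = σ a := by
    intro l
    induction l with
    | nil =>
      intro _
      refine ⟨Prog.copy 0 0, fun w B σ => ⟨fun i hi => absurd hi (by simp), fun a _ => ?_⟩⟩
      show update σ 0 (σ 0) a = σ a
      rw [update_eq_self]
    | cons i l ih =>
      intro hl
      obtain ⟨hi, hl⟩ := List.nodup_cons.1 hl
      obtain ⟨P, hP⟩ := ih hl
      refine ⟨Prog.seq (Prog.copy (o i) (t i)) P, fun w B σ => ?_⟩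
      have hrun : (Prog.seq (Prog.copy (o i) (t i)) P).run w B σ =
          P.run w B (update σ (o i) (σ (t i))) := rfl
      rw [hrun]
      obtain ⟨a1, a2⟩ := hP w B (update σ (o i) (σ (t i)))
      refine ⟨fun j hj => ?_, fun a ha => ?_⟩
      · rcases List.mem_cons.1 hj with rfl | hj'
        · rw [a2 _ fun j' hj' => ?_, update_self]
          intro h
          exact hi (ho h ▸ hj')
        · rw [a1 j hj', update_of_ne (hot j i).symm]
      · rw [a2 a fun j hj => ha j (List.mem_cons_of_mem _ hj), update_of_ne]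
        exact fun h => ha i (List.mem_cons_self ..) h.symm
  obtain ⟨P, hP⟩ := key Finset.univ.toList (Finset.nodup_toList _)
  refine ⟨P, fun w B σ => ⟨fun i => (hP w B σ).1 i (by simp), fun a ha => (hP w B σ).2 a
    fun i _ => ha i⟩⟩

/-- composition -/
theorem LS.comp {g : List α → Y → Z} {f : List α → X → Y} (hg : LS g) (hf : LS f) :
    LS (fun w x => g w (f w x)) := by
  intro d
  obtain ⟨e₁, hb₁, h₁⟩ := hf d
  obtain ⟨e₂, hb₂, h₂⟩ := hg e₁
  refine ⟨max e₁ e₂, fun w x hx => (hb₂ w _ (hb₁ w x hx)).mono (le_max_right _ _),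
    fun b v o hv ho hoi => ?_⟩
  obtain ⟨b', t, hb, hti, ht⟩ := exists_temps (Ctx.I Y) b
  obtain ⟨P, hP⟩ := h₁ b' v t (fun i => (hv i).trans_le hb) (fun j => (ht j).2) hti
  obtain ⟨Q, hQ⟩ := h₂ b' t o (fun i => (ht i).2) (fun j => (ho j).trans_le hb) hoi
  refine ⟨Prog.seq P Q, fun w k σ x hk hx hσ => ?_⟩
  obtain ⟨a1, a2⟩ := hP w k σ x ((le_max_left _ _).trans hk) hx hσ
  obtain ⟨c1, c2⟩ := hQ w k (P.run w ((w.length + 2) ^ k) σ) (f w x)
    ((le_max_right _ _).trans hk) (hb₁ w x hx) a1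
  refine ⟨c1, fun i hi hio => ?_⟩
  have h3 : (Prog.seq P Q).run w ((w.length + 2) ^ k) σ i =
      Q.run w ((w.length + 2) ^ k) (P.run w ((w.length + 2) ^ k) σ) i := rfl
  rw [h3, c2 i (hi.trans_le hb) hio, a2 i (hi.trans_le hb) fun j => ?_]
  have := (ht j).1
  omega

/-- pairs -/
theorem LS.pair {f : List α → X → Y} {g : List α → X → Z} (hf : LS f) (hg : LS g) :
    LS (fun w x => (f w x, g w x)) := by
  intro d
  obtain ⟨e₁, hb₁, h₁⟩ := hf d
  obtain ⟨e₂, hb₂, h₂⟩ := hg d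
  refine ⟨max e₁ e₂, fun w x hx => bd_prod.2 ⟨(hb₁ w x hx).mono (le_max_left _ _),
    (hb₂ w x hx).mono (le_max_right _ _)⟩, fun b v o hv ho hoi => ?_⟩
  obtain ⟨b', t, hb, hti, ht⟩ := exists_temps (Ctx.I Y ⊕ Ctx.I Z) b
  obtain ⟨P, hP⟩ := h₁ b' v (fun j => t (Sum.inl j)) (fun i => (hv i).trans_le hb)
    (fun j => (ht _).2) (fun i j h => Sum.inl.inj (hti h))
  obtain ⟨Q, hQ⟩ := h₂ b' v (fun j => t (Sum.inr j)) (fun i => (hv i).trans_le hb)
    (fun j => (ht _).2) (fun i j h => Sum.inr.inj (hti h))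
  obtain ⟨R, hR⟩ := exists_copies α (I := Ctx.I Y ⊕ Ctx.I Z) (b := b) o t hoi ho
    (fun i => Or.inl (ht i).1)
  refine ⟨Prog.seq (Prog.seq P Q) R, fun w k σ x hk hx hσ => ?_⟩
  set B := (w.length + 2) ^ k with hB
  obtain ⟨a1, a2⟩ := hP w k σ x ((le_max_left _ _).trans hk) hx hσ
  obtain ⟨c1, c2⟩ := hQ w k (P.run w B σ) x ((le_max_right _ _).trans hk) hx (fun i => by
    rw [a2 (v i) ((hv i).trans_le hb) fun j => ?_, hσ i]
    have := (ht (Sum.inl j)).1
    have := hv i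
    show t (Sum.inl j) ≠ v i
    omega)
  obtain ⟨r1, r2⟩ := hR w B (Q.run w B (P.run w B σ))
  have hrun : (Prog.seq (Prog.seq P Q) R).run w B σ = R.run w B (Q.run w B (P.run w B σ)) := rfl
  rw [hrun]
  refine ⟨fun j => ?_, fun i hi hio => ?_⟩
  · rw [r1 j]
    cases j with
    | inl j =>
      rw [c2 _ (ht _).2 fun j' => ?_, a1 j]
      · rfl
      · exact fun h => absurd (hti h) (by simp)
    | inr j => exact c1 j
  · rw [r2 i hio, c2 i (hi.trans_le hb) fun j => ?_, a2 i (hi.trans_le hb) fun j => ?_]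
    · have := (ht (Sum.inl j)).1
      show t (Sum.inl j) ≠ i
      omega
    · have := (ht (Sum.inr j)).1
      show t (Sum.inr j) ≠ i
      omega

/-- rearrangement of coordinates -/
theorem LS.reindex (f : X → Y) (φ : Ctx.I Y → Ctx.I X)
    (hφ : ∀ x j, Ctx.c (f x) j = Ctx.c x (φ j)) : LS (fun (_ : List α) x => f x) := by
  intro d
  refine ⟨d, fun w x hx j => (hφ x j).trans_le (hx _), fun b v o hv ho hoi => ?_⟩
  obtain ⟨b', t, hb, hti, ht⟩ := exists_temps (Ctx.I Y) b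
  obtain ⟨P, hP⟩ := exists_copies α (I := Ctx.I Y) (b := b') t (fun j => v (φ j)) hti
    (fun i => (ht i).2) (fun i => Or.inr fun j => by
      have := (ht j).1
      have := hv (φ i)
      omega)
  obtain ⟨R, hR⟩ := exists_copies α (I := Ctx.I Y) (b := b) o t hoi ho (fun i => Or.inl (ht i).1)
  refine ⟨Prog.seq P R, fun w k σ x _ hx hσ => ?_⟩
  set B := (w.length + 2) ^ k with hB
  obtain ⟨a1, a2⟩ := hP w B σ
  obtain ⟨c1, c2⟩ := hR w B (P.run w B σ)
  have hrun : (Prog.seq P R).run w B σ = R.run w B (P.run w B σ) := rfl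
  rw [hrun]
  refine ⟨fun j => ?_, fun i hi hio => ?_⟩
  · rw [c1 j, a1 j, hσ, hφ]
  · rw [c2 i hio, a2 i fun j => ?_]
    have := (ht j).1
    omega

theorem LS.id : LS (fun (_ : List α) (x : X) => x) := LS.reindex _ (fun i => i) fun _ _ => rfl

theorem LS.fst' : LS (fun (_ : List α) (x : X × Y) => x.1) :=
  LS.reindex _ Sum.inl fun _ _ => rfl

theorem LS.snd' : LS (fun (_ : List α) (x : X × Y) => x.2) :=
  LS.reindex _ Sum.inr fun _ _ => rfl

theorem LS.unit : LS (fun (_ : List α) (_ : X) => ()) := LS.reindex _ Empty.elim fun _ j => j.elim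

theorem LS.app' {Q : Type} [Fintype Q] (q : Q) : LS (fun (_ : List α) (x : Q → ℕ) => x q) :=
  LS.reindex _ (fun _ => q) fun _ _ => rfl

theorem LS.fst {f : List α → X → Y × Z} (h : LS f) : LS (fun w x => (f w x).1) := LS.fst'.comp h

theorem LS.snd {f : List α → X → Y × Z} (h : LS f) : LS (fun w x => (f w x).2) := LS.snd'.comp h

theorem LS.app {Q : Type} [Fintype Q] {f : List α → X → Q → ℕ} (h : LS f) (q : Q) :
    LS (fun w x => f w x q) := (LS.app' q).comp h

/-- vectors -/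
theorem LS.pi {Q : Type} [Fintype Q] {f : List α → X → Q → ℕ} (h : ∀ q, LS (fun w x => f w x q)) :
    LS f := by
  classical
  intro d
  choose e hb h using fun q => h q d
  set E := Finset.univ.sup e with hE
  have heE : ∀ q, e q ≤ E := fun q => Finset.le_sup (f := e) (Finset.mem_univ q)
  refine ⟨E, fun w x hx q => ((hb q w x hx).mono (heE q)) (), fun b v o hv ho hoi => ?_⟩
  obtain ⟨b', t, hb', hti, ht⟩ := exists_temps Q b
  have key : ∀ l : List Q, l.Nodup → ∃ P : Prog α, ∀ (w : List α) (k : ℕ) (σ : ℕ → ℕ) (x : X),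
      E ≤ k → Bd w d x → (∀ i, σ (v i) = Ctx.c x i) →
      (∀ q ∈ l, P.run w ((w.length + 2) ^ k) σ (t q) = f w x q) ∧
      ∀ i < b', (∀ q ∈ l, t q ≠ i) → P.run w ((w.length + 2) ^ k) σ i = σ i := by
    intro l
    induction l with
    | nil =>
      intro _
      refine ⟨Prog.copy 0 0, fun w k σ x _ _ _ => ⟨fun i hi => absurd hi (by simp),
        fun a _ _ => ?_⟩⟩
      show update σ 0 (σ 0) a = σ a
      rw [update_eq_self]
    | cons q l ih =>
      intro hl
      obtain ⟨hq, hl⟩ := List.nodup_cons.1 hl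
      obtain ⟨P, hP⟩ := ih hl
      obtain ⟨R, hR⟩ := h q b' v (fun _ => t q) (fun i => (hv i).trans_le hb')
        (fun _ => (ht q).2) (fun _ _ _ => rfl)
      refine ⟨Prog.seq P R, fun w k σ x hk hx hσ => ?_⟩
      set B := (w.length + 2) ^ k with hB
      obtain ⟨a1, a2⟩ := hP w k σ x hk hx hσ
      obtain ⟨c1, c2⟩ := hR w k (P.run w B σ) x ((heE q).trans hk) hx (fun i => by
        rw [a2 (v i) ((hv i).trans_le hb') fun j _ => ?_, hσ i]
        have := (ht j).1
        have := hv i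
        omega)
      have hrun : (Prog.seq P R).run w B σ = R.run w B (P.run w B σ) := rfl
      rw [hrun]
      refine ⟨fun j hj => ?_, fun i hi hio => ?_⟩
      · rcases List.mem_cons.1 hj with rfl | hj'
        · exact c1 ()
        · rw [c2 _ (ht j).2 fun _ => ?_, a1 j hj']
          intro h4
          exact hq (hti h4 ▸ hj')
      · rw [c2 i hi fun _ => hio q (List.mem_cons_self ..), a2 i hi fun j hj =>
          hio j (List.mem_cons_of_mem _ hj)]
  obtain ⟨P, hP⟩ := key Finset.univ.toList (Finset.nodup_toList _)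
  obtain ⟨R, hR⟩ := exists_copies α (I := Q) (b := b) o t hoi ho (fun i => Or.inl (ht i).1)
  refine ⟨Prog.seq P R, fun w k σ x hk hx hσ => ?_⟩
  set B := (w.length + 2) ^ k with hB
  obtain ⟨a1, a2⟩ := hP w k σ x hk hx hσ
  obtain ⟨c1, c2⟩ := hR w B (P.run w B σ)
  have hrun : (Prog.seq P R).run w B σ = R.run w B (P.run w B σ) := rfl
  rw [hrun]
  refine ⟨fun j => ?_, fun i hi hio => ?_⟩
  · rw [c1 j, a1 j (by simp)]
    rfl
  · rw [c2 i hio, a2 i (hi.trans_le hb') fun j _ => ?_]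
    have := (ht j).1
    omega

/-! ### Basic functions -/

theorem le_base (w : List α) (c : ℕ) : c ≤ (w.length + 2) ^ c :=
  (Nat.lt_two_pow_self (n := c)).le.trans (Nat.pow_le_pow_left (by omega) c)

theorem LS.const (c : ℕ) : LS (fun (_ : List α) (_ : X) => c) := by
  refine fun d => ⟨c, fun w x _ => bd_nat.2 (le_base w c), fun b v o hv ho hoi =>
    ⟨Prog.const (o ()) c, fun w k σ x hk hx hσ => ⟨fun j => ?_, fun i _ hio => ?_⟩⟩⟩
  · show update σ (o ()) (min c _) (o ()) = c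
    rw [update_self, min_eq_left]
    exact (le_base w c).trans (Nat.pow_le_pow_right (by omega) hk)
  · exact update_of_ne (hio ()).symm _ _

theorem LS.len : LS (fun (w : List α) (_ : X) => w.length) := by
  refine fun d => ⟨1, fun w x _ => bd_nat.2 (by show w.length ≤ _; rw [pow_one]; omega),
    fun b v o hv ho hoi =>
    ⟨Prog.len (o ()), fun w k σ x hk hx hσ => ⟨fun j => ?_, fun i _ hio => ?_⟩⟩⟩
  · show update σ (o ()) (min w.length _) (o ()) = w.length
    rw [update_self, min_eq_left]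
    have h : (w.length + 2) ^ 1 ≤ (w.length + 2) ^ k := Nat.pow_le_pow_right (by omega) hk
    rw [pow_one] at h
    omega
  · exact update_of_ne (hio ()).symm _ _

open Classical in
theorem LS.letter' (a : α) : LS (fun (w : List α) (x : ℕ) => if w[x]? = some a then 1 else 0) := by
  refine fun d => ⟨0, fun w x _ => bd_nat.2 ?_, fun b v o hv ho hoi =>
    ⟨Prog.letter (o ()) (v ()) a, fun w k σ x hk hx hσ => ⟨fun j => ?_, fun i _ hio => ?_⟩⟩⟩
  · show (if w[x]? = some a then 1 else 0) ≤ _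
    split_ifs <;> simp
  · show update σ (o ()) (if w[σ (v ())]? = some a then min 1 _ else 0) (o ()) =
      if w[x]? = some a then 1 else 0
    rw [update_self, hσ ()]
    show (if w[x]? = some a then min 1 _ else 0) = _
    rw [min_eq_left (Nat.one_le_pow _ _ (by omega))]
  · exact update_of_ne (hio ()).symm _ _

/-- a binary operation -/
theorem LS.op {F : ℕ → ℕ → ℕ} {p : ℕ → ℕ → ℕ → Prog α} (c : ℕ → ℕ)
    (hc : ∀ (w : List α) d x y, x ≤ (w.length + 2) ^ d → y ≤ (w.length + 2) ^ d →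
      F x y ≤ (w.length + 2) ^ c d)
    (hp : ∀ (w : List α) B σ i j k, (p i j k).run w B σ = update σ i (min (F (σ j) (σ k)) B)) :
    LS (fun (_ : List α) (x : ℕ × ℕ) => F x.1 x.2) := by
  refine fun d => ⟨c d, fun w x hx => bd_nat.2 (hc w d _ _ (bd_nat.1 (bd_prod.1 hx).1)
    (bd_nat.1 (bd_prod.1 hx).2)),
    fun b v o hv ho hoi => ⟨p (o ()) (v (Sum.inl ())) (v (Sum.inr ())),
      fun w k σ x hk hx hσ => ⟨fun j => ?_, fun i _ hio => ?_⟩⟩⟩
  · rw [hp, hσ (Sum.inl ()), hσ (Sum.inr ())]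
    show update σ (o ()) (min (F x.1 x.2) _) (o ()) = F x.1 x.2
    rw [update_self, min_eq_left]
    exact (hc w d _ _ (bd_nat.1 (bd_prod.1 hx).1) (bd_nat.1 (bd_prod.1 hx).2)).trans
      (Nat.pow_le_pow_right (by omega) hk)
  · rw [hp]
    exact update_of_ne (hio ()).symm _ _

theorem LS.add' : LS (fun (_ : List α) (x : ℕ × ℕ) => x.1 + x.2) :=
  LS.op (p := Prog.add) (fun d => d + 1) (fun w d x y hx hy => by
    rw [pow_succ]
    nlinarith [Nat.one_le_pow d (w.length + 2) (by omega)]) fun _ _ _ _ _ _ => rfl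

theorem LS.sub' : LS (fun (_ : List α) (x : ℕ × ℕ) => x.1 - x.2) :=
  LS.op (p := Prog.sub) (fun d => d) (fun w d x y hx hy => (Nat.sub_le _ _).trans hx)
    fun _ _ _ _ _ _ => rfl

theorem LS.mul' : LS (fun (_ : List α) (x : ℕ × ℕ) => x.1 * x.2) :=
  LS.op (p := Prog.mul) (fun d => d + d) (fun w d x y hx hy => by
    rw [pow_add]
    exact Nat.mul_le_mul hx hy) fun _ _ _ _ _ _ => rfl

theorem LS.div' : LS (fun (_ : List α) (x : ℕ × ℕ) => x.1 / x.2) :=
  LS.op (p := Prog.div) (fun d => d) (fun w d x y hx hy => (Nat.div_le_self _ _).trans hx)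
    fun _ _ _ _ _ _ => rfl

/-! ### Iteration -/

/-- the iteration of `g`, with parameters -/
def itr (f : List α → X → Y) (g : List α → (X × ℕ) × Y → Y) (w : List α) (x : X) : ℕ → Y
  | 0 => f w x
  | t + 1 => g w ((x, t), itr f g w x t)

/-- **Iteration with polynomially bounded values.** -/
theorem LS.iter {f : List α → X → Y} {g : List α → (X × ℕ) × Y → Y} (hf : LS f) (hg : LS g)
    (hb : ∀ d, ∃ e, ∀ w x t, Bd w d x → t ≤ (w.length + 2) ^ d → Bd w e (itr f g w x t)) :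
    LS (fun w (x : X × ℕ) => itr f g w x.1 x.2) := by
  intro d
  obtain ⟨e₀, hb₀⟩ := hb d
  obtain ⟨e₁, hb₁, h₁⟩ := hf d
  have hG : LS (fun (w : List α) (z : (X × ℕ) × Y) => (g w z, z.1.2 + 1)) :=
    hg.pair (LS.add'.comp (LS.fst'.snd.pair (LS.const 1)))
  obtain ⟨e₂, hb₂, h₂⟩ := hG (max d e₀)
  refine ⟨max e₀ (max e₁ e₂), fun w x hx => (hb₀ w x.1 x.2 (bd_prod.1 hx).1
    (bd_nat.1 (bd_prod.1 hx).2)).mono (le_max_left _ _), fun b v o hv ho hoi => ?_⟩
  obtain ⟨b', t, hb', hti, ht⟩ := exists_temps (Ctx.I Y ⊕ Unit) b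
  obtain ⟨P, hP⟩ := h₁ b' (fun i => v (Sum.inl i)) (fun j => t (Sum.inl j))
    (fun i => (hv _).trans_le hb') (fun j => (ht _).2) (fun i j h => Sum.inl.inj (hti h))
  obtain ⟨G, hGG⟩ := h₂ b' (Sum.elim (Sum.elim (fun i => v (Sum.inl i)) (fun _ => t (Sum.inr ())))
    (fun j => t (Sum.inl j))) t (fun i => by
      rcases i with (i | i) | i
      · exact (hv _).trans_le hb'
      · exact (ht _).2
      · exact (ht _).2) (fun j => (ht j).2) hti
  obtain ⟨R, hR⟩ := exists_copies α (I := Ctx.I Y) (b := b) o (fun j => t (Sum.inl j)) hoi ho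
    (fun i => Or.inl (ht _).1)
  refine ⟨Prog.seq (Prog.seq (Prog.seq P (Prog.const (t (Sum.inr ())) 0))
    (Prog.loop (v (Sum.inr ())) G)) R, fun w k σ x hk hx hσ => ?_⟩
  have hk₀ : e₀ ≤ k := (le_max_left _ _).trans hk
  have hk₁ : e₁ ≤ k := ((le_max_left _ _).trans (le_max_right _ _)).trans hk
  have hk₂ : e₂ ≤ k := ((le_max_right _ _).trans (le_max_right _ _)).trans hk
  obtain ⟨hx1, hx2⟩ := bd_prod.1 hx
  set B := (w.length + 2) ^ k with hB
  set σ₁ := P.run w B σ with hσ₁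
  set σ₂ := update σ₁ (t (Sum.inr ())) 0 with hσ₂
  obtain ⟨a1, a2⟩ := hP w k σ x.1 hk₁ hx1 (fun i => hσ (Sum.inl i))
  have hvt : ∀ i j, t j ≠ v i := fun i j h => by
    have := (ht j).1
    have := hv i
    omega
  have hσ₂v : ∀ i, σ₂ (v i) = σ (v i) := fun i => by
    rw [hσ₂, update_of_ne (hvt i _).symm]
    exact a2 _ ((hv i).trans_le hb') fun j => hvt i _
  -- the loop
  have hloop : ∀ s, s ≤ x.2 →
      (∀ j, (G.run w B)^[s] σ₂ (t (Sum.inl j)) = Ctx.c (itr f g w x.1 s) j) ∧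
      (G.run w B)^[s] σ₂ (t (Sum.inr ())) = s ∧
      ∀ i < b', (∀ j, t j ≠ i) → (G.run w B)^[s] σ₂ i = σ₂ i := by
    intro s
    induction s with
    | zero =>
      intro _
      refine ⟨fun j => ?_, ?_, fun i _ _ => rfl⟩
      · show σ₂ (t (Sum.inl j)) = _
        rw [hσ₂, update_of_ne (fun h => by simpa using hti h)]
        exact a1 j
      · show σ₂ (t (Sum.inr ())) = 0
        rw [hσ₂, update_self]
    | succ s ih =>
      intro hs
      obtain ⟨i1, i2, i3⟩ := ih (by omega)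
      rw [iterate_succ', comp_apply]
      set τ := (G.run w B)^[s] σ₂ with hτ
      have hxs : s ≤ (w.length + 2) ^ d := le_trans (by omega) (bd_nat.1 hx2)
      obtain ⟨g1, g2⟩ := hGG w k τ ((x.1, s), itr f g w x.1 s) hk₂
        (bd_prod.2 ⟨bd_prod.2 ⟨hx1.mono (le_max_left _ _), (bd_nat.2 hxs).mono (le_max_left _ _)⟩,
          (hb₀ w x.1 s hx1 hxs).mono (le_max_right _ _)⟩) (fun i => by
          rcases i with (i | i) | i
          · show τ (v (Sum.inl i)) = _
            rw [i3 _ ((hv _).trans_le hb') fun j => hvt _ _, hσ₂v]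
            exact hσ (Sum.inl i)
          · exact i2
          · exact i1 i)
      refine ⟨fun j => g1 (Sum.inl j), g1 (Sum.inr ()), fun i hi hio => ?_⟩
      rw [g2 i hi hio, i3 i hi hio]
  have hx2' : σ₂ (v (Sum.inr ())) = x.2 := by
    rw [hσ₂v]
    exact hσ (Sum.inr ())
  obtain ⟨l1, l2, l3⟩ := hloop x.2 le_rfl
  set σ₃ := (G.run w B)^[x.2] σ₂ with hσ₃
  obtain ⟨r1, r2⟩ := hR w B σ₃
  have hrun : (Prog.seq (Prog.seq (Prog.seq P (Prog.const (t (Sum.inr ())) 0))
      (Prog.loop (v (Sum.inr ())) G)) R).run w B σ = R.run w B σ₃ := by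
    have h0 : (Prog.const (t (Sum.inr ())) 0 : Prog α).run w B σ₁ = σ₂ := by
      show update σ₁ (t (Sum.inr ())) (min 0 B) = _
      rw [Nat.zero_min]
    show R.run w B ((G.run w B)^[(Prog.const (t (Sum.inr ())) 0 : Prog α).run w B σ₁
      (v (Sum.inr ()))] ((Prog.const (t (Sum.inr ())) 0 : Prog α).run w B σ₁)) = _
    rw [h0, hx2']
  rw [hrun]
  refine ⟨fun j => ?_, fun i hi hio => ?_⟩
  · rw [r1 j, l1 j]
  · have hti' : ∀ j, t j ≠ i := fun j h => by
      have := (ht j).1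
      omega
    rw [r2 i hio, l3 i (hi.trans_le hb') hti', hσ₂, update_of_ne (hti' _).symm]
    exact a2 i (hi.trans_le hb') fun j => hti' _

end Pool.Agent.HM13.LS
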