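import Mathlib

/-!
# Deterministic logarithmic space

A loop program works with finitely many registers which contain natural numbers. All numbers are cut
off at a bound which is a polynomial in the length `n` of the input, so that the content of a
register is a string of `O(log n)` bits. The input can only be read: a program can ask whether the
letter at the position given by a register is the letter `a`. Such programs decide exactly the
languages in deterministic logarithmic space.
-/

set_option autoImplicit false

namespace Pool.Agent.HM13.LS

/-- Loop programs for words over the alphabet `α`. The registers are `x_0, x_1, x_2, …`. -/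
inductive Prog (α : Type) : Type
  /-- `x_i := c` -/
  | const (i c : ℕ) : Prog α
  /-- `x_i := x_j` -/
  | copy (i j : ℕ) : Prog α
  /-- `x_i :=` the length of the input -/
  | len (i : ℕ) : Prog α
  /-- `x_i := 1` if the letter at the position `x_j` of the input is `a`, otherwise `x_i := 0`; the
  positions are `0, 1, …, n - 1` -/
  | letter (i j : ℕ) (a : α) : Prog α
  /-- `x_i := x_j + x_k` -/
  | add (i j k : ℕ) : Prog α
  /-- `x_i := x_j - x_k`, and `0` if this is negative -/
  | sub (i j k : ℕ) : Prog α
  /-- `x_i := x_j * x_k` -/
  | mul (i j k : ℕ) : Prog α
  /-- `x_i :=` the integral part of `x_j / x_k`, and `0` if `x_k = 0` -/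
  | div (i j k : ℕ) : Prog α
  /-- first `P`, then `Q` -/
  | seq (P Q : Prog α) : Prog α
  /-- repeat `P`; the number of repetitions is the content of `x_i` before the loop -/
  | loop (i : ℕ) (P : Prog α) : Prog α

open Classical in
/-- The contents of the registers after the program, on the input `w`. All numbers that are computed
are cut off at `B` (a greater number is replaced by `B`). -/
noncomputable def Prog.run {α : Type} (w : List α) (B : ℕ) : Prog α → (ℕ → ℕ) → ℕ → ℕ
  | const i c, σ => Function.update σ i (min c B)
  | copy i j, σ => Function.update σ i (σ j)
  | len i, σ => Function.update σ i (min w.length B)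
  | letter i j a, σ => Function.update σ i (if w[σ j]? = some a then min 1 B else 0)
  | add i j k, σ => Function.update σ i (min (σ j + σ k) B)
  | sub i j k, σ => Function.update σ i (min (σ j - σ k) B)
  | mul i j k, σ => Function.update σ i (min (σ j * σ k) B)
  | div i j k, σ => Function.update σ i (min (σ j / σ k) B)
  | seq P Q, σ => Q.run w B (P.run w B σ)
  | loop i P, σ => (P.run w B)^[σ i] σ

/-- The language `K` is in `L` (deterministic logarithmic space): some loop program, working with
numbers at most `(n + 2) ^ k` on inputs of length `n`, starting with empty registers, stops with
`x_0 = 1` if and only if the input is in `K`. -/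
def InL {α : Type} (K : Set (List α)) : Prop :=
  ∃ (P : Prog α) (k : ℕ), ∀ w, w ∈ K ↔ P.run w ((w.length + 2) ^ k) (fun _ => 0) 0 = 1

end Pool.Agent.HM13.LS
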