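import Mathlib

/-!
# Graph reachability in the submonoid generated by five pairs of binary words
-/

set_option autoImplicit false

namespace Pool.Agent.HM13.Five

open List

/-- The submonoid of `{0,1}* × {0,1}*` generated by the pairs
`(0, 1000), (1, 10), (ε, 00), (ε, 01), (ε, 00000)`. -/
inductive M : List Bool → List Bool → Prop
  | nil : M [] []
  | a {x y : List Bool} : M x y → M (false :: x) (true :: false :: false :: false :: y)
  | d {x y : List Bool} : M x y → M (true :: x) (true :: false :: y)
  | e2 {x y : List Bool} : M x y → M x (false :: false :: y)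
  | e1 {x y : List Bool} : M x y → M x (false :: true :: y)
  | e5 {x y : List Bool} : M x y → M x (false :: false :: false :: false :: false :: y)

theorem m_nil {x : List Bool} : M x [] ↔ x = [] :=
  ⟨fun h => by cases h; rfl, fun h => h ▸ M.nil⟩

theorem m_false {x z : List Bool} : M x (false :: z) ↔
    (∃ z', z = false :: z' ∧ M x z') ∨ (∃ z', z = true :: z' ∧ M x z') ∨
      ∃ z', z = false :: false :: false :: false :: z' ∧ M x z' := by
  constructor
  · intro h
    cases h with
    | e2 h => exact Or.inl ⟨_, rfl, h⟩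
    | e1 h => exact Or.inr (Or.inl ⟨_, rfl, h⟩)
    | e5 h => exact Or.inr (Or.inr ⟨_, rfl, h⟩)
  · rintro (⟨z', rfl, h⟩ | ⟨z', rfl, h⟩ | ⟨z', rfl, h⟩)
    · exact M.e2 h
    · exact M.e1 h
    · exact M.e5 h

theorem m_true {x z : List Bool} : M x (true :: z) ↔
    (∃ x' z', x = false :: x' ∧ z = false :: false :: false :: z' ∧ M x' z') ∨
      ∃ x' z', x = true :: x' ∧ z = false :: z' ∧ M x' z' := by
  constructor
  · intro h
    cases h with
    | a h => exact Or.inl ⟨_, _, rfl, rfl, h⟩
    | d h => exact Or.inr ⟨_, _, rfl, rfl, h⟩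
  · rintro (⟨x', z', rfl, rfl, h⟩ | ⟨x', z', rfl, rfl, h⟩)
    · exact M.a h
    · exact M.d h

/-- the word with the given gaps -/
def gw (l : List ℕ) : List Bool := l.flatMap fun n => true :: replicate n false

/-- the word with the given gaps and the last letter `1` -/
def yw (l : List ℕ) : List Bool := gw l ++ [true]

theorem yw_nil : yw [] = [true] := rfl

theorem yw_cons (n : ℕ) (l : List ℕ) : yw (n :: l) = true :: (replicate n false ++ yw l) := by
  simp [yw, gw]

theorem exists_yw (l : List ℕ) : ∃ z, yw l = true :: z := by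
  cases l with
  | nil => exact ⟨[], rfl⟩
  | cons n l => exact ⟨_, yw_cons n l⟩

/-- a run of zeros before the word -/
theorem m_run {x : List Bool} {l : List ℕ} : ∀ r : ℕ, M x (replicate r false ++ yw l) →
    (M x (yw l) ∧ (r % 2 = 0 ∨ 5 ≤ r)) ∨ (M x (false :: yw l) ∧ (r % 2 = 1 ∨ 6 ≤ r)) := by
  intro r
  induction r using Nat.strong_induction_on with
  | _ r ih =>
    intro h
    rcases r with _ | r
    · exact Or.inl ⟨by simpa using h, Or.inl rfl⟩
    rcases r with _ | r
    · exact Or.inr ⟨by simpa using h, Or.inl rfl⟩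
    rw [replicate_succ, replicate_succ, cons_append, cons_append] at h
    rcases m_false.1 h with ⟨z', h1, h2⟩ | ⟨z', h1, h2⟩ | ⟨z', h1, h2⟩
    · rw [List.cons.injEq] at h1
      rw [← h1.2] at h2
      rcases ih r (by omega) h2 with ⟨h3, h4⟩ | ⟨h3, h4⟩
      · exact Or.inl ⟨h3, by omega⟩
      · exact Or.inr ⟨h3, by omega⟩
    · rw [List.cons.injEq] at h1
      exact absurd h1.1 (by simp)
    · rw [List.cons.injEq] at h1
      obtain ⟨z, hz⟩ := exists_yw l
      have h5 : ∃ s, r = s + 3 ∧ replicate s false ++ yw l = z' := by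
        rcases r with _ | _ | _ | s
        · rw [hz] at h1; exact absurd h1.2 (by simp)
        · rw [hz] at h1; exact absurd h1.2 (by simp [replicate_succ])
        · rw [hz] at h1; exact absurd h1.2 (by simp [replicate_succ])
        · refine ⟨s, rfl, ?_⟩
          have h6 := h1.2
          simpa [replicate_succ] using h6
      obtain ⟨s, hs, rfl⟩ := h5
      rcases ih s (by omega) h2 with ⟨h3, h4⟩ | ⟨h3, h4⟩
      · exact Or.inl ⟨h3, by omega⟩
      · exact Or.inr ⟨h3, by omega⟩

theorem m_even {x z : List Bool} (h : M x z) : ∀ r, M x (replicate (2 * r) false ++ z)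
  | 0 => by simpa using h
  | r + 1 => by
    have h1 := M.e2 (m_even h r)
    simpa [Nat.mul_succ, replicate_succ] using h1

theorem m_odd {x z : List Bool} (h : M x z) (r : ℕ) :
    M x (replicate (2 * r + 5) false ++ z) := by
  have h1 := M.e5 (m_even h r)
  simpa [replicate_succ] using h1

/-- one of the two phases at the beginning of the word -/
def MM (x : List Bool) (l : List ℕ) : Prop := M x (yw l) ∨ M x (false :: yw l)

theorem mm_of_run {x : List Bool} {l : List ℕ} {r : ℕ} (h : M x (replicate r false ++ yw l)) :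
    MM x l := (m_run r h).imp And.left And.left

theorem MM.run {x : List Bool} {l : List ℕ} (h : MM x l) {r : ℕ} (hr : r = 5 ∨ r = 8) :
    M x (replicate r false ++ yw l) := by
  rcases hr with rfl | rfl
  · rcases h with h | h
    · exact m_odd h 0
    · have := m_even h 2
      simpa [replicate_succ] using this
  · rcases h with h | h
    · exact m_even h 4
    · have := m_odd h 1
      simpa [replicate_succ] using this

/-- the gaps of an edge -/
def blk (α β : ℕ) : List ℕ := replicate α 3 ++ 1 :: (replicate β 3 ++ [8])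

theorem mm_nil {x : List Bool} : MM x [] ↔ x = [] := by
  unfold MM
  rw [yw_nil]
  constructor
  · rintro (h | h)
    · rcases m_true.1 h with ⟨x', z', _, h1, _⟩ | ⟨x', z', _, h1, _⟩
      · exact absurd h1 (by simp)
      · exact absurd h1 (by simp)
    · rcases m_false.1 h with ⟨z', h1, h2⟩ | ⟨z', h1, h2⟩ | ⟨z', h1, h2⟩
      · exact absurd h1 (by simp)
      · rw [List.cons.injEq] at h1
        rw [← h1.2] at h2
        exact m_nil.1 h2
      · exact absurd h1 (by simp)
  · rintro rfl
    exact Or.inr (M.e1 M.nil)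

/-! ### Soundness -/

theorem q_cons {x : List Bool} {n : ℕ} {l : List ℕ} (h : M x (false :: yw (n :: l))) :
    M x (replicate n false ++ yw l) := by
  rw [yw_cons] at h
  rcases m_false.1 h with ⟨z', h1, h2⟩ | ⟨z', h1, h2⟩ | ⟨z', h1, h2⟩
  · exact absurd h1 (by simp)
  · rw [List.cons.injEq] at h1
    rw [← h1.2] at h2
    exact h2
  · exact absurd h1 (by simp)

theorem p_cons {x : List Bool} {n : ℕ} {l : List ℕ} (h : M x (yw (n :: l))) :
    (∃ x', x = false :: x' ∧ 3 ≤ n ∧ M x' (replicate (n - 3) false ++ yw l)) ∨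
      ∃ x', x = true :: x' ∧ 1 ≤ n ∧ M x' (replicate (n - 1) false ++ yw l) := by
  rw [yw_cons] at h
  obtain ⟨z, hz⟩ := exists_yw l
  rcases m_true.1 h with ⟨x', z', h0, h1, h2⟩ | ⟨x', z', h0, h1, h2⟩
  · refine Or.inl ⟨x', h0, ?_⟩
    rcases n with _ | _ | _ | n
    · rw [hz] at h1; exact absurd h1 (by simp)
    · rw [hz] at h1; exact absurd h1 (by simp [replicate_succ])
    · rw [hz] at h1; exact absurd h1 (by simp [replicate_succ])
    · refine ⟨by omega, ?_⟩
      have h3 : replicate n false ++ yw l = z' := by simpa [replicate_succ] using h1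
      rw [← h3] at h2
      simpa using h2
  · refine Or.inr ⟨x', h0, ?_⟩
    rcases n with _ | n
    · rw [hz] at h1; exact absurd h1 (by simp)
    · refine ⟨by omega, ?_⟩
      have h3 : replicate n false ++ yw l = z' := by simpa [replicate_succ] using h1
      rw [← h3] at h2
      simpa using h2

theorem p_three {x : List Bool} {m : ℕ} {l : List ℕ} (h : M x (yw (replicate m 3 ++ l))) :
    ∃ u x', x = u ++ x' ∧ u.length = m ∧ M x' (yw l) := by
  induction m generalizing x with
  | zero => exact ⟨[], x, rfl, rfl, by simpa using h⟩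
  | succ m ih =>
    rw [replicate_succ, cons_append] at h
    rcases p_cons h with ⟨x', rfl, _, h1⟩ | ⟨x', rfl, _, h1⟩
    · obtain ⟨u, x'', rfl, h3, h4⟩ := ih (by simpa using h1)
      exact ⟨false :: u, x'', rfl, by simp [h3], h4⟩
    · rcases m_run _ h1 with ⟨h2, _⟩ | ⟨_, h2⟩
      · obtain ⟨u, x'', rfl, h3, h4⟩ := ih h2
        exact ⟨true :: u, x'', rfl, by simp [h3], h4⟩
      · exact absurd h2 (by decide)

theorem q_three {x : List Bool} {m : ℕ} {l : List ℕ}
    (h : M x (false :: yw (replicate m 3 ++ l))) : M x (false :: yw l) := by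
  induction m with
  | zero => simpa using h
  | succ m ih =>
    rw [replicate_succ, cons_append] at h
    rcases m_run _ (q_cons h) with ⟨_, h2⟩ | ⟨h2, _⟩
    · exact absurd h2 (by decide)
    · exact ih h2

/-- **Soundness for one edge.** -/
theorem mm_blk {x : List Bool} {α β : ℕ} {l : List ℕ} (h : MM x (blk α β ++ l)) :
    MM x l ∨ ∃ u v x', x = u ++ true :: (v ++ x') ∧ u.length = α ∧ v.length = β + 1 ∧
      MM x' l := by
  unfold blk at h
  rw [append_assoc, cons_append, append_assoc] at h
  rcases h with h | h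
  · right
    obtain ⟨u, x1, rfl, hu, h1⟩ := p_three h
    rcases p_cons h1 with ⟨x2, rfl, h2, _⟩ | ⟨x2, rfl, _, h2⟩
    · omega
    · obtain ⟨v, x3, rfl, hv, h3⟩ := p_three (m := β) (l := [8] ++ l) (by simpa using h2)
      rcases p_cons h3 with ⟨x4, rfl, _, h4⟩ | ⟨x4, rfl, _, h4⟩
      · exact ⟨u, v ++ [false], x4, by simp, hu, by simp [hv], mm_of_run h4⟩
      · exact ⟨u, v ++ [true], x4, by simp, hu, by simp [hv], mm_of_run h4⟩
  · left
    have h1 := q_cons (q_three h)
    exact mm_of_run (q_cons (q_three (m := β) (l := [8] ++ l) (by simpa using h1)))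

/-! ### Completeness -/

theorem q_three' {x : List Bool} {l : List ℕ} (h : M x (false :: yw l)) : ∀ m,
    M x (false :: yw (replicate m 3 ++ l))
  | 0 => by simpa using h
  | m + 1 => by
    rw [replicate_succ, cons_append, yw_cons]
    exact M.e1 (M.e2 (q_three' h m))

theorem p_three' {x : List Bool} {l : List ℕ} (h : M x (yw l)) : ∀ m,
    M (replicate m false ++ x) (yw (replicate m 3 ++ l))
  | 0 => by simpa using h
  | m + 1 => by
    rw [replicate_succ, replicate_succ, cons_append, cons_append, yw_cons]
    exact M.a (p_three' h m)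

theorem MM.skip {x : List Bool} {l : List ℕ} (h : MM x l) (α β : ℕ) : MM x (blk α β ++ l) := by
  unfold blk
  rw [append_assoc, cons_append, append_assoc]
  right
  refine q_three' ?_ α
  rw [yw_cons]
  refine M.e1 ?_
  show M x (false :: yw (replicate β 3 ++ ([8] ++ l)))
  refine q_three' ?_ β
  rw [singleton_append, yw_cons]
  exact M.e1 (h.run (Or.inr rfl))

theorem MM.apply {x : List Bool} {l : List ℕ} (h : MM x l) (α β : ℕ) :
    MM (replicate α false ++ true :: (replicate (β + 1) false ++ x)) (blk α β ++ l) := by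
  unfold blk
  rw [append_assoc, cons_append, append_assoc]
  left
  refine p_three' ?_ α
  rw [yw_cons]
  refine M.d ?_
  rw [show replicate (β + 1) false ++ x = replicate β false ++ (false :: x) by
    rw [replicate_succ', append_assoc, singleton_append]]
  show M _ (yw (replicate β 3 ++ ([8] ++ l)))
  refine p_three' ?_ β
  rw [singleton_append, yw_cons]
  exact M.a (h.run (Or.inl rfl))

/-! ### Reachability -/

/-- the word on the left -/
def xw (V p m e : ℕ) : List Bool :=
  replicate p false ++ (true :: ((range m).flatMap (fun _ => replicate V false ++ [true]) ++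
    replicate e false))

theorem flatMap_const_succ {γ : Type} (c : List γ) (m : ℕ) :
    (range (m + 1)).flatMap (fun _ => c) = c ++ (range m).flatMap fun _ => c := by
  induction m with
  | zero => simp
  | succ m ih =>
    have h1 : (range (m + 1 + 1)).flatMap (fun _ => c) =
        (range (m + 1)).flatMap (fun _ => c) ++ c := by
      rw [range_succ, flatMap_append]
      simp
    have h2 : (range (m + 1)).flatMap (fun _ => c) = (range m).flatMap (fun _ => c) ++ c := by
      rw [range_succ, flatMap_append]
      simp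
    rw [h1, ih, append_assoc, ← h2, ih]

theorem xw_zero (V p e : ℕ) : xw V p 0 e = replicate p false ++ true :: replicate e false := by
  simp [xw]

theorem xw_succ (V p m e : ℕ) :
    xw V p (m + 1) e = replicate p false ++ true :: xw V V m e := by
  unfold xw
  rw [flatMap_const_succ]
  simp

/-- the paths of length `k` -/
def Pth (E : ℕ → ℕ → Prop) : ℕ → ℕ → ℕ → Prop
  | 0, s, t => s = t
  | k + 1, s, t => ∃ u, E s u ∧ Pth E k u t

/-- the gaps of the list of edges -/
def gaps (V : ℕ) (bs : List (ℕ × ℕ)) : List ℕ := bs.flatMap fun e => blk (V - 1 - e.1) e.2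

theorem gaps_cons (V : ℕ) (e : ℕ × ℕ) (bs : List (ℕ × ℕ)) :
    gaps V (e :: bs) = blk (V - 1 - e.1) e.2 ++ gaps V bs := by simp [gaps]

theorem mm_eq_nil {V k : ℕ} {bs : List (ℕ × ℕ)} (h : MM (replicate k false) (gaps V bs)) :
    k = 0 := by
  induction bs with
  | nil =>
    have := mm_nil.1 h
    simpa using this
  | cons e bs ih =>
    rw [gaps_cons] at h
    rcases mm_blk h with h | ⟨u, v, x', h1, _⟩
    · exact ih h
    · exfalso
      have h2 : true ∈ replicate k false := by rw [h1]; simp
      rw [mem_replicate] at h2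
      exact absurd h2.2 (by simp)

/-- the first `1` -/
theorem split_unique {p : ℕ} {u x y : List Bool} (h : replicate p false ++ true :: x =
    u ++ true :: y) (hu : u.length ≤ p) : u = replicate p false ∧ x = y := by
  have h1 : u.length = p := by
    by_contra hc
    have h2 : (replicate p false ++ true :: x)[u.length]? = (u ++ true :: y)[u.length]? := by
      rw [h]
    rw [getElem?_append_left (by simp; omega), getElem?_append_right le_rfl] at h2
    rw [Nat.sub_self, getElem?_replicate] at h2
    rw [if_pos (by omega)] at h2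
    exact absurd h2 (by simp)
  have h2 := List.append_inj h (by simp [h1])
  exact ⟨h2.1.symm, (List.cons.inj h2.2).2⟩

/-- **Soundness.** -/
theorem pth_of_mm {V t₀ : ℕ} {E : ℕ → ℕ → Prop} {bs : List (ℕ × ℕ)}
    (hbs : ∀ e ∈ bs, e.1 < V ∧ e.2 < V ∧ E e.1 e.2) : ∀ (m s₀ : ℕ), s₀ < V →
    MM (xw V (V - 1 - s₀) m (t₀ + 1)) (gaps V bs) → Pth E (m + 1) s₀ t₀ := by
  induction bs with
  | nil =>
    intro m s₀ _ h
    have := mm_nil.1 h
    exact absurd this (by simp [xw])
  | cons e bs ih =>
    intro m s₀ hs h
    have hbs' := fun e' he' => hbs e' (mem_cons_of_mem _ he')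
    obtain ⟨he1, he2, hE⟩ := hbs e (mem_cons_self ..)
    rw [gaps_cons] at h
    rcases mm_blk h with h | ⟨u, v, x', h1, hu, hv, h2⟩
    · exact ih hbs' m s₀ hs h
    -- the place of the `1`
    have hle : u.length ≤ V - 1 - s₀ := by
      by_contra hc
      have h3 : (xw V (V - 1 - s₀) m (t₀ + 1))[u.length]? =
          (u ++ true :: (v ++ x'))[u.length]? := by rw [h1]
      have h4 : ∀ w, (replicate (V - 1 - s₀) false ++ true :: w)[u.length]? =
          w[u.length - (V - 1 - s₀) - 1]? := by
        intro w
        rw [getElem?_append_right (by simp; omega), length_replicate,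
          getElem?_cons, if_neg (by omega)]
      have h5 : (u ++ true :: (v ++ x'))[u.length]? = some true := by simp
      rw [h5] at h3
      rcases m with _ | m
      · rw [xw_zero, h4, getElem?_replicate] at h3
        split_ifs at h3
        · exact absurd h3 (by simp)
      · rw [xw_succ, h4] at h3
        unfold xw at h3
        rw [getElem?_append_left (by simp; omega), getElem?_replicate] at h3
        split_ifs at h3
        · exact absurd h3 (by simp)
    rcases m with _ | m
    · rw [xw_zero] at h1
      obtain ⟨h3, h4⟩ := split_unique h1 hle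
      have h5 : V - 1 - e.1 = V - 1 - s₀ := by rw [← hu, h3, length_replicate]
      have h6 : e.1 = s₀ := by omega
      have h7 : v.length + x'.length = t₀ + 1 := by
        rw [← length_append, ← h4, length_replicate]
      have h8 : x' = replicate x'.length false := by
        refine eq_replicate_length.2 fun b hb => ?_
        have : b ∈ replicate (t₀ + 1) false := by rw [h4]; simp [hb]
        exact (mem_replicate.1 this).2
      rw [h8] at h2
      have h9 := mm_eq_nil h2
      have h10 : e.2 = t₀ := by omega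
      exact ⟨e.2, h6 ▸ hE, h10⟩
    · rw [xw_succ] at h1
      obtain ⟨h3, h4⟩ := split_unique h1 hle
      have h5 : V - 1 - e.1 = V - 1 - s₀ := by rw [← hu, h3, length_replicate]
      have h6 : e.1 = s₀ := by omega
      have h7 : xw V V m (t₀ + 1) = replicate (e.2 + 1) false ++ xw V (V - 1 - e.2) m (t₀ + 1) := by
        unfold xw
        rw [← append_assoc, ← replicate_add]
        congr 2
        omega
      rw [h7] at h4
      have h8 := (List.append_inj h4 (by rw [length_replicate, hv])).2
      rw [← h8] at h2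
      exact ⟨e.2, h6 ▸ hE, ih hbs' m e.2 he2 h2⟩

theorem MM.skips {V : ℕ} {x : List Bool} {bs : List (ℕ × ℕ)} (h : MM x (gaps V bs)) :
    ∀ bs' : List (ℕ × ℕ), MM x (gaps V (bs' ++ bs))
  | [] => h
  | e :: bs' => by
    rw [cons_append, gaps_cons]
    exact (h.skips bs').skip _ _

/-- **Completeness.** -/
theorem mm_of_pth {V t₀ : ℕ} {E : ℕ → ℕ → Prop} {bs : List (ℕ × ℕ)}
    (hE : ∀ s t, E s t → s < V ∧ t < V ∧ (s, t) ∈ bs) : ∀ (m s₀ : ℕ), Pth E (m + 1) s₀ t₀ →
    MM (xw V (V - 1 - s₀) m (t₀ + 1)) (gaps V ((range (m + 1)).flatMap fun _ => bs)) := by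
  have hcs := flatMap_const_succ bs
  intro m
  induction m with
  | zero =>
    rintro s₀ ⟨t, h1, h2⟩
    have h2 : t = t₀ := h2
    subst h2
    obtain ⟨hs, ht, hm⟩ := hE _ _ h1
    obtain ⟨J₁, J₂, hJ⟩ := append_of_mem hm
    rw [hcs, hJ, append_assoc]
    refine MM.skips ?_ J₁
    rw [cons_append, gaps_cons, xw_zero]
    have h3 : MM [] (gaps V (J₂ ++ (range 0).flatMap fun _ => J₁ ++ (s₀, t) :: J₂)) := by
      have := (show MM [] (gaps V []) from mm_nil.2 rfl).skips (V := V) J₂
      simpa using this
    have h4 := h3.apply (V - 1 - s₀) t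
    rwa [append_nil] at h4
  | succ m ih =>
    rintro s₀ ⟨t, h1, h2⟩
    obtain ⟨hs, ht, hm⟩ := hE _ _ h1
    have h3 := ih t h2
    obtain ⟨J₁, J₂, hJ⟩ := append_of_mem hm
    rw [hcs]
    nth_rewrite 1 [hJ]
    rw [append_assoc]
    refine MM.skips ?_ J₁
    rw [cons_append, gaps_cons, xw_succ]
    have h4 := (h3.skips J₂).apply (V - 1 - s₀) t
    have h7 : xw V V m (t₀ + 1) = replicate (t + 1) false ++ xw V (V - 1 - t) m (t₀ + 1) := by
      unfold xw
      rw [← append_assoc, ← replicate_add]
      congr 2
      omega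
    rwa [← h7] at h4

/-- **Paths of a given length and the five pairs.** -/
theorem m_iff_pth {V t₀ s₀ m : ℕ} {E : ℕ → ℕ → Prop} {bs : List (ℕ × ℕ)}
    (hE : ∀ s t, E s t ↔ s < V ∧ t < V ∧ (s, t) ∈ bs) (hb : ∀ e ∈ bs, e.1 < V ∧ e.2 < V)
    (hs : s₀ < V) :
    M (xw V (V - 1 - s₀) m (t₀ + 1))
      (replicate 5 false ++ yw (gaps V ((range (m + 1)).flatMap fun _ => bs))) ↔
    Pth E (m + 1) s₀ t₀ := by
  constructor
  · intro h
    refine pth_of_mm (fun e he => ?_) m s₀ hs (mm_of_run h)
    rw [mem_flatMap] at he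
    obtain ⟨_, _, he⟩ := he
    obtain ⟨h1, h2⟩ := hb e he
    exact ⟨h1, h2, (hE _ _).2 ⟨h1, h2, he⟩⟩
  · intro h
    exact (mm_of_pth (fun s t h => (hE s t).1 h) m s₀ h).run (Or.inl rfl)

end Pool.Agent.HM13.Five
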