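import Pool.Agent.HM13.LS.Seg
import Pool.Agent.TH457.HT.LinDefs

/-!
# Linear grammars
-/

set_option autoImplicit false

namespace Pool.Agent.HM13.LS

open Pool.Agent.TH457.HT

variable {α : Type}

/-- `A ⇒* x B y` in the grammar `G` -/
inductive Der (G : LinGrammar α) : G.NT → List α → G.NT → List α → Prop
  | refl (A : G.NT) : Der G A [] A []
  | step (A B C : G.NT) (u v x y : List α) (h : (A, u, B, v) ∈ G.inner) (hd : Der G B x C y) :
      Der G A (u ++ x) C (y ++ v)

variable (G : LinGrammar α)

/-- the rules as the rules of a transducer -/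
def rls : Set (Rul G.NT α α) := (fun r => (r.1, r.2.1, r.2.2.1, r.2.2.2.reverse)) '' G.inner

variable {G}

theorem mem_rls {A B : G.NT} {u v : List α} : (A, u, B, v) ∈ rls G ↔ (A, u, B, v.reverse) ∈
    G.inner := by
  constructor
  · rintro ⟨⟨A', u', B', v'⟩, h, h'⟩
    simp only [Prod.mk.injEq] at h'
    obtain ⟨rfl, rfl, rfl, rfl⟩ := h'
    rwa [List.reverse_reverse]
  · intro h
    exact ⟨_, h, by simp⟩

theorem der_iff {A B : G.NT} {x y : List α} :
    Der G A x B y ↔ ∃ l, Path (rls G) A l B ∧ w1 l = x ∧ w2 l = y.reverse := by
  constructor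
  · intro h
    induction h with
    | refl A => exact ⟨[], Path.nil A, rfl, rfl⟩
    | step A B C u v x y h _ ih =>
      obtain ⟨l, h1, h2, h3⟩ := ih
      refine ⟨(A, u, B, v.reverse) :: l, path_cons_iff.2 ⟨rfl, ?_, h1⟩, ?_, ?_⟩
      · rw [mem_rls, List.reverse_reverse]
        exact h
      · rw [w1_cons, h2]
      · rw [w2_cons, h3, List.reverse_append]
  · rintro ⟨l, h1, h2, h3⟩
    induction l generalizing A x y with
    | nil =>
      rw [path_nil_iff] at h1
      subst h1
      have h4 : y = [] := by simpa [w2_nil] using h3.symm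
      rw [← h2, h4]
      exact Der.refl A
    | cons r l ih =>
      obtain ⟨rfl, h4, h5⟩ := path_cons_iff.1 h1
      obtain ⟨A', u, B', v⟩ := r
      rw [mem_rls] at h4
      have h6 : y = (w2 l).reverse ++ v.reverse := by
        rw [← List.reverse_reverse y, ← h3, w2_cons, List.reverse_append]
      rw [← h2, h6, w1_cons]
      exact Der.step A' B' B u v.reverse _ _ h4 (ih h5 rfl (by rw [List.reverse_reverse]))

theorem gen_iff {A : G.NT} {w : List α} : G.Gen A w ↔ ∃ (C : G.NT) (u x y : List α),
    Der G A x C y ∧ (C, u) ∈ G.last ∧ w = x ++ u ++ y := by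
  constructor
  · intro h
    induction h with
    | last A u h => exact ⟨A, u, [], [], Der.refl A, h, by simp⟩
    | inner A B u v w h _ ih =>
      obtain ⟨C, z, x, y, h1, h2, h3⟩ := ih
      exact ⟨C, z, u ++ x, y ++ v, Der.step A B C u v x y h h1, h2, by
        rw [h3]; simp only [List.append_assoc]⟩
  · rintro ⟨C, z, x, y, h1, h2, rfl⟩
    induction h1 with
    | refl A => simpa using LinGrammar.Gen.last A z h2
    | step A B C u v x y h _ ih =>
      have := LinGrammar.Gen.inner A B u v _ h (ih h2)
      simpa only [List.append_assoc] using this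

/-- **The criterion.** -/
theorem inL_of_loc (h : ∀ A : G.NT,
    (∀ x y y' : List α, Der G A x A y → Der G A x A y' →
      y.length = y'.length ∨ y ++ y' = y' ++ y) ∨
    (∀ x x' y : List α, Der G A x A y → Der G A x' A y →
      x.length = x'.length ∨ x ++ x' = x' ++ x)) :
    InL G.language := by
  have hfin : (rls G).Finite := G.inner_fin.image _
  have hloc : ∀ A : G.NT, Loc (rls G) A ∨ Loc (swp (rls G)) A := by
    intro A
    rcases h A with h1 | h1
    · refine Or.inl fun l l' hl hl' hw => ?_
      have h2 := h1 (w1 l) (w2 l).reverse (w2 l').reverse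
        (der_iff.2 ⟨l, hl, rfl, by rw [List.reverse_reverse]⟩)
        (der_iff.2 ⟨l', hl', hw.symm, by rw [List.reverse_reverse]⟩)
      rw [← List.reverse_append, ← List.reverse_append, List.length_reverse,
        List.length_reverse] at h2
      exact h2.imp_right fun h3 => (List.reverse_injective h3).symm
    · refine Or.inr fun l l' hl hl' hw => ?_
      rw [← map_sw_sw l, path_sw] at hl
      rw [← map_sw_sw l', path_sw] at hl'
      rw [← w2_sw, ← w2_sw] at hw
      rw [← w1_sw, ← w1_sw]
      refine h1 _ _ (w2 (l.map sw)).reverse (der_iff.2 ⟨_, hl, rfl, by rw [List.reverse_reverse]⟩)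
        (der_iff.2 ⟨_, hl', rfl, ?_⟩)
      rw [List.reverse_reverse, hw]
  refine LR.inL ?_
  have key : ∀ t ∈ G.last, LR (fun (w : List α) (_ : Unit) => ∃ i < w.length + 1,
      ∃ j < w.length + 1, Rch (rls G) G.start t.1 w w.reverse 0 i 0 j ∧ Fac w i t.2 ∧
        i + t.2.length + j = w.length) := by
    intro t _
    refine LR.ex (R := fun w (z : Unit × ℕ) => ∃ j < w.length + 1,
      Rch (rls G) G.start t.1 w w.reverse 0 z.2 0 j ∧ Fac w z.2 t.2 ∧
        z.2 + t.2.length + j = w.length) ?_ (LS.len.fadd (LS.const 1))
    refine LR.ex (R := fun w (z : (Unit × ℕ) × ℕ) =>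
      Rch (rls G) G.start t.1 w w.reverse 0 z.1.2 0 z.2 ∧ Fac w z.1.2 t.2 ∧
        z.1.2 + t.2.length + z.2 = w.length) ?_ (LS.len.fadd (LS.const 1))
    refine LR.and ?_ (LR.and (LW.id.fac t.2 LS.fst'.snd)
      (LS.eq ((LS.fst'.snd.fadd (LS.const _)).fadd LS.snd') LS.len))
    exact (lr_rch (U := fun w : List α => w) (V := fun w : List α => w.reverse) hfin LW.id
      LW.reverse hloc _ G.start le_rfl t.1).comp
      (f := fun (_ : List α) (z : (Unit × ℕ) × ℕ) => (((0, z.1.2), 0), z.2))
      ((((LS.const 0).pair LS.fst'.snd).pair (LS.const 0)).pair LS.snd')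
  refine (LR.exSet G.last_fin key).congr fun w _ => ?_
  show _ ↔ G.Gen G.start w
  rw [gen_iff]
  constructor
  · rintro ⟨⟨C, u⟩, ht, i, _, j, _, ⟨l, a1, a2, a3, a4, a5⟩, b1, b2⟩
    refine ⟨C, u, w1 l, (w2 l).reverse, der_iff.2 ⟨l, a1, rfl, by rw [List.reverse_reverse]⟩, ht,
      ?_⟩
    simp only at b1 b2
    have h1 : (w1 l ++ u) <+: w := by
      have h2 : Fac w 0 (w1 l ++ u) := fac_append.2 ⟨a2, by rw [a3]; exact b1⟩
      unfold Fac at h2
      rwa [List.drop_zero] at h2
    obtain ⟨t, ht'⟩ := h1
    have h3 : w2 l <+: w.reverse := by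
      have h4 := a4
      unfold Fac at h4
      rwa [List.drop_zero] at h4
    have h5 : t.reverse <+: w.reverse := by
      rw [← ht', List.reverse_append]
      exact List.prefix_append _ _
    have h6 : (w2 l).length = t.reverse.length := by
      have h7 := congrArg List.length ht'
      simp only [List.length_append, List.length_reverse] at h7 ⊢
      omega
    have h8 : w2 l = t.reverse := by
      rw [List.prefix_iff_eq_take.1 h3, List.prefix_iff_eq_take.1 h5, h6]
    rw [← ht', h8, List.reverse_reverse]
  · rintro ⟨C, u, x, y, h1, h2, rfl⟩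
    obtain ⟨l, a1, rfl, a3⟩ := der_iff.1 h1
    refine ⟨(C, u), h2, (w1 l).length, ?_, y.length, ?_, ⟨l, a1, ?_, by omega, ?_, ?_⟩, ?_, ?_⟩
    · simp only [List.length_append]; omega
    · simp only [List.length_append]; omega
    · unfold Fac
      rw [List.drop_zero, List.append_assoc]
      exact List.prefix_append _ _
    · unfold Fac
      rw [List.drop_zero, a3, List.reverse_append]
      exact List.prefix_append _ _
    · rw [a3, List.length_reverse]; omega
    · unfold Fac
      rw [List.append_assoc, List.drop_left]
      exact List.prefix_append _ _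
    · simp only [List.length_append]

/-! ### Two rules -/

/-- products of `x` and `y` -/
def pr (x y : List α) (s : List Bool) : List α := s.flatMap fun b => cond b x y

theorem pr_cons (x y : List α) (b : Bool) (s : List Bool) :
    pr x y (b :: s) = cond b x y ++ pr x y s := by simp [pr]

theorem pr_append (x y : List α) (s t : List Bool) :
    pr x y (s ++ t) = pr x y s ++ pr x y t := by simp [pr]

theorem pr_swap (x y : List α) (s : List Bool) : pr x y s = pr y x (s.map not) := by
  induction s with
  | nil => rfl
  | cons b s ih =>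
    rw [List.map_cons, pr_cons, pr_cons, ih]
    cases b <;> rfl

theorem pr_split (x z : List α) (s : List Bool) :
    pr x (x ++ z) s = pr x z (s.flatMap fun b => cond b [true] [true, false]) := by
  induction s with
  | nil => rfl
  | cons b s ih =>
    rw [List.flatMap_cons, pr_append, pr_cons, ih]
    cases b <;> simp [pr]

theorem comm_aux : ∀ (n : ℕ) (x y : List α), x.length + y.length ≤ n → x.length ≤ y.length →
    ∀ s t, x ++ pr x y s = y ++ pr x y t → x ++ y = y ++ x := by
  intro n
  induction n with
  | zero =>
    intro x y h _ s t _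
    have h1 : x = [] := List.length_eq_zero_iff.1 (by omega)
    have h2 : y = [] := List.length_eq_zero_iff.1 (by omega)
    rw [h1, h2]
  | succ n ih =>
    intro x y hn hxy s t h
    by_cases hx : x = []
    · rw [hx, List.nil_append, List.append_nil]
    have hx' : 0 < x.length := List.length_pos_iff.2 hx
    have h1 : x <+: y := by
      refine List.prefix_of_prefix_length_le (l₃ := y ++ pr x y t) ?_ (List.prefix_append _ _) hxy
      rw [← h]
      exact List.prefix_append _ _
    obtain ⟨z, rfl⟩ := h1
    rw [List.append_assoc] at h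
    have h2 := List.append_cancel_left h
    rw [pr_split x z t] at h2
    -- one step of the smaller pair
    have key : x ++ z = z ++ x := by
      cases s with
      | nil =>
        have h3 : z = [] := by
          have h4 := congrArg List.length h2
          rw [List.length_append] at h4
          have h5 : (pr x (x ++ z) ([] : List Bool)).length = 0 := rfl
          exact List.length_eq_zero_iff.1 (by omega)
        rw [h3, List.append_nil, List.nil_append]
      | cons b s =>
        rw [pr_cons, pr_split] at h2
        obtain ⟨s', hs'⟩ : ∃ s', cond b x (x ++ z) ++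
            pr x z (s.flatMap fun b => cond b [true] [true, false]) = x ++ pr x z s' := by
          cases b with
          | true => exact ⟨_, rfl⟩
          | false =>
            exact ⟨false :: s.flatMap fun b => cond b [true] [true, false], by
              rw [pr_cons, ← List.append_assoc]
              rfl⟩
        rw [hs'] at h2
        rw [List.length_append] at hn
        rcases le_total x.length z.length with h3 | h3
        · exact ih x z (by omega) h3 _ _ h2
        · rw [pr_swap x z, pr_swap x z] at h2
          exact (ih z x (by omega) h3 _ _ h2.symm).symm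
    rw [List.append_assoc, ← key]

theorem comm_of_eq {x y : List α} {s t : List Bool} (h : x ++ pr x y s = y ++ pr x y t) :
    x ++ y = y ++ x := by
  rcases le_total x.length y.length with h1 | h1
  · exact comm_aux _ x y le_rfl h1 s t h
  · rw [pr_swap x y, pr_swap x y] at h
    exact (comm_aux _ y x le_rfl h1 _ _ h.symm).symm

/-- **Two words which do not commute are a code.** -/
theorem pr_injective {x y : List α} (hxy : x ++ y ≠ y ++ x) :
    ∀ s t, pr x y s = pr x y t → s = t := by
  have hne : ∀ b, cond b x y ≠ [] := by
    intro b hb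
    cases b with
    | true =>
      have hb : x = [] := hb
      exact hxy (by rw [hb, List.nil_append, List.append_nil])
    | false =>
      have hb : y = [] := hb
      exact hxy (by rw [hb, List.nil_append, List.append_nil])
  intro s
  induction s with
  | nil =>
    intro t h
    cases t with
    | nil => rfl
    | cons b t =>
      rw [pr_cons] at h
      have h1 : cond b x y ++ pr x y t = [] := h.symm
      exact absurd (List.append_eq_nil_iff.1 h1).1 (hne b)
  | cons a s ih =>
    intro t h
    cases t with
    | nil =>
      rw [pr_cons] at h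
      have h1 : cond a x y ++ pr x y s = [] := h
      exact absurd (List.append_eq_nil_iff.1 h1).1 (hne a)
    | cons b t =>
      rw [pr_cons, pr_cons] at h
      by_cases hab : a = b
      · subst hab
        rw [ih t (List.append_cancel_left h)]
      · exfalso
        cases a <;> cases b
        · exact hab rfl
        · exact hxy (comm_of_eq (s := t) (t := s) h.symm)
        · exact hxy (comm_of_eq (s := s) (t := t) h)
        · exact hab rfl

theorem pr_comm {x y : List α} (hxy : x ++ y = y ++ x) (s t : List Bool) :
    pr x y s ++ pr x y t = pr x y t ++ pr x y s := by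
  have h1 : ∀ a b : Bool, cond a x y ++ cond b x y = cond b x y ++ cond a x y := by
    intro a b
    cases a <;> cases b
    · rfl
    · exact hxy.symm
    · exact hxy
    · rfl
  have h2 : ∀ (a : Bool) (t : List Bool),
      cond a x y ++ pr x y t = pr x y t ++ cond a x y := by
    intro a t
    induction t with
    | nil => simp [pr]
    | cons b t ih =>
      rw [pr_cons, ← List.append_assoc, h1 a b, List.append_assoc, ih, List.append_assoc]
  induction s with
  | nil => simp [pr]
  | cons a s ih => rw [pr_cons, List.append_assoc, ih, ← List.append_assoc, h2, List.append_assoc]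

/-- **One nonterminal and two recursive rules.** -/
theorem inL_of_two [Subsingleton G.NT] {r₁ r₂ : G.NT × List α × G.NT × List α}
    (h : G.inner ⊆ {r₁, r₂}) : InL G.language := by
  -- the derivations
  have key : ∀ (A B : G.NT) (x y : List α), Der G A x B y → ∃ s : List Bool,
      x = pr r₁.2.1 r₂.2.1 s ∧ y = (pr r₁.2.2.2.reverse r₂.2.2.2.reverse s).reverse := by
    intro A B x y hd
    induction hd with
    | refl A => exact ⟨[], rfl, rfl⟩
    | step A B C u v x y hr _ ih =>
      obtain ⟨s, hx, hy⟩ := ih
      rcases h hr with h1 | h1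
      · refine ⟨true :: s, ?_, ?_⟩
        · rw [pr_cons, hx, ← h1]
          rfl
        · rw [pr_cons, hy, List.reverse_append, ← h1]
          simp
      · have h1 : (A, u, B, v) = r₂ := h1
        refine ⟨false :: s, ?_, ?_⟩
        · rw [pr_cons, hx, ← h1]
          rfl
        · rw [pr_cons, hy, List.reverse_append, ← h1]
          simp
  refine inL_of_loc fun A => ?_
  by_cases hc : r₁.2.1 ++ r₂.2.1 = r₂.2.1 ++ r₁.2.1
  · refine Or.inr fun x x' y h1 h2 => ?_
    obtain ⟨s, hs, _⟩ := key _ _ _ _ h1
    obtain ⟨t, ht, _⟩ := key _ _ _ _ h2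
    rw [hs, ht]
    exact Or.inr (pr_comm hc s t)
  · refine Or.inl fun x y y' h1 h2 => ?_
    obtain ⟨s, hs, hs'⟩ := key _ _ _ _ h1
    obtain ⟨t, ht, ht'⟩ := key _ _ _ _ h2
    exact Or.inl (by rw [hs', ht', pr_injective hc s t (hs.symm.trans ht)])

end Pool.Agent.HM13.LS
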