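import Pool.Agent.HM13.LS.Virt
import Pool.Agent.HM13.LS.Gram
import Pool.Agent.HM13.LS.Five

/-!
# The reduction of all linear languages to one language
-/

set_option autoImplicit false

namespace Pool.Agent.HM13.LS

open Pool.Agent.TH457.HT Pool.Agent.HM13.Five

variable {α : Type}

/-! ### Reachability in finite graphs -/

theorem pth_snoc {E : ℕ → ℕ → Prop} : ∀ {k s t : ℕ},
    Pth E (k + 1) s t ↔ ∃ u, Pth E k s u ∧ E u t
  | 0, s, t => by
    constructor
    · rintro ⟨u, h1, h2⟩
      exact ⟨s, rfl, by rw [← show u = t from h2]; exact h1⟩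
    · rintro ⟨u, h1, h2⟩
      exact ⟨t, by rw [show s = u from h1]; exact h2, rfl⟩
  | k + 1, s, t => by
    constructor
    · rintro ⟨u, h1, h2⟩
      obtain ⟨v, h3, h4⟩ := pth_snoc.1 h2
      exact ⟨v, ⟨u, h1, h3⟩, h4⟩
    · rintro ⟨v, ⟨u, h1, h3⟩, h4⟩
      exact ⟨u, h1, pth_snoc.2 ⟨v, h3, h4⟩⟩

/-- in a reflexive graph with `V` vertices every reachable vertex is reachable in `V` steps -/
theorem reach_iff {V : ℕ} {E : ℕ → ℕ → Prop} (hV : ∀ s t, E s t → s < V ∧ t < V)
    (hr : ∀ s < V, E s s) {s t : ℕ} (hs : s < V) :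
    Relation.ReflTransGen E s t ↔ Pth E V s t := by
  classical
  constructor
  · intro h
    set S : ℕ → Finset ℕ := fun k => (Finset.range V).filter (Pth E k s) with hS
    have hlt : ∀ k t, Pth E k s t → t < V := by
      intro k t hk
      cases k with
      | zero => exact (show s = t from hk) ▸ hs
      | succ k =>
        obtain ⟨u, _, h2⟩ := pth_snoc.1 hk
        exact (hV _ _ h2).2
    have hmem : ∀ k t, t ∈ S k ↔ Pth E k s t := by
      intro k t
      rw [hS]
      simp only [Finset.mem_filter, Finset.mem_range]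
      exact ⟨fun h => h.2, fun h => ⟨hlt k t h, h⟩⟩
    have hmono : ∀ k, S k ⊆ S (k + 1) := by
      intro k t ht
      rw [hmem] at ht ⊢
      exact ⟨s, hr s hs, ht⟩
    have hstep : ∀ k, S k = S (k + 1) → S (k + 1) = S (k + 2) := by
      intro k hk
      refine Finset.Subset.antisymm (hmono _) fun t ht => ?_
      rw [hmem] at ht
      obtain ⟨u, h1, h2⟩ := pth_snoc.1 ht
      rw [← hmem, ← hk, hmem] at h1
      rw [hmem]
      exact pth_snoc.2 ⟨u, h1, h2⟩
    have hcard : ∀ k, k + 1 ≤ (S k).card ∨ S k = S (k + 1) := by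
      intro k
      induction k with
      | zero =>
        left
        rw [Nat.succ_le_iff, Finset.card_pos]
        exact ⟨s, (hmem 0 s).2 rfl⟩
      | succ k ih =>
        by_cases hk : S (k + 1) = S (k + 2)
        · exact Or.inr hk
        · left
          rcases ih with ih | ih
          · have h1 : S k ≠ S (k + 1) := fun h => hk (hstep k h)
            have h2 := Finset.card_lt_card ((hmono k).ssubset_of_ne h1)
            omega
          · exact absurd (hstep k ih) hk
    have hV' : S V = S (V + 1) := by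
      rcases hcard V with h1 | h1
      · have h2 : (S V).card ≤ V := by
          refine (Finset.card_filter_le _ _).trans ?_
          rw [Finset.card_range]
        omega
      · exact h1
    have hall : ∀ k, S (V + k) = S V := by
      have : ∀ k, S (V + k) = S (V + k + 1) := by
        intro k
        induction k with
        | zero => exact hV'
        | succ k ih => exact hstep _ ih
      intro k
      induction k with
      | zero => rfl
      | succ k ih => rw [← ih]; exact (this k).symm
    have hmono' : ∀ k l, k ≤ l → S k ⊆ S l := fun k l hkl => monotone_nat_of_le_succ hmono hkl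
    have hex : ∃ k, Pth E k s t := by
      induction h with
      | refl => exact ⟨0, rfl⟩
      | tail _ h2 ih =>
        obtain ⟨k, hk⟩ := ih
        exact ⟨k + 1, pth_snoc.2 ⟨_, hk, h2⟩⟩
    obtain ⟨k, hk⟩ := hex
    rw [← hmem, ← hall k]
    exact hmono' k _ (Nat.le_add_left _ _) ((hmem k t).2 hk)
  · have key : ∀ k s, Pth E k s t → Relation.ReflTransGen E s t := by
      intro k
      induction k with
      | zero => intro s h; exact (show s = t from h) ▸ Relation.ReflTransGen.refl
      | succ k ih =>
        rintro s ⟨u, h1, h2⟩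
        exact Relation.ReflTransGen.head h1 (ih u h2)
    exact key V s

/-! ### The graph of a linear grammar -/

section

variable (G : LinGrammar α)

open Classical in
/-- the number of a nonterminal -/
noncomputable def ix (A : G.NT) : ℕ := (Fintype.equivFin G.NT A : ℕ)

theorem ix_lt (A : G.NT) : ix G A < Fintype.card G.NT := (Fintype.equivFin G.NT A).2

theorem ix_inj {A B : G.NT} (h : ix G A = ix G B) : A = B :=
  (Fintype.equivFin G.NT).injective (Fin.ext h)

/-- the number of a configuration: nonterminal, letters used on the left, letters used on the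
right -/
noncomputable def conf (n : ℕ) (A : G.NT) (i j : ℕ) : ℕ :=
  (ix G A * (n + 1) + i) * (n + 1) + j

/-- the last vertex -/
noncomputable def top (n : ℕ) : ℕ := (Fintype.card G.NT * (n + 1)) * (n + 1)

theorem mul_add_inj {N a b a' b' : ℕ} (hb : b < N) (hb' : b' < N)
    (h : a * N + b = a' * N + b') : a = a' ∧ b = b' := by
  have h1 : (a * N + b) / N = a := by
    rw [mul_comm, Nat.mul_add_div (by omega), Nat.div_eq_of_lt hb, add_zero]
  have h2 : (a' * N + b') / N = a' := by
    rw [mul_comm, Nat.mul_add_div (by omega), Nat.div_eq_of_lt hb', add_zero]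
  rw [h, h2] at h1
  subst h1
  exact ⟨rfl, by omega⟩

theorem conf_inj {n : ℕ} {A B : G.NT} {i j i' j' : ℕ} (hi : i < n + 1) (hj : j < n + 1)
    (hi' : i' < n + 1) (hj' : j' < n + 1) (h : conf G n A i j = conf G n B i' j') :
    A = B ∧ i = i' ∧ j = j' := by
  obtain ⟨h1, h2⟩ := mul_add_inj hj hj' h
  obtain ⟨h3, h4⟩ := mul_add_inj hi hi' h1
  exact ⟨ix_inj G h3, h4, h2⟩

theorem conf_lt {n : ℕ} {A : G.NT} {i j : ℕ} (hi : i < n + 1) (hj : j < n + 1) :
    conf G n A i j < top G n := by
  unfold conf top
  have h1 : ix G A * (n + 1) + i < Fintype.card G.NT * (n + 1) := by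
    have h2 : (ix G A + 1) * (n + 1) ≤ Fintype.card G.NT * (n + 1) :=
      Nat.mul_le_mul_right _ (ix_lt G A)
    rw [Nat.succ_mul] at h2
    omega
  have h3 : (ix G A * (n + 1) + i + 1) * (n + 1) ≤ Fintype.card G.NT * (n + 1) * (n + 1) :=
    Nat.mul_le_mul_right _ h1
  rw [Nat.succ_mul] at h3
  omega

/-- the edges of the graph -/
def Edg (w : List α) (s t : ℕ) : Prop :=
  s < top G w.length + 1 ∧ t < top G w.length + 1 ∧
  (s = t ∨
    (∃ r ∈ G.inner, ∃ i < w.length + 1, ∃ j < w.length + 1,
      s = conf G w.length r.1 i j ∧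
      t = conf G w.length r.2.2.1 (i + r.2.1.length) (j + r.2.2.2.length) ∧
      i + r.2.1.length < w.length + 1 ∧ j + r.2.2.2.length < w.length + 1 ∧
      Fac w i r.2.1 ∧ Fac w.reverse j r.2.2.2.reverse) ∨
    (∃ r ∈ G.last, ∃ i < w.length + 1, ∃ j < w.length + 1,
      s = conf G w.length r.1 i j ∧ t = top G w.length ∧ Fac w i r.2 ∧
      i + r.2.length + j = w.length))

variable {G}

/-- generated words and paths -/
theorem language_iff {w : List α} : w ∈ G.language ↔ ∃ t ∈ G.last, ∃ i < w.length + 1,
    ∃ j < w.length + 1, Rch (rls G) G.start t.1 w w.reverse 0 i 0 j ∧ Fac w i t.2 ∧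
        i + t.2.length + j = w.length := by
  show G.Gen G.start w ↔ _
  rw [gen_iff]
  constructor
  · rintro ⟨C, u, x, y, h1, h2, rfl⟩
    obtain ⟨l, a1, rfl, a3⟩ := der_iff.1 h1
    refine ⟨(C, u), h2, (w1 l).length, ?_, y.length, ?_, ⟨l, a1, ?_, by omega, ?_, ?_⟩, ?_, ?_⟩
    · simp only [List.length_append]; omega
    · simp only [List.length_append]; omega
    · unfold Fac
      rw [List.drop_zero, List.append_assoc]
      exact List.prefix_append _ _
    · unfold Fac
      rw [List.drop_zero, a3, List.reverse_append]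
      exact List.prefix_append _ _
    · rw [a3, List.length_reverse]; omega
    · unfold Fac
      rw [List.append_assoc, List.drop_left]
      exact List.prefix_append _ _
    · simp only [List.length_append]
  · rintro ⟨⟨C, u⟩, ht, i, _, j, _, ⟨l, a1, a2, a3, a4, a5⟩, b1, b2⟩
    refine ⟨C, u, w1 l, (w2 l).reverse, der_iff.2 ⟨l, a1, rfl, by rw [List.reverse_reverse]⟩, ht,
      ?_⟩
    simp only at b1 b2
    have h1 : (w1 l ++ u) <+: w := by
      have h2 : Fac w 0 (w1 l ++ u) := fac_append.2 ⟨a2, by rw [a3]; exact b1⟩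
      unfold Fac at h2
      rwa [List.drop_zero] at h2
    obtain ⟨t, ht'⟩ := h1
    have h3 : w2 l <+: w.reverse := by
      have h4 := a4
      unfold Fac at h4
      rwa [List.drop_zero] at h4
    have h5 : t.reverse <+: w.reverse := by
      rw [← ht', List.reverse_append]
      exact List.prefix_append _ _
    have h6 : (w2 l).length = t.reverse.length := by
      have h7 := congrArg List.length ht'
      simp only [List.length_append, List.length_reverse] at h7 ⊢
      omega
    have h8 : w2 l = t.reverse := by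
      rw [List.prefix_iff_eq_take.1 h3, List.prefix_iff_eq_take.1 h5, h6]
    rw [← ht', h8, List.reverse_reverse]

theorem reach_of_path {w : List α} {B : G.NT} : ∀ (l : List (Rul G.NT α α)) (A : G.NT) (i j : ℕ),
    Path (rls G) A l B → Fac w i (w1 l) → Fac w.reverse j (w2 l) →
    i + (w1 l).length < w.length + 1 → j + (w2 l).length < w.length + 1 →
    Relation.ReflTransGen (Edg G w) (conf G w.length A i j)
      (conf G w.length B (i + (w1 l).length) (j + (w2 l).length)) := by
  intro l
  induction l with
  | nil =>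
    intro A i j h _ _ _ _
    rw [path_nil_iff] at h
    rw [h]
    exact Relation.ReflTransGen.refl
  | cons r l ih =>
    intro A i j h h1 h2 h3 h4
    obtain ⟨rfl, hr, hp⟩ := path_cons_iff.1 h
    rw [w1_cons] at h1 h3 ⊢
    rw [w2_cons] at h2 h4 ⊢
    obtain ⟨h5, h6⟩ := fac_append.1 h1
    obtain ⟨h7, h8⟩ := fac_append.1 h2
    rw [List.length_append] at h3 h4 ⊢
    rw [List.length_append]
    have h9 := ih r.2.2.1 (i + r.2.1.length) (j + r.2.2.2.length) hp h6 h8 (by omega) (by omega)
    rw [← add_assoc, ← add_assoc]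
    refine Relation.ReflTransGen.head ?_ h9
    obtain ⟨A', u, B', v⟩ := r
    rw [mem_rls] at hr
    simp only at h5 h7 h3 h4 ⊢
    refine ⟨Nat.lt_succ_of_lt (conf_lt G (by omega) (by omega)),
      Nat.lt_succ_of_lt (conf_lt G (by omega) (by omega)), Or.inr (Or.inl
      ⟨_, hr, i, by omega, j, by omega, rfl, ?_, by simp only; omega, ?_, h5, ?_⟩)⟩
    · simp only [List.length_reverse]
    · simp only [List.length_reverse]; omega
    · simp only [List.reverse_reverse]
      exact h7

/-- **The graph of the grammar.** -/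
theorem language_iff_reach {w : List α} : w ∈ G.language ↔
    Relation.ReflTransGen (Edg G w) (conf G w.length G.start 0 0) (top G w.length) := by
  constructor
  · intro h
    obtain ⟨t, ht, i, hi, j, hj, ⟨l, a1, a2, a3, a4, a5⟩, b1, b2⟩ := language_iff.1 h
    have h1 := reach_of_path l G.start 0 0 a1 a2 a4 (by omega) (by omega)
    rw [a3, a5] at h1
    refine h1.tail ⟨Nat.lt_succ_of_lt (conf_lt G hi hj), Nat.lt_succ_self _,
      Or.inr (Or.inr ⟨t, ht, i, hi, j, hj, rfl, rfl, b1, b2⟩)⟩
  · intro h
    -- the invariant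
    have key : ∀ t, Relation.ReflTransGen (Edg G w) (conf G w.length G.start 0 0) t →
        (∃ (A : G.NT) (i j : ℕ), i < w.length + 1 ∧ j < w.length + 1 ∧
          t = conf G w.length A i j ∧ Rch (rls G) G.start A w w.reverse 0 i 0 j) ∨
        (t = top G w.length ∧ w ∈ G.language) := by
      intro t ht
      induction ht with
      | refl =>
        exact Or.inl ⟨G.start, 0, 0, by omega, by omega, rfl, [], Path.nil _, fac_nil _ _, rfl,
          fac_nil _ _, rfl⟩
      | tail _ hE ih =>
        obtain ⟨_, _, hE⟩ := hE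
        rcases hE with rfl | ⟨r, hr, i, hi, j, hj, hs, ht, h1, h2, h3, h4⟩ |
          ⟨r, hr, i, hi, j, hj, hs, ht, h1, h2⟩
        · exact ih
        · rcases ih with ⟨A, i', j', hi', hj', hs', hR⟩ | ⟨hs', _⟩
          · obtain ⟨rfl, rfl, rfl⟩ := conf_inj G hi' hj' hi hj (hs'.symm.trans hs)
            left
            refine ⟨_, _, _, h1, h2, ht, ?_⟩
            obtain ⟨l, a1, a2, a3, a4, a5⟩ := hR
            obtain ⟨A', u, B', v⟩ := r
            simp only at h3 h4 ⊢
            refine ⟨l ++ [(A', u, B', v.reverse)], path_append.2 ⟨A', a1, path_single.2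
              ⟨rfl, ?_, rfl⟩⟩, ?_, ?_, ?_, ?_⟩
            · rw [mem_rls, List.reverse_reverse]; exact hr
            · rw [w1_append, w1_single]
              exact fac_append.2 ⟨a2, by rw [a3]; exact h3⟩
            · rw [w1_append, w1_single, List.length_append]
              simp only
              omega
            · rw [w2_append, w2_single]
              exact fac_append.2 ⟨a4, by rw [a5]; exact h4⟩
            · rw [w2_append, w2_single, List.length_append, List.length_reverse]
              omega
          · have := conf_lt G (A := r.1) hi hj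
            omega
        · rcases ih with ⟨A, i', j', hi', hj', hs', hR⟩ | ⟨hs', _⟩
          · obtain ⟨rfl, rfl, rfl⟩ := conf_inj G hi' hj' hi hj (hs'.symm.trans hs)
            exact Or.inr ⟨ht, language_iff.2 ⟨r, hr, i', hi', j', hj', hR, h1, h2⟩⟩
          · have := conf_lt G (A := r.1) hi hj
            omega
    rcases key _ h with ⟨A, i, j, hi, hj, h1, _⟩ | ⟨_, h1⟩
    · have := conf_lt G (A := A) hi hj
      omega
    · exact h1

theorem edg_lt {w : List α} {s t : ℕ} (h : Edg G w s t) :
    s < top G w.length + 1 ∧ t < top G w.length + 1 := ⟨h.1, h.2.1⟩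

theorem edg_refl {w : List α} {s : ℕ} (h : s < top G w.length + 1) : Edg G w s s :=
  ⟨h, h, Or.inl rfl⟩

variable (G)

theorem ls_top {X : Type} [Ctx X] : LS (fun (w : List α) (_ : X) => top G w.length) :=
  ((LS.const _).fmul (LS.len.fadd (LS.const 1))).fmul (LS.len.fadd (LS.const 1))

theorem ls_conf {X : Type} [Ctx X] (A : G.NT) {i j : List α → X → ℕ} (hi : LS i) (hj : LS j) :
    LS (fun (w : List α) x => conf G w.length A (i w x) (j w x)) :=
  ((((LS.const _).fmul (LS.len.fadd (LS.const 1))).fadd hi).fmul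
    (LS.len.fadd (LS.const 1))).fadd hj

theorem lr_edg : LR (fun w (z : ℕ × ℕ) => Edg G w z.1 z.2) := by
  have hN : ∀ {X : Type} [Ctx X], LS (fun (w : List α) (_ : X) => w.length + 1) :=
    LS.len.fadd (LS.const 1)
  refine LR.and (LS.lt LS.fst' ((ls_top G).fadd (LS.const 1))) (LR.and
    (LS.lt LS.snd' ((ls_top G).fadd (LS.const 1))) (LR.or (LS.eq LS.fst' LS.snd') (LR.or
    (LR.exSet G.inner_fin fun r _ => ?_) (LR.exSet G.last_fin fun r _ => ?_))))
  · refine LR.ex (R := fun w (z : (ℕ × ℕ) × ℕ) => ∃ j < w.length + 1,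
      z.1.1 = conf G w.length r.1 z.2 j ∧
      z.1.2 = conf G w.length r.2.2.1 (z.2 + r.2.1.length) (j + r.2.2.2.length) ∧
      z.2 + r.2.1.length < w.length + 1 ∧ j + r.2.2.2.length < w.length + 1 ∧
      Fac w z.2 r.2.1 ∧ Fac w.reverse j r.2.2.2.reverse) ?_ hN
    refine LR.ex (R := fun w (z : ((ℕ × ℕ) × ℕ) × ℕ) =>
      z.1.1.1 = conf G w.length r.1 z.1.2 z.2 ∧
      z.1.1.2 = conf G w.length r.2.2.1 (z.1.2 + r.2.1.length) (z.2 + r.2.2.2.length) ∧
      z.1.2 + r.2.1.length < w.length + 1 ∧ z.2 + r.2.2.2.length < w.length + 1 ∧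
      Fac w z.1.2 r.2.1 ∧ Fac w.reverse z.2 r.2.2.2.reverse) ?_ hN
    have hi : LS (fun (_ : List α) (z : ((ℕ × ℕ) × ℕ) × ℕ) => z.1.2) := LS.fst'.snd
    have hj : LS (fun (_ : List α) (z : ((ℕ × ℕ) × ℕ) × ℕ) => z.2) := LS.snd'
    exact (LS.eq LS.fst'.fst.fst (ls_conf G _ hi hj)).and ((LS.eq LS.fst'.fst.snd
      (ls_conf G _ (hi.fadd (LS.const _)) (hj.fadd (LS.const _)))).and
      ((LS.lt (hi.fadd (LS.const _)) hN).and ((LS.lt (hj.fadd (LS.const _)) hN).and
      ((LW.id.fac _ hi).and (LW.reverse.fac _ hj)))))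
  · refine LR.ex (R := fun w (z : (ℕ × ℕ) × ℕ) => ∃ j < w.length + 1,
      z.1.1 = conf G w.length r.1 z.2 j ∧ z.1.2 = top G w.length ∧ Fac w z.2 r.2 ∧
      z.2 + r.2.length + j = w.length) ?_ hN
    refine LR.ex (R := fun w (z : ((ℕ × ℕ) × ℕ) × ℕ) =>
      z.1.1.1 = conf G w.length r.1 z.1.2 z.2 ∧ z.1.1.2 = top G w.length ∧ Fac w z.1.2 r.2 ∧
      z.1.2 + r.2.length + z.2 = w.length) ?_ hN
    have hi : LS (fun (_ : List α) (z : ((ℕ × ℕ) × ℕ) × ℕ) => z.1.2) := LS.fst'.snd
    have hj : LS (fun (_ : List α) (z : ((ℕ × ℕ) × ℕ) × ℕ) => z.2) := LS.snd'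
    exact (LS.eq LS.fst'.fst.fst (ls_conf G _ hi hj)).and ((LS.eq LS.fst'.fst.snd
      (ls_top G)).and ((LW.id.fac _ hi).and (LS.eq ((hi.fadd (LS.const _)).fadd hj) LS.len)))

end

/-! ### The words -/

section

variable (G : LinGrammar α)

open Classical in
/-- the list of the edges -/
noncomputable def eds (w : List α) : List (ℕ × ℕ) :=
  (List.range (top G w.length + 1)).flatMap fun s =>
    (List.range (top G w.length + 1)).flatMap fun t => if Edg G w s t then [(s, t)] else []

variable {G}

theorem mem_eds {w : List α} {s t : ℕ} : (s, t) ∈ eds G w ↔ Edg G w s t := by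
  classical
  unfold eds
  constructor
  · intro h
    obtain ⟨s', _, h⟩ := List.mem_flatMap.1 h
    obtain ⟨t', _, h⟩ := List.mem_flatMap.1 h
    split_ifs at h with h1
    · rw [List.mem_singleton, Prod.mk.injEq] at h
      rw [h.1, h.2]
      exact h1
    · exact absurd h (by simp)
  · intro h
    refine List.mem_flatMap.2 ⟨s, List.mem_range.2 (edg_lt h).1, List.mem_flatMap.2
      ⟨t, List.mem_range.2 (edg_lt h).2, ?_⟩⟩
    rw [if_pos h]
    exact List.mem_singleton_self _

variable (G)

/-- the word on the left -/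
noncomputable def lw (w : List α) : List Bool :=
  xw (top G w.length + 1) (top G w.length + 1 - 1 - conf G w.length G.start 0 0) (top G w.length)
    (top G w.length + 1)

/-- the word on the right -/
noncomputable def rw' (w : List α) : List Bool :=
  List.replicate 5 false ++ yw (gaps (top G w.length + 1)
    ((List.range (top G w.length + 1)).flatMap fun _ => eds G w))

variable {G}

/-- **The reduction.** -/
theorem language_iff_m {w : List α} : w ∈ G.language ↔ M (lw G w) (rw' G w) := by
  rw [language_iff_reach]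
  have h0 := conf_lt G (n := w.length) (A := G.start) (i := 0) (j := 0) (by omega) (by omega)
  rw [reach_iff (E := Edg G w) (V := top G w.length + 1) (fun s t h => edg_lt h)
    (fun s hs => edg_refl hs) (by omega)]
  unfold lw rw'
  rw [m_iff_pth (E := Edg G w) (V := top G w.length + 1) (fun s t => ?_) (fun e he => ?_)
    (by omega)]
  · rw [mem_eds]
    exact ⟨fun h => ⟨h.1, h.2.1, h⟩, fun h => h.2.2⟩
  · exact edg_lt (mem_eds.1 he)

theorem gw_append (l l' : List ℕ) : gw (l ++ l') = gw l ++ gw l' := by simp [gw]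

theorem gw_three (m : ℕ) : gw (List.replicate m 3) =
    (List.range m).flatMap fun _ => [true, false, false, false] := by
  induction m with
  | zero => rfl
  | succ m ih =>
    rw [flatMap_const_succ, ← ih, List.replicate_succ]
    rfl

theorem gw_blk (a b : ℕ) : gw (blk a b) =
    ((List.range a).flatMap fun _ => [true, false, false, false]) ++ ([true, false] ++
      (((List.range b).flatMap fun _ => [true, false, false, false]) ++
        [true, false, false, false, false, false, false, false, false])) := by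
  unfold blk
  rw [gw_append, gw_three]
  congr 1
  show gw ([1] ++ (List.replicate b 3 ++ [8])) = _
  rw [gw_append, gw_append, gw_three]
  rfl

theorem gw_gaps (V : ℕ) (bs : List (ℕ × ℕ)) :
    gw (gaps V bs) = bs.flatMap fun e => gw (blk (V - 1 - e.1) e.2) := by
  unfold gw gaps
  rw [List.flatMap_assoc]

theorem lv_threes {X : Type} [Ctx X] {m : List α → X → ℕ} (hm : LS m) :
    LV (fun w x => (List.range (m w x)).flatMap fun _ => [true, false, false, false]) :=
  (LV.const [true, false, false, false]).flatRange hm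

theorem lv_blk {X : Type} [Ctx X] {a b : List α → X → ℕ} (ha : LS a) (hb : LS b) :
    LV (fun w x => gw (blk (a w x) (b w x))) :=
  ((lv_threes ha).append ((LV.const _).append ((lv_threes hb).append (LV.const _)))).congr
    fun _ _ => (gw_blk _ _).symm

theorem lv_lw : LV (fun (w : List α) (_ : Unit) => lw G w) := by
  have hV : ∀ {X : Type} [Ctx X], LS (fun (w : List α) (_ : X) => top G w.length + 1) :=
    (ls_top G).fadd (LS.const 1)
  refine LV.append (LV.replicate ?_ false) ((LV.single true).append (LV.append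
    (LV.flatRange (Ω := fun (w : List α) (_ : Unit × ℕ) =>
      List.replicate (top G w.length + 1) false ++ [true]) ?_ (ls_top G))
    (LV.replicate hV false)))
  · exact (hV.fsub (LS.const 1)).fsub (ls_conf G _ (LS.const 0) (LS.const 0))
  · exact (LV.replicate hV false).append (LV.single true)

theorem lv_rw : LV (fun (w : List α) (_ : Unit) => rw' G w) := by
  classical
  have hV : ∀ {X : Type} [Ctx X], LS (fun (w : List α) (_ : X) => top G w.length + 1) :=
    (ls_top G).fadd (LS.const 1)
  have h1 : LV (fun (w : List α) (z : ((Unit × ℕ) × ℕ) × ℕ) => if Edg G w z.1.2 z.2 then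
      gw (blk (top G w.length + 1 - 1 - z.1.2) z.2) else []) := by
    refine LV.ite (R := fun w (z : ((Unit × ℕ) × ℕ) × ℕ) => Edg G w z.1.2 z.2) ?_
      (lv_blk ?_ LS.snd') LV.nil
    · exact (lr_edg G).comp (f := fun _ (z : ((Unit × ℕ) × ℕ) × ℕ) => (z.1.2, z.2))
        (LS.fst'.snd.pair LS.snd')
    · exact (hV.fsub (LS.const 1)).fsub LS.fst'.snd
  have h2 := ((h1.flatRange hV).flatRange hV).flatRange (X := Unit) hV
  refine ((LV.const (List.replicate 5 false)).append (h2.append (LV.single true))).congr
    fun w x => ?_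
  unfold rw' yw
  congr 2
  rw [gw_gaps, List.flatMap_assoc]
  refine List.flatMap_congr fun k _ => ?_
  unfold eds
  rw [List.flatMap_assoc]
  refine List.flatMap_congr fun s _ => ?_
  rw [List.flatMap_assoc]
  refine List.flatMap_congr fun t _ => ?_
  by_cases h : Edg G w s t
  · simp [h]
  · simp [h]

end

end Pool.Agent.HM13.LS
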