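import Pool.Agent.HM13.LS.Ops

/-!
# Runs of prescribed weight

The number of runs of a given weight is found modulo small primes (D. Kane's method).
-/

set_option autoImplicit false

namespace Pool.Agent.HM13.LS

open Finset Polynomial

/-- **A prime which does not divide `c`.** -/
theorem exists_prime_not_dvd {c H D : ℕ} (hc : 0 < c) (hcH : c ≤ 2 ^ H) :
    ∃ p, p.Prime ∧ D < p ∧ p ≤ 4 * (H + D + 2) ^ 2 ∧ ¬ p ∣ c := by
  by_contra hcon
  push Not at hcon
  set N := 4 * (H + D + 2) ^ 2 with hN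
  set A := (Nat.primesLE N).filter (fun p => D < p) with hA
  have hA1 : ∀ p ∈ A, p.Prime ∧ D < p ∧ p ∣ c := by
    intro p hp
    obtain ⟨h1, h2⟩ := mem_filter.1 hp
    have h3 := Nat.prime_of_mem_primesLE h1
    exact ⟨h3, h2, hcon p h3 h2 (Nat.le_of_mem_primesLE h1)⟩
  have hA2 : A.card ≤ H := by
    have h1 : ∏ p ∈ A, p ∣ c := Finset.prod_primes_dvd c
      (fun p hp => (hA1 p hp).1.prime) (fun p hp => (hA1 p hp).2.2)
    have h2 : 2 ^ A.card ≤ ∏ p ∈ A, p := by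
      rw [← Finset.prod_const]
      exact Finset.prod_le_prod' fun p hp => (hA1 p hp).1.two_le
    have h3 := (h2.trans (Nat.le_of_dvd hc h1)).trans hcH
    exact (Nat.pow_le_pow_iff_right (by norm_num)).1 h3
  have hB : (Nat.primesLE N).card ≤ H + D := by
    have h1 : Nat.primesLE N ⊆ A ∪ Finset.Icc 1 D := by
      intro p hp
      rw [mem_union]
      by_cases h : D < p
      · exact Or.inl (mem_filter.2 ⟨hp, h⟩)
      · exact Or.inr (mem_Icc.2 ⟨(Nat.prime_of_mem_primesLE hp).one_le, by omega⟩)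
    refine (card_le_card h1).trans ((card_union_le _ _).trans ?_)
    rw [Nat.card_Icc]
    omega
  have h1 : Nat.lcmUpto N ≤ N ^ (H + D) := by
    rw [Nat.lcmUpto_eq_prod_pow_log]
    refine (Finset.prod_le_pow_card _ _ N fun p _ => ?_).trans
      (Nat.pow_le_pow_right (by positivity) hB)
    exact Nat.pow_log_le_self p (by positivity)
  set M := H + D with hM
  have h2 : 2 ^ N ≤ (N + 1) ^ (M + 1) := by
    refine (Chebyshev.two_pow_le_mul_lcmUpto N).trans ?_
    rw [pow_succ, mul_comm ((N + 1) ^ M)]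
    exact Nat.mul_le_mul_left _ (h1.trans (Nat.pow_le_pow_left (by omega) _))
  have h3 : N + 1 ≤ 2 ^ (2 * (M + 3)) := by
    have h4 : M + 2 < 2 ^ (M + 2) := Nat.lt_two_pow_self
    have h5 : 2 * (M + 3) ≤ 2 ^ (M + 3) := by
      rw [pow_succ 2 (M + 2)]
      omega
    calc N + 1 ≤ (2 * (M + 3)) ^ 2 := by rw [hN]; nlinarith
      _ ≤ (2 ^ (M + 3)) ^ 2 := Nat.pow_le_pow_left h5 2
      _ = 2 ^ (2 * (M + 3)) := by rw [← pow_mul, mul_comm]
  have h4 : 2 ^ N ≤ 2 ^ (2 * (M + 3) * (M + 1)) := by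
    refine h2.trans ?_
    rw [pow_mul]
    exact Nat.pow_le_pow_left h3 _
  have h5 : N ≤ 2 * (M + 3) * (M + 1) := (Nat.pow_le_pow_iff_right (by norm_num)).1 h4
  rw [hN] at h5
  nlinarith

section

variable {p : ℕ} [hp : Fact (p + 1).Prime]

theorem sum_range_zmod (f : ZMod (p + 1) → ZMod (p + 1)) :
    ∑ t ∈ range (p + 1), f t = ∑ x : ZMod (p + 1), f x := by
  rw [← Fin.sum_univ_eq_sum_range (fun t => f (t : ZMod (p + 1)))]
  refine Finset.sum_congr rfl fun x _ => congrArg f ?_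
  exact ZMod.natCast_zmod_val (n := p + 1) x

theorem sum_pow_range {e : ℕ} (he : 0 < e) (he' : e < 2 * p) :
    ∑ t ∈ range (p + 1), (t : ZMod (p + 1)) ^ e = if e = p then -1 else 0 := by
  rw [sum_range_zmod (fun x => x ^ e)]
  have hlt : ∀ i, i < p → ∑ x : ZMod (p + 1), x ^ i = 0 := fun i hi =>
    FiniteField.sum_pow_lt_card_sub_one _ i (by rw [ZMod.card]; simpa using hi)
  rcases lt_trichotomy e p with h | h | h
  · rw [if_neg h.ne, hlt e h]
  · subst h
    rw [if_pos rfl]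
    have h1 : ∀ x : ZMod (e + 1), x ^ e = 1 - if x = 0 then 1 else 0 := by
      intro x
      split_ifs with hx
      · rw [hx, zero_pow he.ne', sub_self]
      · have := ZMod.pow_card_sub_one_eq_one hx
        simpa using this
    simp only [h1, Finset.sum_sub_distrib, Finset.sum_ite_eq', Finset.mem_univ, if_true]
    rw [Finset.sum_const, Finset.card_univ, ZMod.card, nsmul_eq_mul, mul_one]
    have : ((e + 1 : ℕ) : ZMod (e + 1)) = 0 := ZMod.natCast_self (e + 1)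
    rw [this, zero_sub]
  · rw [if_neg h.ne']
    rw [← hlt (e - p) (by omega)]
    refine Finset.sum_congr rfl fun x _ => ?_
    by_cases hx : x = 0
    · rw [hx, zero_pow he.ne', zero_pow (by omega)]
    · have h1 := ZMod.pow_card_sub_one_eq_one hx
      have h2 : x ^ p = 1 := by simpa using h1
      have h3 : e = p + (e - p) := by omega
      conv_lhs => rw [h3, pow_add, h2, one_mul]

/-- **Extraction of a coefficient.** -/
theorem sum_eval (F : (ZMod (p + 1))[X]) {ℓ : ℕ} (hF : F.natDegree < p) (hℓ : ℓ < p) :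
    ∑ t ∈ range (p + 1), (t : ZMod (p + 1)) ^ (p - ℓ) * F.eval (t : ZMod (p + 1)) =
      - F.coeff ℓ := by
  have h1 : ∀ t : ZMod (p + 1), t ^ (p - ℓ) * F.eval t =
      ∑ i ∈ range p, F.coeff i * t ^ (p - ℓ + i) := by
    intro t
    rw [Polynomial.eval_eq_sum_range' hF, Finset.mul_sum]
    refine Finset.sum_congr rfl fun i _ => ?_
    rw [pow_add]
    ring
  simp only [h1]
  rw [Finset.sum_comm]
  have h2 : ∀ i ∈ range p, ∑ t ∈ range (p + 1), F.coeff i * (t : ZMod (p + 1)) ^ (p - ℓ + i) =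
      if i = ℓ then - F.coeff ℓ else 0 := by
    intro i hi
    rw [mem_range] at hi
    rw [← Finset.mul_sum, sum_pow_range (by omega) (by omega)]
    by_cases h : i = ℓ
    · subst h
      rw [if_pos rfl, if_pos (by omega), mul_neg, mul_one]
    · rw [if_neg h, if_neg (by omega), mul_zero]
  rw [Finset.sum_congr rfl h2, Finset.sum_ite_eq', if_pos (mem_range.2 hℓ)]

end

section

variable {Q Θ : Type} [Fintype Q] [Fintype Θ] (src dst : Θ → Q) (m : Θ → ℕ)
  (av : Θ → ℕ → Prop) (q₀ : Q)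

/-- there is a run with `s` moves and weight `ℓ` from `q₀` -/
def Run : ℕ → Q → ℕ → Prop
  | 0, q, ℓ => q₀ = q ∧ ℓ = 0
  | s + 1, q, ℓ => ∃ θ, av θ s ∧ dst θ = q ∧ m θ ≤ ℓ ∧ Run s (src θ) (ℓ - m θ)

open Classical in
/-- the generating function -/
noncomputable def gen : ℕ → Q → ℕ[X]
  | 0, q => if q₀ = q then 1 else 0
  | s + 1, q => ∑ θ, if av θ s ∧ dst θ = q then X ^ m θ * gen s (src θ) else 0

open Classical in
theorem coeff_gen_succ (s : ℕ) (q : Q) (ℓ : ℕ) : (gen src dst m av q₀ (s + 1) q).coeff ℓ =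
    ∑ θ, if av θ s ∧ dst θ = q ∧ m θ ≤ ℓ then (gen src dst m av q₀ s (src θ)).coeff (ℓ - m θ)
      else 0 := by
  rw [gen, Polynomial.finsetSum_coeff]
  refine Finset.sum_congr rfl fun θ _ => ?_
  by_cases h : av θ s ∧ dst θ = q
  · rw [if_pos h, Polynomial.coeff_X_pow_mul']
    by_cases h' : m θ ≤ ℓ
    · rw [if_pos h', if_pos ⟨h.1, h.2, h'⟩]
    · rw [if_neg h', if_neg fun h'' => h' h''.2.2]
  · rw [if_neg h, if_neg fun h'' => h ⟨h''.1, h''.2.1⟩, Polynomial.coeff_zero]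

theorem coeff_gen_ne_zero : ∀ (s : ℕ) (q : Q) (ℓ : ℕ),
    (gen src dst m av q₀ s q).coeff ℓ ≠ 0 ↔ Run src dst m av q₀ s q ℓ
  | 0, q, ℓ => by
    rw [gen, Run]
    by_cases h : q₀ = q
    · rw [if_pos h, Polynomial.coeff_one]
      by_cases h' : ℓ = 0
      · simp [h, h']
      · simp [h']
    · rw [if_neg h]
      simp [h]
  | s + 1, q, ℓ => by
    rw [coeff_gen_succ, Run, ne_eq, Finset.sum_eq_zero_iff]
    constructor
    · intro h
      push Not at h
      obtain ⟨θ, _, h1⟩ := h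
      by_cases h2 : av θ s ∧ dst θ = q ∧ m θ ≤ ℓ
      · rw [if_pos h2] at h1
        exact ⟨θ, h2.1, h2.2.1, h2.2.2, (coeff_gen_ne_zero s _ _).1 h1⟩
      · rw [if_neg h2] at h1
        exact absurd rfl h1
    · rintro ⟨θ, h1, h2, h3, h4⟩ h5
      have h6 := h5 θ (mem_univ _)
      rw [if_pos ⟨h1, h2, h3⟩] at h6
      exact (coeff_gen_ne_zero s _ _).2 h4 h6

theorem coeff_gen_le : ∀ (s : ℕ) (q : Q) (ℓ : ℕ),
    (gen src dst m av q₀ s q).coeff ℓ ≤ Fintype.card Θ ^ s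
  | 0, q, ℓ => by
    rw [gen]
    split_ifs
    · rw [Polynomial.coeff_one]
      split_ifs <;> simp
    · simp
  | s + 1, q, ℓ => by
    rw [coeff_gen_succ]
    refine (Finset.sum_le_card_nsmul _ _ (Fintype.card Θ ^ s) fun θ _ => ?_).trans ?_
    · split_ifs
      · exact coeff_gen_le s _ _
      · exact Nat.zero_le _
    · rw [card_univ, smul_eq_mul, pow_succ, mul_comm]

theorem natDegree_gen {M : ℕ} (hM : ∀ θ, m θ ≤ M) : ∀ (s : ℕ) (q : Q),
    (gen src dst m av q₀ s q).natDegree ≤ M * s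
  | 0, q => by
    rw [gen]
    split_ifs <;> simp
  | s + 1, q => by
    rw [gen]
    refine Polynomial.natDegree_sum_le_of_forall_le _ _ fun θ _ => ?_
    split_ifs
    · refine (Polynomial.natDegree_mul_le).trans ?_
      have h1 := natDegree_gen hM s (src θ)
      have h2 := hM θ
      have h3 : (X ^ m θ : ℕ[X]).natDegree ≤ m θ := Polynomial.natDegree_X_pow_le _
      calc _ ≤ m θ + M * s := Nat.add_le_add h3 h1
        _ ≤ M * (s + 1) := by nlinarith
    · simp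

theorem Run.le {M : ℕ} (hM : ∀ θ, m θ ≤ M) {s : ℕ} {q : Q} {ℓ : ℕ}
    (h : Run src dst m av q₀ s q ℓ) : ℓ ≤ M * s := by
  have h1 := (coeff_gen_ne_zero src dst m av q₀ s q ℓ).2 h
  exact (Polynomial.le_natDegree_of_ne_zero h1).trans (natDegree_gen src dst m av q₀ hM s q)

end

section

variable {α X : Type} [Ctx X] {Q Θ : Type} [Fintype Q] [Fintype Θ] (src dst : Θ → Q) (m : Θ → ℕ)
  (av : Θ → List α → X × ℕ → Prop) (q₀ : Q)

open Classical in
/-- the evaluation of the generating function modulo `p + 1` at `a` -/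
noncomputable def step (w : List α) (z : ((X × (ℕ × ℕ)) × ℕ) × (Q → ℕ)) : Q → ℕ := fun q =>
  (∑ θ, if av θ w (z.1.1.1, z.1.2) ∧ dst θ = q then z.1.1.2.2 ^ m θ * z.2 (src θ) else 0) %
    (z.1.1.2.1 + 1)

open Classical in
/-- the start -/
noncomputable def ini (_ : List α) (_ : X × (ℕ × ℕ)) : Q → ℕ := fun q => if q₀ = q then 1 else 0

theorem ls_step (hav : ∀ θ, LR (av θ)) : LS (step src dst m av) := by
  classical
  refine LS.pi fun q => LS.fmod (LS.fsum _ fun θ => ?_) (LS.fst'.fst.snd.fst.fadd (LS.const 1))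
  refine LS.ite (R := fun w (z : ((X × (ℕ × ℕ)) × ℕ) × (Q → ℕ)) =>
    av θ w (z.1.1.1, z.1.2) ∧ dst θ = q) ?_ ((LS.fst'.fst.snd.snd.fpow _).fmul (LS.snd'.app _))
    (LS.const 0)
  exact ((hav θ).comp (LS.fst'.fst.fst.pair LS.fst'.snd)).and (LR.const _)

theorem ls_ini : LS (ini (α := α) (X := X) q₀) := by
  classical
  exact LS.pi fun q => LS.const _

theorem itr_step_le (w : List α) (x : X) (p a s : ℕ) (q : Q) :
    itr (ini q₀) (step src dst m av) w (x, (p, a)) s q ≤ p + 1 := by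
  cases s with
  | zero =>
    classical
    show (if q₀ = q then 1 else 0) ≤ p + 1
    split_ifs <;> omega
  | succ s => exact (Nat.mod_lt _ (Nat.succ_pos _)).le

theorem ls_itr (hav : ∀ θ, LR (av θ)) :
    LS (fun w (z : (X × (ℕ × ℕ)) × ℕ) => itr (ini q₀) (step src dst m av) w z.1 z.2) := by
  refine LS.iter (ls_ini q₀) (ls_step src dst m av hav) fun d => ⟨d + 1, fun w x t hx _ => ?_⟩
  obtain ⟨x, p, a⟩ := x
  intro q
  refine (itr_step_le src dst m av q₀ w x p a t q).trans ?_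
  have h1 : p ≤ (w.length + 2) ^ d := bd_nat.1 (bd_prod.1 (bd_prod.1 hx).2).1
  have h2 : 1 ≤ (w.length + 2) ^ d := Nat.one_le_pow _ _ (by omega)
  rw [pow_succ]
  nlinarith

theorem itr_eq (w : List α) (x : X) (p a : ℕ) : ∀ (s : ℕ) (q : Q),
    ((itr (ini q₀) (step src dst m av) w (x, (p, a)) s q : ℕ) : ZMod (p + 1)) =
      ((gen src dst m (fun θ s => av θ w (x, s)) q₀ s q).map
        (Nat.castRingHom (ZMod (p + 1)))).eval (a : ZMod (p + 1))
  | 0, q => by
    classical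
    show (((if q₀ = q then 1 else 0 : ℕ)) : ZMod (p + 1)) = _
    rw [gen]
    split_ifs <;> simp
  | s + 1, q => by
    classical
    show (((∑ θ, if av θ w (x, s) ∧ dst θ = q then
      a ^ m θ * itr (ini q₀) (step src dst m av) w (x, (p, a)) s (src θ) else 0) % (p + 1) : ℕ) :
        ZMod (p + 1)) = _
    rw [ZMod.natCast_mod, gen, Nat.cast_sum, Polynomial.map_sum, Polynomial.eval_finsetSum]
    refine Finset.sum_congr rfl fun θ _ => ?_
    by_cases h : av θ w (x, s) ∧ dst θ = q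
    · rw [if_pos h, if_pos h, Nat.cast_mul, Nat.cast_pow, itr_eq w x p a s (src θ)]
      simp
    · rw [if_neg h, if_neg h]
      simp

/-- **Kane's method.** -/
theorem lr_run (hav : ∀ θ, LR (av θ)) (q : Q) :
    LR (fun w (z : (X × ℕ) × ℕ) =>
      Run src dst m (fun θ s => av θ w (z.1.1, s)) q₀ z.1.2 q z.2) := by
  classical
  -- a bound for the weights
  obtain ⟨M, hM⟩ : ∃ M, ∀ θ, m θ ≤ M := ⟨univ.sup m, fun θ => Finset.le_sup (mem_univ θ)⟩
  set C := Fintype.card Θ with hC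
  -- the sum for the prime `p + 1`
  set D : List α → ((X × ℕ) × ℕ) × ℕ → ℕ := fun w z =>
    (∑ t ∈ range (z.2 + 1), (t ^ (z.2 - z.1.2) % (z.2 + 1)) *
      itr (ini q₀) (step src dst m av) w (z.1.1.1, (z.2, t)) z.1.1.2 q) % (z.2 + 1) with hD
  have hDls : LS D := by
    refine LS.fmod (LS.sum (f := fun w (y : (((X × ℕ) × ℕ) × ℕ) × ℕ) =>
      (y.2 ^ (y.1.2 - y.1.1.2) % (y.1.2 + 1)) *
      itr (ini q₀) (step src dst m av) w (y.1.1.1.1, (y.1.2, y.2)) y.1.1.1.2 q)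
      (m := fun _ z => z.2 + 1) ?_ (LS.snd'.fadd (LS.const 1))) (LS.snd'.fadd (LS.const 1))
    refine LS.fmul ?_ ?_
    · exact LS.powMod.comp (f := fun _ (y : (((X × ℕ) × ℕ) × ℕ) × ℕ) =>
        ((y.2, y.1.2), y.1.2 - y.1.1.2))
        ((LS.snd'.pair LS.fst'.snd).pair (LS.fst'.snd.fsub LS.fst'.fst.snd))
    · exact ((ls_itr src dst m av q₀ hav).comp
        (f := fun _ (y : (((X × ℕ) × ℕ) × ℕ) × ℕ) => ((y.1.1.1.1, (y.1.2, y.2)), y.1.1.1.2))
        ((LS.fst'.fst.fst.fst.pair (LS.fst'.snd.pair LS.snd')).pair LS.fst'.fst.fst.snd)).app q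
  have key : LR (fun w (z : (X × ℕ) × ℕ) => z.2 ≤ M * z.1.2 ∧
      ∃ p < 4 * (C * z.1.2 + (M * z.1.2 + 1) + 2) ^ 2,
        (p + 1).Prime ∧ M * z.1.2 < p ∧ ¬ D w (z, p) = 0) := by
    have e1 : LS (fun (_ : List α) (z : (X × ℕ) × ℕ) => M * z.1.2) := (LS.const M).fmul LS.fst'.snd
    refine (LS.le LS.snd' e1).and (LR.ex (R := fun w (y : ((X × ℕ) × ℕ) × ℕ) =>
      (y.2 + 1).Prime ∧ M * y.1.1.2 < y.2 ∧ ¬ D w y = 0) ?_ ?_)
    · refine (LR.prime.comp (LS.snd'.fadd (LS.const 1))).and ((LS.lt ?_ LS.snd').and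
        (LS.eq_zero hDls).not)
      exact (LS.const M).fmul LS.fst'.fst.snd
    · exact (LS.const 4).fmul (LS.fpow ((((LS.const C).fmul LS.fst'.snd).fadd
        (e1.fadd (LS.const 1))).fadd (LS.const 2)) 2)
  refine key.congr fun w z => ?_
  obtain ⟨⟨x, s⟩, ℓ⟩ := z
  simp only
  set g := gen src dst m (fun θ s => av θ w (x, s)) q₀ s q with hg
  have hdeg : g.natDegree ≤ M * s := natDegree_gen src dst m _ q₀ hM s q
  -- the value of the sum
  have hval : ∀ p, (p + 1).Prime → M * s < p → ℓ < p →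
      ((D w (((x, s), ℓ), p) : ℕ) : ZMod (p + 1)) = - ((g.coeff ℓ : ℕ) : ZMod (p + 1)) := by
    intro p hp h1 h2
    have : Fact (p + 1).Prime := ⟨hp⟩
    have h3 := sum_eval (g.map (Nat.castRingHom (ZMod (p + 1))))
      ((Polynomial.natDegree_map_le.trans hdeg).trans_lt h1) h2
    rw [Polynomial.coeff_map] at h3
    rw [show ((g.coeff ℓ : ℕ) : ZMod (p + 1)) = Nat.castRingHom (ZMod (p + 1)) (g.coeff ℓ) from rfl,
      ← h3, hD]
    simp only
    rw [ZMod.natCast_mod, Nat.cast_sum]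
    refine Finset.sum_congr rfl fun t _ => ?_
    rw [Nat.cast_mul, ZMod.natCast_mod, Nat.cast_pow, itr_eq src dst m av q₀ w x p t s q]
  have hDlt : ∀ p, D w (((x, s), ℓ), p) < p + 1 := fun p => Nat.mod_lt _ (Nat.succ_pos _)
  have hD0 : ∀ p, (p + 1).Prime → M * s < p → ℓ < p →
      (D w (((x, s), ℓ), p) = 0 ↔ (p + 1) ∣ g.coeff ℓ) := by
    intro p hp h1 h2
    have h3 := hval p hp h1 h2
    have h4 : D w (((x, s), ℓ), p) = 0 ↔ ((D w (((x, s), ℓ), p) : ℕ) : ZMod (p + 1)) = 0 := by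
      rw [ZMod.natCast_eq_zero_iff]
      exact ⟨fun h => h ▸ dvd_zero _, fun h => Nat.eq_zero_of_dvd_of_lt h (hDlt p)⟩
    rw [h4, h3, neg_eq_zero, ZMod.natCast_eq_zero_iff]
  constructor
  · rintro ⟨h1, p, _, h3, h4, h5⟩
    rw [← coeff_gen_ne_zero src dst m _ q₀ s q ℓ]
    intro h6
    apply h5
    rw [hD0 p h3 h4 (h1.trans_lt h4), h6]
    exact dvd_zero _
  · intro h
    have h1 : ℓ ≤ M * s := Run.le src dst m _ q₀ hM h
    have h2 := (coeff_gen_ne_zero src dst m _ q₀ s q ℓ).2 h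
    have h3 : g.coeff ℓ ≤ 2 ^ (C * s) := by
      refine (coeff_gen_le src dst m _ q₀ s q ℓ).trans ?_
      rw [pow_mul]
      exact Nat.pow_le_pow_left Nat.lt_two_pow_self.le _
    obtain ⟨P, h4, h5, h6, h7⟩ := exists_prime_not_dvd (D := M * s + 1)
      (Nat.pos_of_ne_zero h2) h3
    obtain ⟨p, rfl⟩ : ∃ p, P = p + 1 := ⟨P - 1, by have := h4.pos; omega⟩
    refine ⟨h1, p, by omega, h4, by omega, fun h8 => h7 ?_⟩
    exact (hD0 p h4 (by omega) (by omega)).1 h8

end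

end Pool.Agent.HM13.LS
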