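import Pool.Agent.HM13.LS.Basic

/-!
# Arithmetic and logic in logarithmic space
-/

set_option autoImplicit false

namespace Pool.Agent.HM13.LS

open Finset

variable {α : Type} {X Y Z : Type} [Ctx X] [Ctx Y] [Ctx Z]

theorem LS.fadd {f g : List α → X → ℕ} (hf : LS f) (hg : LS g) : LS (fun w x => f w x + g w x) :=
  LS.add'.comp (hf.pair hg)

theorem LS.fsub {f g : List α → X → ℕ} (hf : LS f) (hg : LS g) : LS (fun w x => f w x - g w x) :=
  LS.sub'.comp (hf.pair hg)

theorem LS.fmul {f g : List α → X → ℕ} (hf : LS f) (hg : LS g) : LS (fun w x => f w x * g w x) :=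
  LS.mul'.comp (hf.pair hg)

theorem LS.fdiv {f g : List α → X → ℕ} (hf : LS f) (hg : LS g) : LS (fun w x => f w x / g w x) :=
  LS.div'.comp (hf.pair hg)

theorem LS.fmod {f g : List α → X → ℕ} (hf : LS f) (hg : LS g) : LS (fun w x => f w x % g w x) :=
  (hf.fsub (hg.fmul (hf.fdiv hg))).congr fun w x => by
    have := Nat.div_add_mod (f w x) (g w x)
    omega

theorem LS.fpow {f : List α → X → ℕ} (hf : LS f) (c : ℕ) : LS (fun w x => f w x ^ c) := by
  induction c with
  | zero => exact (LS.const 1).congr fun w x => (pow_zero _).symm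
  | succ c ih => exact (ih.fmul hf).congr fun w x => (pow_succ _ _).symm

theorem LS.fsum {T : Type} (s : Finset T) {f : T → List α → X → ℕ} (hf : ∀ t, LS (f t)) :
    LS (fun w x => ∑ t ∈ s, f t w x) := by
  classical
  induction s using Finset.induction_on with
  | empty => exact (LS.const 0).congr fun w x => by simp
  | insert t s ht ih => exact ((hf t).fadd ih).congr fun w x => by rw [Finset.sum_insert ht]

open Classical in
/-- relations decided by loop programs -/
def LR (R : List α → X → Prop) : Prop := LS (fun w x => if R w x then (1 : ℕ) else 0)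

theorem LR.congr {R S : List α → X → Prop} (h : LR R) (hRS : ∀ w x, R w x ↔ S w x) : LR S :=
  have : R = S := funext fun w => funext fun x => propext (hRS w x)
  this ▸ h

theorem LR.comp {R : List α → Y → Prop} {f : List α → X → Y} (h : LR R) (hf : LS f) :
    LR (fun w x => R w (f w x)) := LS.comp h hf

theorem LS.eq_zero {f : List α → X → ℕ} (hf : LS f) : LR (fun w x => f w x = 0) :=
  LS.congr ((LS.const 1).fsub hf) fun w x => by split_ifs <;> omega

theorem LR.not {R : List α → X → Prop} (h : LR R) : LR (fun w x => ¬ R w x) :=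
  (LS.eq_zero h).congr fun w x => by split_ifs <;> simp_all

theorem LR.and {R S : List α → X → Prop} (h : LR R) (h' : LR S) :
    LR (fun w x => R w x ∧ S w x) :=
  LS.congr (LS.fmul h h') fun w x => by split_ifs <;> simp_all

theorem LR.or {R S : List α → X → Prop} (h : LR R) (h' : LR S) :
    LR (fun w x => R w x ∨ S w x) :=
  (h.not.and h'.not).not.congr fun w x => by tauto

theorem LR.imp {R S : List α → X → Prop} (h : LR R) (h' : LR S) :
    LR (fun w x => R w x → S w x) :=
  (h.not.or h').congr fun w x => by tauto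

theorem LR.const (p : Prop) : LR (fun (_ : List α) (_ : X) => p) := by
  by_cases hp : p
  · exact LS.congr (LS.const 1) fun w x => by simp [hp]
  · exact LS.congr (LS.const 0) fun w x => by simp [hp]

theorem LS.le {f g : List α → X → ℕ} (hf : LS f) (hg : LS g) : LR (fun w x => f w x ≤ g w x) :=
  (LS.eq_zero (hf.fsub hg)).congr fun w x => by omega

theorem LS.lt {f g : List α → X → ℕ} (hf : LS f) (hg : LS g) : LR (fun w x => f w x < g w x) :=
  (LS.le hg hf).not.congr fun w x => by omega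

theorem LS.eq {f g : List α → X → ℕ} (hf : LS f) (hg : LS g) : LR (fun w x => f w x = g w x) :=
  ((LS.le hf hg).and (LS.le hg hf)).congr fun w x => by omega

theorem LS.ite {R : List α → X → Prop} [∀ w x, Decidable (R w x)] {f g : List α → X → ℕ}
    (hR : LR R) (hf : LS f) (hg : LS g) :
    LS (fun w x => if R w x then f w x else g w x) :=
  LS.congr ((LS.fmul hR hf).fadd (((LS.const 1).fsub hR).fmul hg)) fun w x => by
    split_ifs <;> simp

theorem LR.exFin {T : Type} [Fintype T] {R : T → List α → X → Prop} (h : ∀ t, LR (R t)) :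
    LR (fun w x => ∃ t, R t w x) := by
  classical
  refine (LS.eq_zero (LS.fsum univ fun t => h t)).not.congr fun w x => ?_
  rw [Finset.sum_eq_zero_iff, not_forall]
  constructor
  · rintro ⟨t, ht⟩
    refine ⟨t, ?_⟩
    by_contra hc
    exact ht fun _ => if_neg hc
  · rintro ⟨t, ht⟩
    refine ⟨t, fun h1 => ?_⟩
    have h2 := h1 (mem_univ t)
    rw [if_pos ht] at h2
    exact one_ne_zero h2

theorem LR.allFin {T : Type} [Fintype T] {R : T → List α → X → Prop} (h : ∀ t, LR (R t)) :
    LR (fun w x => ∀ t, R t w x) :=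
  (LR.exFin fun t => (h t).not).not.congr fun w x => by simp

theorem LR.exSet {T : Type} {s : Set T} (hs : s.Finite) {R : T → List α → X → Prop}
    (h : ∀ t ∈ s, LR (R t)) : LR (fun w x => ∃ t ∈ s, R t w x) := by
  have := hs.fintype
  exact (LR.exFin (T := s) fun t => h t.1 t.2).congr fun w x => by simp

theorem LR.allSet {T : Type} {s : Set T} (hs : s.Finite) {R : T → List α → X → Prop}
    (h : ∀ t ∈ s, LR (R t)) : LR (fun w x => ∀ t ∈ s, R t w x) := by
  have := hs.fintype
  exact (LR.allFin (T := s) fun t => h t.1 t.2).congr fun w x => by simp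

/-- sums -/
theorem LS.sum {f : List α → X × ℕ → ℕ} {m : List α → X → ℕ} (hf : LS f) (hm : LS m) :
    LS (fun w x => ∑ t ∈ range (m w x), f w (x, t)) := by
  set g : List α → (X × ℕ) × ℕ → ℕ := fun w z => z.2 + f w z.1 with hg
  have h1 : LS g := LS.snd'.fadd (hf.comp LS.fst')
  have h2 : ∀ (w : List α) (x : X) (t : ℕ),
      itr (fun _ _ => 0) g w x t = ∑ t ∈ range t, f w (x, t) := by
    intro w x t
    induction t with
    | zero => rfl
    | succ t ih =>
      show itr (fun _ _ => 0) g w x t + f w (x, t) = _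
      rw [ih, sum_range_succ]
  have h3 : LS (fun w (z : X × ℕ) => itr (fun _ _ => 0) g w z.1 z.2) := by
    refine LS.iter (LS.const 0) h1 fun d => ?_
    obtain ⟨e, he, _⟩ := hf d
    refine ⟨d + e, fun w x t hx ht => bd_nat.2 ?_⟩
    rw [h2, pow_add]
    refine (sum_le_card_nsmul _ _ ((w.length + 2) ^ e) fun s hs => ?_).trans ?_
    · exact bd_nat.1 (he w (x, s) (bd_prod.2 ⟨hx, bd_nat.2
        ((mem_range.1 hs).le.trans ht)⟩))
    · rw [card_range, smul_eq_mul]
      exact Nat.mul_le_mul_right _ ht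
  exact (h3.comp (LS.id.pair hm)).congr fun w x => h2 w x (m w x)

theorem LR.ex {R : List α → X × ℕ → Prop} {m : List α → X → ℕ} (hR : LR R) (hm : LS m) :
    LR (fun w x => ∃ t < m w x, R w (x, t)) := by
  classical
  refine (LS.eq_zero (LS.sum hR hm)).not.congr fun w x => ?_
  rw [Finset.sum_eq_zero_iff, not_forall]
  constructor
  · rintro ⟨t, ht⟩
    by_contra hc
    refine ht fun h1 => if_neg fun h2 => hc ⟨t, mem_range.1 h1, h2⟩
  · rintro ⟨t, ht, h1⟩
    refine ⟨t, fun h2 => ?_⟩
    have h3 := h2 (mem_range.2 ht)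
    rw [if_pos h1] at h3
    exact one_ne_zero h3

theorem LR.all {R : List α → X × ℕ → Prop} {m : List α → X → ℕ} (hR : LR R) (hm : LS m) :
    LR (fun w x => ∀ t < m w x, R w (x, t)) :=
  (LR.ex hR.not hm).not.congr fun w x => by simp

/-- powers modulo `p + 1` -/
theorem LS.powMod : LS (fun (_ : List α) (x : (ℕ × ℕ) × ℕ) => x.1.1 ^ x.2 % (x.1.2 + 1)) := by
  set g : List α → ((ℕ × ℕ) × ℕ) × ℕ → ℕ := fun _ z => (z.2 * z.1.1.1) % (z.1.1.2 + 1) with hg
  have h1 : LS g := (LS.snd'.fmul LS.fst'.fst.fst).fmod (LS.fst'.fst.snd.fadd (LS.const 1))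
  have h2 : ∀ (w : List α) (x : ℕ × ℕ) (t : ℕ),
      itr (fun _ (x : ℕ × ℕ) => 1 % (x.2 + 1)) g w x t = x.1 ^ t % (x.2 + 1) := by
    intro w x t
    induction t with
    | zero =>
      show 1 % (x.2 + 1) = _
      rw [pow_zero]
    | succ t ih =>
      show (itr (fun _ (x : ℕ × ℕ) => 1 % (x.2 + 1)) g w x t * x.1) % (x.2 + 1) = _
      rw [ih, pow_succ, Nat.mod_mul_mod]
  have h3 : LS (fun w (z : (ℕ × ℕ) × ℕ) =>
      itr (fun _ (x : ℕ × ℕ) => 1 % (x.2 + 1)) g w z.1 z.2) := by
    have h0 : LS (fun (_ : List α) (x : ℕ × ℕ) => 1 % (x.2 + 1)) :=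
      (LS.const 1).fmod (LS.snd'.fadd (LS.const 1))
    refine LS.iter h0 h1 fun d => ⟨d, fun w x t hx ht => bd_nat.2 ?_⟩
    rw [h2]
    exact (Nat.lt_succ_iff.1 (Nat.mod_lt _ (Nat.succ_pos _))).trans (bd_nat.1 (bd_prod.1 hx).2)
  exact h3.congr fun w x => h2 w x.1 x.2

/-- primality -/
theorem LR.prime : LR (fun (_ : List α) (p : ℕ) => p.Prime) := by
  have h : LR (fun (_ : List α) (p : ℕ) => 2 ≤ p ∧ ∀ t < p, 2 ≤ t → ¬ p % t = 0) := by
    refine (LS.le (LS.const 2) LS.id).and (LR.all (R := fun _ (x : ℕ × ℕ) =>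
      2 ≤ x.2 → ¬ x.1 % x.2 = 0) ?_ LS.id)
    exact (LS.le (LS.const 2) LS.snd').imp (LS.eq_zero (LS.fst'.fmod LS.snd')).not
  refine h.congr fun _ p => ?_
  rw [Nat.prime_def_lt']
  simp only [Nat.dvd_iff_mod_eq_zero]
  constructor
  · rintro ⟨h1, h2⟩
    exact ⟨h1, fun m hm hm' => h2 m hm' hm⟩
  · rintro ⟨h1, h2⟩
    exact ⟨h1, fun m hm hm' => h2 m hm' hm⟩

/-- accepted languages -/
theorem LR.inL {K : Set (List α)} (h : LR (fun w (_ : Unit) => w ∈ K)) : InL K := by
  classical
  obtain ⟨e, _, h2⟩ := h 0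
  obtain ⟨P, hP⟩ := h2 1 Empty.elim (fun _ => 0) (fun i => i.elim) (fun _ => by omega)
    (fun _ _ _ => rfl)
  refine ⟨P, e, fun w => ?_⟩
  have h3 := (hP w e (fun _ => 0) () le_rfl (fun i => i.elim) (fun i => i.elim)).1 ()
  rw [h3]
  show w ∈ K ↔ (if w ∈ K then 1 else 0) = 1
  split_ifs <;> simp_all

end Pool.Agent.HM13.LS
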