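import Pool.Agent.HM13.LS.Trans

/-!
# Reachability in transducers
-/

set_option autoImplicit false

namespace Pool.Agent.HM13.LS

open Finset

variable {N β γ : Type} {T : Set (Rul N β γ)}

/-- there is a path with the words `U[i, i')` and `V[j, j')` -/
def Rch (T : Set (Rul N β γ)) (A B : N) (U : List β) (V : List γ) (i i' j j' : ℕ) : Prop :=
  ∃ l, Path T A l B ∧ Fac U i (w1 l) ∧ i + (w1 l).length = i' ∧ Fac V j (w2 l) ∧
    j + (w2 l).length = j'

/-- for cycles at `A` the word on the first tape determines the length of the word on the second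
tape -/
def Fct (T : Set (Rul N β γ)) (A : N) : Prop :=
  ∀ l l', Path T A l A → Path T A l' A → w1 l = w1 l' → (w2 l).length = (w2 l').length

/-- for cycles at `A` with the same word on the first tape, the words on the second tape have the
same length or commute -/
def Loc (T : Set (Rul N β γ)) (A : N) : Prop :=
  ∀ l l', Path T A l A → Path T A l' A → w1 l = w1 l' →
    (w2 l).length = (w2 l').length ∨ w2 l ++ w2 l' = w2 l' ++ w2 l

/-- the words of the cycles at `A` on the first tape commute -/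
def Comm (T : Set (Rul N β γ)) (A : N) : Prop :=
  ∀ l l', Path T A l A → Path T A l' A → w1 l ++ w1 l' = w1 l' ++ w1 l

/-- exchange of the tapes -/
def sw (r : Rul N β γ) : Rul N γ β := (r.1, r.2.2.2, r.2.2.1, r.2.1)

theorem sw_sw (r : Rul N β γ) : sw (sw r) = r := rfl

/-- exchange of the tapes -/
def swp (T : Set (Rul N β γ)) : Set (Rul N γ β) := {r | sw r ∈ T}

theorem w1_sw (l : List (Rul N β γ)) : w1 (l.map sw) = w2 l := by
  induction l with
  | nil => rfl
  | cons r l ih => rw [List.map_cons, w1_cons, w2_cons, ih]; rfl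

theorem w2_sw (l : List (Rul N β γ)) : w2 (l.map sw) = w1 l := by
  induction l with
  | nil => rfl
  | cons r l ih => rw [List.map_cons, w2_cons, w1_cons, ih]; rfl

theorem path_sw {A B : N} {l : List (Rul N β γ)} :
    Path (swp T) A (l.map sw) B ↔ Path T A l B := by
  induction l generalizing A with
  | nil => rw [List.map_nil, path_nil_iff, path_nil_iff]
  | cons r l ih =>
    rw [List.map_cons, path_cons_iff, path_cons_iff]
    show r.1 = A ∧ sw (sw r) ∈ T ∧ Path (swp T) r.2.2.1 (l.map sw) B ↔ _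
    rw [ih, sw_sw]

theorem map_sw_sw (l : List (Rul N β γ)) : (l.map sw).map sw = l := by
  rw [List.map_map]
  exact List.map_id _

theorem swp_finite (hT : T.Finite) : (swp T).Finite := by
  refine (hT.image sw).subset fun r hr => ⟨sw r, hr, sw_sw r⟩

theorem rch_sw {A B : N} {U : List β} {V : List γ} {i i' j j' : ℕ} :
    Rch (swp T) A B V U j j' i i' ↔ Rch T A B U V i i' j j' := by
  constructor
  · rintro ⟨l, h1, h2, h3, h4, h5⟩
    refine ⟨l.map sw, ?_, ?_, ?_, ?_, ?_⟩
    · rw [← path_sw, map_sw_sw]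
      exact h1
    · rw [w1_sw]; exact h4
    · rw [w1_sw]; exact h5
    · rw [w2_sw]; exact h2
    · rw [w2_sw]; exact h3
  · rintro ⟨l, h1, h2, h3, h4, h5⟩
    refine ⟨l.map sw, path_sw.2 h1, ?_, ?_, ?_, ?_⟩
    · rw [w1_sw]; exact h4
    · rw [w1_sw]; exact h5
    · rw [w2_sw]; exact h2
    · rw [w2_sw]; exact h3

/-- `B` can be reached from `A` -/
def To (T : Set (Rul N β γ)) (A B : N) : Prop := ∃ l, Path T A l B

theorem To.refl (A : N) : To T A A := ⟨[], Path.nil A⟩

theorem To.trans {A B C : N} : To T A B → To T B C → To T A C := by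
  rintro ⟨l, h⟩ ⟨l', h'⟩
  exact ⟨l ++ l', path_append.2 ⟨B, h, h'⟩⟩

theorem Fct.eq {A B : N} (hA : Fct T A) (hB : To T B A) {l l' : List (Rul N β γ)}
    (h : Path T A l B) (h' : Path T A l' B) (hw : w1 l = w1 l') :
    (w2 l).length = (w2 l').length := by
  obtain ⟨l₀, h₀⟩ := hB
  have h1 := hA (l ++ l₀) (l' ++ l₀) (path_append.2 ⟨B, h, h₀⟩) (path_append.2 ⟨B, h', h₀⟩)
    (by rw [w1_append, w1_append, hw])
  rw [w2_append, w2_append, List.length_append, List.length_append] at h1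
  omega

/-- words which commute with the same nonempty word commute -/
theorem comm_of_comm {β : Type} {ρ s t : List β} (hρ : ρ ≠ []) (hs : s ++ ρ = ρ ++ s)
    (ht : t ++ ρ = ρ ++ t) : s ++ t = t ++ s := by
  -- the powers of `ρ`
  have key : ∀ u : List β, u ++ ρ = ρ ++ u → ∀ k : ℕ,
      u ++ (List.replicate k ρ).flatten = (List.replicate k ρ).flatten ++ u := by
    intro u hu k
    induction k with
    | zero => simp
    | succ k ih =>
      rw [List.replicate_succ, List.flatten_cons, ← List.append_assoc, hu, List.append_assoc, ih,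
        List.append_assoc]
  have hlen : ∀ k : ℕ, k ≤ (List.replicate k ρ).flatten.length := by
    intro k
    have h1 : 0 < ρ.length := List.length_pos_iff.2 hρ
    rw [List.length_flatten, List.map_replicate, List.sum_replicate, smul_eq_mul]
    nlinarith
  have h1 : (s ++ t) ++ ρ = ρ ++ (s ++ t) := by
    rw [List.append_assoc, ht, ← List.append_assoc, hs, List.append_assoc]
  have h2 : (t ++ s) ++ ρ = ρ ++ (t ++ s) := by
    rw [List.append_assoc, hs, ← List.append_assoc, ht, List.append_assoc]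
  set k := (s ++ t).length with hk
  have h3 : (s ++ t) <+: (List.replicate k ρ).flatten := by
    refine List.prefix_of_prefix_length_le (l₃ := (List.replicate k ρ).flatten ++ (s ++ t)) ?_
      (List.prefix_append _ _) (hlen k)
    rw [← key _ h1 k]
    exact List.prefix_append _ _
  have h4 : (t ++ s) <+: (List.replicate k ρ).flatten := by
    refine List.prefix_of_prefix_length_le (l₃ := (List.replicate k ρ).flatten ++ (t ++ s)) ?_
      (List.prefix_append _ _) ?_
    · rw [← key _ h2 k]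
      exact List.prefix_append _ _
    · refine le_trans (le_of_eq ?_) (hlen k)
      rw [hk, List.length_append, List.length_append, add_comm]
  rw [List.prefix_iff_eq_take.1 h3, List.prefix_iff_eq_take.1 h4, List.length_append,
    List.length_append, add_comm]

/-- **A local condition.** -/
theorem Loc.or {A : N} (h : Loc T A) : Fct T A ∨ Comm (swp T) A := by
  by_contra hcon
  rw [not_or] at hcon
  obtain ⟨h1, h2⟩ := hcon
  unfold Fct at h1
  push Not at h1
  obtain ⟨l, l', a1, a2, a3, a4⟩ := h1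
  -- the first word is shorter
  wlog hlt : (w2 l).length ≤ (w2 l').length generalizing l l'
  · exact this l' l a2 a1 a3.symm a4.symm (by omega)
  have h3 := (h l l' a1 a2 a3).resolve_left a4
  have h4 : w2 l <+: w2 l' := by
    refine List.prefix_of_prefix_length_le (l₃ := w2 l' ++ w2 l) ?_ (List.prefix_append _ _) hlt
    rw [← h3]
    exact List.prefix_append _ _
  obtain ⟨ρ, hρ⟩ := h4
  have hρ0 : ρ ≠ [] := by
    rintro rfl
    rw [List.append_nil] at hρ
    exact a4 (by rw [hρ])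
  rw [← hρ] at h3
  have h5 : w2 l ++ ρ = ρ ++ w2 l := by
    rw [List.append_assoc] at h3
    exact List.append_cancel_left h3
  have key : ∀ c, Path T A c A → w2 c ++ ρ = ρ ++ w2 c := by
    intro c hc
    have h6 := (h (l ++ c) (l' ++ c) (path_append.2 ⟨A, a1, hc⟩) (path_append.2 ⟨A, a2, hc⟩)
      (by rw [w1_append, w1_append, a3])).resolve_left (by
        rw [w2_append, w2_append, List.length_append, List.length_append]
        omega)
    rw [w2_append, w2_append, ← hρ] at h6
    simp only [List.append_assoc] at h6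
    have h7 := List.append_cancel_left h6
    simp only [← List.append_assoc] at h7
    have h8 := List.append_cancel_right h7
    -- `c y ρ = ρ c y`
    rw [List.append_assoc, h5, ← List.append_assoc] at h8
    exact List.append_cancel_right h8
  refine h2 fun c c' hc hc' => ?_
  rw [← map_sw_sw c, path_sw] at hc
  rw [← map_sw_sw c', path_sw] at hc'
  rw [← w2_sw, ← w2_sw]
  exact comm_of_comm hρ0 (key _ hc) (key _ hc')

theorem Comm.eq {A B : N} (hA : Comm T A) (hB : To T B A) {l l' : List (Rul N β γ)}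
    (h : Path T A l B) (h' : Path T A l' B) (hw : (w1 l).length = (w1 l').length) :
    w1 l = w1 l' := by
  obtain ⟨l₀, h₀⟩ := hB
  have h1 := hA (l ++ l₀) (l' ++ l₀) (path_append.2 ⟨B, h, h₀⟩) (path_append.2 ⟨B, h', h₀⟩)
  rw [w1_append, w1_append, List.append_assoc, List.append_assoc] at h1
  exact (List.append_inj h1 hw).1

variable {α : Type} {U : List α → List β} {V : List α → List γ}

/-- there is a path with the word `U[i, i')` on the first tape -/
theorem lr_ex [Fintype N] (hT : T.Finite) (hU : LW U) (A B : N) :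
    LR (fun w (z : ℕ × ℕ) => ∃ ℓ, Wt T A B (U w) z.1 z.2 ℓ) := by
  -- erase the second tape
  set er : Rul N β γ → Rul N β γ := fun r => (r.1, r.2.1, r.2.2.1, []) with her
  have hfin : (er '' T).Finite := hT.image er
  have h1 := (lr_wt hfin hU A B).comp (f := fun (_ : List α) (z : ℕ × ℕ) => (z, 0))
    (LS.id.pair (LS.const 0))
  refine h1.congr fun w z => ?_
  show Wt (er '' T) A B (U w) z.1 z.2 0 ↔ _
  have e1 : ∀ l : List (Rul N β γ), w1 (l.map er) = w1 l := by
    intro l
    induction l with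
    | nil => rfl
    | cons r l ih => rw [List.map_cons, w1_cons, w1_cons, ih]
  have e2 : ∀ l : List (Rul N β γ), w2 (l.map er) = [] := by
    intro l
    induction l with
    | nil => rfl
    | cons r l ih => rw [List.map_cons, w2_cons, ih]; rfl
  have e3 : ∀ (l : List (Rul N β γ)) (A : N), Path T A l B → Path (er '' T) A (l.map er) B := by
    intro l
    induction l with
    | nil => exact fun A h => path_nil_iff.2 (path_nil_iff.1 h)
    | cons r l ih =>
      intro A h
      obtain ⟨h1, h2, h3⟩ := path_cons_iff.1 h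
      exact path_cons_iff.2 ⟨h1, ⟨r, h2, rfl⟩, ih _ h3⟩
  have e4 : ∀ (l : List (Rul N β γ)) (A : N), Path (er '' T) A l B →
      ∃ l', l'.map er = l ∧ Path T A l' B := by
    intro l
    induction l with
    | nil => exact fun A h => ⟨[], rfl, path_nil_iff.2 (path_nil_iff.1 h)⟩
    | cons r l ih =>
      intro A h
      obtain ⟨h1, ⟨r', h2, rfl⟩, h3⟩ := path_cons_iff.1 h
      obtain ⟨l', h4, h5⟩ := ih _ h3
      exact ⟨r' :: l', by rw [List.map_cons, h4], path_cons_iff.2 ⟨h1, h2, h5⟩⟩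
  constructor
  · rintro ⟨l, a1, a2, a3, _⟩
    obtain ⟨l', rfl, h5⟩ := e4 l A a1
    rw [e1] at a2 a3
    exact ⟨_, l', h5, a2, a3, rfl⟩
  · rintro ⟨ℓ, l, a1, a2, a3, _⟩
    exact ⟨l.map er, e3 l A a1, by rw [e1]; exact a2, by rw [e1]; exact a3, by rw [e2]; rfl⟩

/-- **The commutative case.** -/
theorem lr_comm [Fintype N] (hT : T.Finite) (hU : LW U) (hV : LW V) {A B : N} (hA : Comm T A)
    (hB : To T B A) : LR (fun w (z : ((ℕ × ℕ) × ℕ) × ℕ) =>
      Rch T A B (U w) (V w) z.1.1.1 z.1.1.2 z.1.2 z.2) := by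
  have h1 := (lr_ex hT hU A B).comp (f := fun (_ : List α) (z : ((ℕ × ℕ) × ℕ) × ℕ) => z.1.1)
    LS.fst'.fst
  have h2 := (lr_wt (swp_finite hT) hV A B).comp
    (f := fun (_ : List α) (z : ((ℕ × ℕ) × ℕ) × ℕ) => ((z.1.2, z.2), z.1.1.2 - z.1.1.1))
    ((LS.fst'.snd.pair LS.snd').pair (LS.fst'.fst.snd.fsub LS.fst'.fst.fst))
  refine (h1.and (h2.and (LS.le LS.fst'.fst.fst LS.fst'.fst.snd))).congr fun w z => ?_
  obtain ⟨⟨⟨i, i'⟩, j⟩, j'⟩ := z
  simp only
  constructor
  · rintro ⟨⟨ℓ, l, a1, a2, a3, _⟩, ⟨l', b1, b2, b3, b4⟩, h⟩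
    rw [← map_sw_sw l', path_sw] at b1
    rw [← w2_sw] at b2 b3
    rw [← w1_sw] at b4
    have h3 : w1 (l'.map sw) = w1 l := hA.eq hB b1 a1 (by omega)
    exact ⟨l'.map sw, b1, by rw [h3]; exact a2, by rw [h3]; exact a3, b2, b3⟩
  · rintro ⟨l, a1, a2, a3, a4, a5⟩
    refine ⟨⟨_, l, a1, a2, a3, rfl⟩, ⟨l.map sw, path_sw.2 a1, ?_, ?_, ?_⟩, by omega⟩
    · rw [w1_sw]; exact a4
    · rw [w1_sw]; exact a5
    · rw [w2_sw]; omega

/-- **The case of determined lengths.** -/
theorem lr_det [Fintype N] (hT : T.Finite) (hU : LW U) (hV : LW V) {A B : N} (hA : Fct T A)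
    (hB : To T B A) : LR (fun w (z : ((ℕ × ℕ) × ℕ) × ℕ) =>
      Rch T A B (U w) (V w) z.1.1.1 z.1.1.2 z.1.2 z.2) := by
  -- the rule is used at a position where it fits on both tapes
  set P : Rul N β γ → List α → (((ℕ × ℕ) × ℕ) × ℕ) × ℕ → Prop := fun r w y =>
    Fac (U w) y.2 r.2.1 ∧ ∃ o < y.1.2 - y.1.1.2 + 1,
      Wt T A r.1 (U w) y.1.1.1.1 y.2 o ∧ Fac (V w) (y.1.1.2 + o) r.2.2.2 with hPdef
  have hP : ∀ r ∈ T, LR (P r) := by
    intro r _
    refine (hU.fac r.2.1 LS.snd').and ?_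
    refine LR.ex (R := fun w (x : ((((ℕ × ℕ) × ℕ) × ℕ) × ℕ) × ℕ) =>
      Wt T A r.1 (U w) x.1.1.1.1.1 x.1.2 x.2 ∧ Fac (V w) (x.1.1.1.2 + x.2) r.2.2.2) ?_
      ((LS.fst'.snd.fsub LS.fst'.fst.snd).fadd (LS.const 1))
    refine LR.and ?_ (hV.fac r.2.2.2 (LS.fst'.fst.fst.snd.fadd LS.snd'))
    exact (lr_wt hT hU A r.1).comp
      (f := fun (_ : List α) (x : ((((ℕ × ℕ) × ℕ) × ℕ) × ℕ) × ℕ) =>
        ((x.1.1.1.1.1, x.1.2), x.2))
      ((LS.fst'.fst.fst.fst.fst.pair LS.fst'.snd).pair LS.snd')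
  have h1 := (lr_wp hT hP A B).comp
    (f := fun (_ : List α) (z : ((ℕ × ℕ) × ℕ) × ℕ) => ((z, (z.1.1.1, z.1.1.2)), z.2 - z.1.2))
    ((LS.id.pair (LS.fst'.fst.fst.pair LS.fst'.fst.snd)).pair (LS.snd'.fsub LS.fst'.snd))
  refine (h1.and (LS.le LS.fst'.snd LS.snd')).congr fun w z => ?_
  obtain ⟨⟨⟨i, i'⟩, j⟩, j'⟩ := z
  simp only
  constructor
  · rintro ⟨⟨l, a1, a2, a3, a4⟩, h3⟩
    have key : ∀ l₁ l₂, l = l₁ ++ l₂ → Fac (V w) j (w2 l₁) := by
      intro l₁
      induction l₁ using List.reverseRecOn with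
      | nil => exact fun _ _ => fac_nil _ _
      | append_singleton l₁ r ih =>
        intro l₂ hl
        rw [List.append_assoc, List.singleton_append] at hl
        have h5 := ih _ hl
        rw [w2_append, fac_append, w2_single]
        refine ⟨h5, ?_⟩
        rw [hl] at a1 a2
        obtain ⟨E, p1, p2⟩ := path_append.1 a1
        obtain ⟨rfl, p3, p4⟩ := path_cons_iff.1 p2
        rw [allP_append] at a2
        obtain ⟨q1, q2, _⟩ := a2
        obtain ⟨_, o, _, ⟨c, c1, c2, c3, c4⟩, c5⟩ := q2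
        have h6 : Fac (U w) i (w1 l₁) := allP_fac.1 (q1.mono fun _ _ h => h.1)
        have h7 : w1 c = w1 l₁ := c2.eq h6 (by simp only at c3; omega)
        -- the return path
        obtain ⟨l₀, h₀⟩ := hB
        have h8 := hA (c ++ (r :: l₂) ++ l₀) (l₁ ++ (r :: l₂) ++ l₀)
          (path_append.2 ⟨B, path_append.2 ⟨r.1, c1, p2⟩, h₀⟩)
          (path_append.2 ⟨B, path_append.2 ⟨r.1, p1, p2⟩, h₀⟩)
          (by simp only [w1_append, h7])
        simp only [w2_append, List.length_append] at h8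
        have h9 : o = (w2 l₁).length := by omega
        rw [← h9]
        exact c5
    refine ⟨l, a1, allP_fac.1 (a2.mono fun _ _ h => h.1), a3, key l [] (List.append_nil l).symm,
      by omega⟩
  · rintro ⟨l, a1, a2, a3, a4, a5⟩
    refine ⟨⟨l, a1, ?_, a3, by omega⟩, by omega⟩
    have key : ∀ l₁ l₂, l = l₁ ++ l₂ → AllP (fun r p => P r w ((((i, i'), j), j'), p)) i l₁ := by
      intro l₁
      induction l₁ using List.reverseRecOn with
      | nil => exact fun _ _ => trivial
      | append_singleton l₁ r ih =>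
        intro l₂ hl
        rw [List.append_assoc, List.singleton_append] at hl
        refine allP_append.2 ⟨ih _ hl, allP_single.2 ?_⟩
        rw [hl] at a1 a2 a3 a4 a5
        obtain ⟨E, p1, p2⟩ := path_append.1 a1
        obtain ⟨rfl, p3, p4⟩ := path_cons_iff.1 p2
        rw [w1_append, fac_append, w1_cons, fac_append] at a2
        rw [w2_append, fac_append, w2_cons, fac_append] at a4
        rw [w2_append, w2_cons, List.length_append, List.length_append] at a5
        refine ⟨a2.2.1, (w2 l₁).length, ?_, ⟨l₁, p1, a2.1, rfl, rfl⟩, a4.2.1⟩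
        simp only
        omega
    exact key l [] (List.append_nil l).symm

/-- **One strongly connected component.** -/
theorem lr_seg [Fintype N] (hT : T.Finite) (hU : LW U) (hV : LW V) {A B : N}
    (hA : Loc T A ∨ Loc (swp T) A)
    (hB : To T B A) : LR (fun w (z : ((ℕ × ℕ) × ℕ) × ℕ) =>
      Rch T A B (U w) (V w) z.1.1.1 z.1.1.2 z.1.2 z.2) := by
  have hB' : To (swp T) B A := by
    obtain ⟨l, hl⟩ := hB
    exact ⟨l.map sw, path_sw.2 hl⟩
  have hsw : LS (fun (_ : List α) (z : ((ℕ × ℕ) × ℕ) × ℕ) =>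
      (((z.1.2, z.2), z.1.1.1), z.1.1.2)) :=
    ((LS.fst'.snd.pair LS.snd').pair LS.fst'.fst.fst).pair LS.fst'.fst.snd
  rcases hA with h | h
  · rcases h.or with h | h
    · exact lr_det hT hU hV h hB
    · exact ((lr_comm (swp_finite hT) hV hU h hB').comp hsw).congr fun w z => rch_sw
  · rcases h.or with h | h
    · exact ((lr_det (swp_finite hT) hV hU h hB').comp hsw).congr fun w z => rch_sw
    · exact lr_comm hT hU hV h hB

/-- the first rule that leaves the component of `A` -/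
theorem exists_exit {A B : N} : ∀ (l : List (Rul N β γ)) (E : N), Path T E l B → To T E A →
    ¬ To T B A → ∃ l₁ r l₂, l = l₁ ++ r :: l₂ ∧ Path T E l₁ r.1 ∧ r ∈ T ∧ To T r.1 A ∧
      ¬ To T r.2.2.1 A ∧ Path T r.2.2.1 l₂ B
  | [], E, hp, hE, hB => by
    rw [path_nil_iff] at hp
    exact absurd (hp ▸ hE) hB
  | r :: l, E, hp, hE, hB => by
    obtain ⟨rfl, h2, h3⟩ := path_cons_iff.1 hp
    by_cases h : To T r.2.2.1 A
    · obtain ⟨l₁, r', l₂, a1, a2, a3, a4, a5, a6⟩ := exists_exit l _ h3 h hB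
      exact ⟨r :: l₁, r', l₂, by rw [a1]; rfl, path_cons_iff.2 ⟨rfl, h2, a2⟩, a3, a4, a5, a6⟩
    · exact ⟨[], r, l, rfl, Path.nil _, h2, hE, h, h3⟩

/-- **Reachability.** -/
theorem lr_rch [Fintype N] (hT : T.Finite) (hU : LW U) (hV : LW V)
    (h : ∀ A, Loc T A ∨ Loc (swp T) A) :
    ∀ (n : ℕ) (A : N), {E | To T A E}.ncard ≤ n → ∀ B,
      LR (fun w (z : ((ℕ × ℕ) × ℕ) × ℕ) => Rch T A B (U w) (V w) z.1.1.1 z.1.1.2 z.1.2 z.2) := by
  intro n
  induction n with
  | zero =>
    intro A hA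
    have h1 : {E | To T A E}.ncard = 0 := Nat.le_zero.1 hA
    rw [Set.ncard_eq_zero (Set.toFinite _)] at h1
    have h2 : A ∈ {E | To T A E} := To.refl A
    rw [h1] at h2
    exact absurd h2 (Set.notMem_empty A)
  | succ n ih =>
    intro A hA B
    by_cases hBA : To T B A
    · exact lr_seg hT hU hV (h A) hBA
    -- leave the component
    have key : ∀ r ∈ T, LR (fun w (z : ((ℕ × ℕ) × ℕ) × ℕ) =>
        (To T A r.1 ∧ To T r.1 A ∧ ¬ To T r.2.2.1 A) ∧ ∃ p < z.1.1.2 + 1, ∃ q < z.2 + 1,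
          Rch T A r.1 (U w) (V w) z.1.1.1 p z.1.2 q ∧ Fac (U w) p r.2.1 ∧ Fac (V w) q r.2.2.2 ∧
            Rch T r.2.2.1 B (U w) (V w) (p + r.2.1.length) z.1.1.2 (q + r.2.2.2.length) z.2) := by
      intro r hr
      by_cases hc : To T A r.1 ∧ To T r.1 A ∧ ¬ To T r.2.2.1 A
      · refine (LR.const _).and ?_
        have hlt : {E | To T r.2.2.1 E}.ncard ≤ n := by
          have h1 : {E | To T r.2.2.1 E} ⊂ {E | To T A E} := by
            refine ⟨fun E hE => hc.1.trans (To.trans ⟨[r], path_single.2 ⟨rfl, hr, rfl⟩⟩ hE),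
              fun h2 => hc.2.2 (h2 (To.refl A))⟩
          have h2 := Set.ncard_lt_ncard h1 (Set.toFinite _)
          omega
        have h1 := lr_seg (U := U) (V := V) hT hU hV (h A) hc.2.1
        have h2 := ih r.2.2.1 hlt B
        refine LR.ex (R := fun w (y : (((ℕ × ℕ) × ℕ) × ℕ) × ℕ) => ∃ q < y.1.2 + 1,
          Rch T A r.1 (U w) (V w) y.1.1.1.1 y.2 y.1.1.2 q ∧ Fac (U w) y.2 r.2.1 ∧
          Fac (V w) q r.2.2.2 ∧ Rch T r.2.2.1 B (U w) (V w) (y.2 + r.2.1.length) y.1.1.1.2
            (q + r.2.2.2.length) y.1.2) ?_ (LS.fst'.fst.snd.fadd (LS.const 1))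
        refine LR.ex (R := fun w (x : ((((ℕ × ℕ) × ℕ) × ℕ) × ℕ) × ℕ) =>
          Rch T A r.1 (U w) (V w) x.1.1.1.1.1 x.1.2 x.1.1.1.2 x.2 ∧ Fac (U w) x.1.2 r.2.1 ∧
          Fac (V w) x.2 r.2.2.2 ∧ Rch T r.2.2.1 B (U w) (V w) (x.1.2 + r.2.1.length)
            x.1.1.1.1.2 (x.2 + r.2.2.2.length) x.1.1.2) ?_ (LS.fst'.snd.fadd (LS.const 1))
        refine LR.and ?_ (LR.and (hU.fac _ LS.fst'.snd) (LR.and (hV.fac _ LS.snd') ?_))
        · exact h1.comp (f := fun (_ : List α) (x : ((((ℕ × ℕ) × ℕ) × ℕ) × ℕ) × ℕ) =>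
            (((x.1.1.1.1.1, x.1.2), x.1.1.1.2), x.2))
            (((LS.fst'.fst.fst.fst.fst.pair LS.fst'.snd).pair LS.fst'.fst.fst.snd).pair LS.snd')
        · exact h2.comp (f := fun (_ : List α) (x : ((((ℕ × ℕ) × ℕ) × ℕ) × ℕ) × ℕ) =>
            (((x.1.2 + r.2.1.length, x.1.1.1.1.2), x.2 + r.2.2.2.length), x.1.1.2))
            ((((LS.fst'.snd.fadd (LS.const _)).pair LS.fst'.fst.fst.fst.snd).pair
              (LS.snd'.fadd (LS.const _))).pair LS.fst'.fst.snd)
      · exact (LR.const False).congr fun w z => by simp [hc]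
    refine (LR.exSet hT key).congr fun w z => ?_
    obtain ⟨⟨⟨i, i'⟩, j⟩, j'⟩ := z
    simp only
    constructor
    · rintro ⟨r, hr, _, p, _, q, _, ⟨l₁, a1, a2, a3, a4, a5⟩, h2, h3, l₂, b1, b2, b3, b4, b5⟩
      refine ⟨l₁ ++ r :: l₂, path_append.2 ⟨r.1, a1, path_cons_iff.2 ⟨rfl, hr, b1⟩⟩, ?_, ?_, ?_,
        ?_⟩
      · rw [w1_append, fac_append, w1_cons, fac_append, a3]
        exact ⟨a2, h2, b2⟩
      · rw [w1_append, w1_cons, List.length_append, List.length_append]
        omega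
      · rw [w2_append, fac_append, w2_cons, fac_append, a5]
        exact ⟨a4, h3, b4⟩
      · rw [w2_append, w2_cons, List.length_append, List.length_append]
        omega
    · rintro ⟨l, a1, a2, a3, a4, a5⟩
      obtain ⟨l₁, r, l₂, rfl, c2, c3, c4, c5, c6⟩ := exists_exit l A a1 (To.refl A) hBA
      rw [w1_append, fac_append, w1_cons, fac_append] at a2
      rw [w1_append, w1_cons, List.length_append, List.length_append] at a3
      rw [w2_append, fac_append, w2_cons, fac_append] at a4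
      rw [w2_append, w2_cons, List.length_append, List.length_append] at a5
      exact ⟨r, c3, ⟨⟨l₁, c2⟩, c4, c5⟩, i + (w1 l₁).length, by omega, j + (w2 l₁).length,
        by omega, ⟨l₁, c2, a2.1, rfl, a4.1, rfl⟩, a2.2.1, a4.2.1, l₂, c6, a2.2.2, by omega,
        a4.2.2, by omega⟩

end Pool.Agent.HM13.LS
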