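import Pool.Agent.HM13.LS.Kane

/-!
# Paths of transducers, and the lengths of their outputs
-/

set_option autoImplicit false

namespace Pool.Agent.HM13.LS

open Finset

/-! ### Factors of words -/

section

variable {β : Type}

/-- the word `u` occurs in `U` at the position `i` -/
def Fac (U : List β) (i : ℕ) (u : List β) : Prop := u <+: U.drop i

theorem fac_nil (U : List β) (i : ℕ) : Fac U i [] := List.nil_prefix

theorem fac_append {U : List β} {i : ℕ} {u v : List β} :
    Fac U i (u ++ v) ↔ Fac U i u ∧ Fac U (i + u.length) v := by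
  unfold Fac
  constructor
  · rintro ⟨t, ht⟩
    refine ⟨⟨v ++ t, by rw [← ht, List.append_assoc]⟩, t, ?_⟩
    rw [← List.drop_drop, ← ht, List.append_assoc, List.drop_left]
  · rintro ⟨⟨t, ht⟩, s, hs⟩
    rw [← List.drop_drop, ← ht, List.drop_left] at hs
    exact ⟨s, by rw [List.append_assoc, hs, ht]⟩

theorem fac_cons {U : List β} {i : ℕ} {b : β} {u : List β} :
    Fac U i (b :: u) ↔ U[i]? = some b ∧ Fac U (i + 1) u := by
  have h := fac_append (U := U) (i := i) (u := [b]) (v := u)
  rw [List.singleton_append] at h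
  rw [h]
  refine and_congr_left fun _ => ?_
  unfold Fac
  have h1 : U[i]? = (U.drop i)[0]? := by simp
  rw [h1]
  cases U.drop i with
  | nil => simp
  | cons c t =>
    simp only [List.cons_prefix_cons, List.nil_prefix, and_true, List.getElem?_cons_zero,
      Option.some.injEq]
    exact eq_comm

theorem Fac.eq {U : List β} {i : ℕ} {u v : List β} (hu : Fac U i u) (hv : Fac U i v)
    (h : u.length = v.length) : u = v := by
  rw [List.prefix_iff_eq_take.1 hu, List.prefix_iff_eq_take.1 hv, h]

end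

/-! ### Words given by logarithmic space computations -/

section

variable {α β : Type}

/-- the word `U w` can be computed from the input `w` -/
def LW (U : List α → List β) : Prop := ∀ b, LR (fun w (i : ℕ) => (U w)[i]? = some b)

theorem LR.letter (a : α) : LR (fun (w : List α) (i : ℕ) => w[i]? = some a) :=
  (LS.letter' a).congr fun w x => by congr

theorem LW.id : LW (fun w : List α => w) := fun a => LR.letter a

theorem LW.reverse : LW (fun w : List α => w.reverse) := by
  intro a
  have h : LR (fun (w : List α) (i : ℕ) => i < w.length ∧ w[w.length - 1 - i]? = some a) :=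
    (LS.lt LS.id LS.len).and (LR.comp (R := fun w (i : ℕ) => w[i]? = some a) (LR.letter a)
      ((LS.len.fsub (LS.const 1)).fsub LS.id))
  refine h.congr fun w i => ?_
  by_cases hi : i < w.length
  · rw [List.getElem?_reverse hi]
    simp [hi]
  · have h1 : w.reverse[i]? = none := List.getElem?_eq_none (by simp; omega)
    rw [h1]
    simp [hi]

theorem LW.fac {U : List α → List β} (hU : LW U) {X : Type} [Ctx X] (u : List β) :
    ∀ {f : List α → X → ℕ}, LS f → LR (fun w x => Fac (U w) (f w x) u) := by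
  induction u with
  | nil => exact fun _ => (LR.const True).congr fun w x => by simp [fac_nil]
  | cons b u ih =>
    intro f hf
    exact ((LR.comp (hU b) hf).and (ih (hf.fadd (LS.const 1)))).congr fun w x => fac_cons.symm

end

/-! ### Paths -/

/-- rules: a state, a word on the first tape, the next state, a word on the second tape -/
abbrev Rul (N β γ : Type) : Type := N × List β × N × List γ

variable {N β γ : Type}

/-- `l` is a path from `A` to `B` -/
inductive Path (T : Set (Rul N β γ)) : N → List (Rul N β γ) → N → Prop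
  | nil (A : N) : Path T A [] A
  | cons (r : Rul N β γ) (l : List (Rul N β γ)) (C : N) (h : r ∈ T) (hp : Path T r.2.2.1 l C) :
      Path T r.1 (r :: l) C

/-- the word on the first tape -/
def w1 (l : List (Rul N β γ)) : List β := l.flatMap fun r => r.2.1

/-- the word on the second tape -/
def w2 (l : List (Rul N β γ)) : List γ := l.flatMap fun r => r.2.2.2

theorem w1_nil : w1 ([] : List (Rul N β γ)) = [] := rfl
theorem w2_nil : w2 ([] : List (Rul N β γ)) = [] := rfl
theorem w1_cons (r : Rul N β γ) (l : List (Rul N β γ)) : w1 (r :: l) = r.2.1 ++ w1 l := by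
  simp [w1]
theorem w2_cons (r : Rul N β γ) (l : List (Rul N β γ)) : w2 (r :: l) = r.2.2.2 ++ w2 l := by
  simp [w2]
theorem w1_append (l l' : List (Rul N β γ)) : w1 (l ++ l') = w1 l ++ w1 l' := by simp [w1]
theorem w2_append (l l' : List (Rul N β γ)) : w2 (l ++ l') = w2 l ++ w2 l' := by simp [w2]
theorem w1_single (r : Rul N β γ) : w1 [r] = r.2.1 := by simp [w1]
theorem w2_single (r : Rul N β γ) : w2 [r] = r.2.2.2 := by simp [w2]

variable {T : Set (Rul N β γ)}

theorem path_nil_iff {A B : N} : Path T A [] B ↔ A = B :=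
  ⟨fun h => by cases h; rfl, fun h => h ▸ Path.nil A⟩

theorem path_cons_iff {A B : N} {r : Rul N β γ} {l : List (Rul N β γ)} :
    Path T A (r :: l) B ↔ r.1 = A ∧ r ∈ T ∧ Path T r.2.2.1 l B := by
  constructor
  · intro h
    cases h with
    | cons _ _ _ h1 h2 => exact ⟨rfl, h1, h2⟩
  · rintro ⟨rfl, h1, h2⟩
    exact Path.cons r l B h1 h2

theorem path_append {A B : N} {l l' : List (Rul N β γ)} :
    Path T A (l ++ l') B ↔ ∃ C, Path T A l C ∧ Path T C l' B := by
  induction l generalizing A with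
  | nil => simp [path_nil_iff]
  | cons r l ih =>
    rw [List.cons_append, path_cons_iff, ih]
    simp only [path_cons_iff]
    constructor
    · rintro ⟨h1, h2, C, h3, h4⟩
      exact ⟨C, ⟨h1, h2, h3⟩, h4⟩
    · rintro ⟨C, ⟨h1, h2, h3⟩, h4⟩
      exact ⟨h1, h2, C, h3, h4⟩

theorem path_single {A B : N} {r : Rul N β γ} :
    Path T A [r] B ↔ r.1 = A ∧ r ∈ T ∧ r.2.2.1 = B := by
  rw [path_cons_iff, path_nil_iff]

/-- the property `P` holds whenever a rule of `l` is used, for the rule and the position on the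
first tape -/
def AllP (P : Rul N β γ → ℕ → Prop) : ℕ → List (Rul N β γ) → Prop
  | _, [] => True
  | i, r :: l => P r i ∧ AllP P (i + r.2.1.length) l

theorem allP_append {P : Rul N β γ → ℕ → Prop} {i : ℕ} {l l' : List (Rul N β γ)} :
    AllP P i (l ++ l') ↔ AllP P i l ∧ AllP P (i + (w1 l).length) l' := by
  induction l generalizing i with
  | nil => simp [AllP, w1_nil]
  | cons r l ih =>
    rw [List.cons_append, AllP, AllP, ih, w1_cons, List.length_append, and_assoc, add_assoc]

theorem allP_single {P : Rul N β γ → ℕ → Prop} {i : ℕ} {r : Rul N β γ} :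
    AllP P i [r] ↔ P r i := by simp [AllP]

theorem AllP.mono {P P' : Rul N β γ → ℕ → Prop} (h : ∀ r i, P r i → P' r i) :
    ∀ {i : ℕ} {l : List (Rul N β γ)}, AllP P i l → AllP P' i l
  | _, [], _ => trivial
  | _, _ :: _, h' => ⟨h _ _ h'.1, AllP.mono h h'.2⟩

theorem allP_fac {U : List β} {i : ℕ} {l : List (Rul N β γ)} :
    AllP (fun r p => Fac U p r.2.1) i l ↔ Fac U i (w1 l) := by
  induction l generalizing i with
  | nil => simp [AllP, w1_nil, fac_nil]
  | cons r l ih => rw [AllP, ih, w1_cons, fac_append]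

/-- **Short paths.** -/
theorem exists_short [Fintype N] {P : Rul N β γ → ℕ → Prop} {i : ℕ} {A B : N} :
    ∀ (n : ℕ) (l : List (Rul N β γ)), l.length ≤ n →
    Path T A l B → AllP P i l → ∃ l', Path T A l' B ∧ w1 l' = w1 l ∧ w2 l' = w2 l ∧
      AllP P i l' ∧ l'.length ≤ Fintype.card N * ((w1 l).length + (w2 l).length + 1)
  | 0, l, hl, hp, hP => ⟨l, hp, rfl, rfl, hP, by omega⟩
  | n + 1, l, hl, hp, hP => by
    classical
    by_cases hle : l.length ≤ Fintype.card N * ((w1 l).length + (w2 l).length + 1)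
    · exact ⟨l, hp, rfl, rfl, hP, hle⟩
    push Not at hle
    -- the states
    have h1 : ∀ s : ℕ, ∃ C, Path T A (l.take s) C ∧ Path T C (l.drop s) B := fun s => by
      rw [← path_append, List.take_append_drop]
      exact hp
    choose C hC1 hC2 using h1
    have hlen : ∀ s, (w1 (l.take s)).length + (w2 (l.take s)).length ≤
        (w1 l).length + (w2 l).length := fun s => by
      conv_rhs => rw [← List.take_append_drop s l, w1_append, w2_append]
      simp only [List.length_append]
      omega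
    let f : Fin (l.length + 1) → N × Fin ((w1 l).length + (w2 l).length + 1) := fun s =>
      (C s, ⟨(w1 (l.take s)).length + (w2 (l.take s)).length, Nat.lt_succ_of_le (hlen s)⟩)
    obtain ⟨s, s', hne, hf⟩ := Fintype.exists_ne_map_eq_of_card_lt f (by
      rw [Fintype.card_prod, Fintype.card_fin, Fintype.card_fin]
      omega)
    wlog hlt : s < s' generalizing s s'
    · exact this s' s hne.symm hf.symm (lt_of_le_of_ne (not_lt.1 hlt) hne.symm)
    have hf1 : C s = C s' := congrArg Prod.fst hf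
    have hf2 : (w1 (l.take s)).length + (w2 (l.take s)).length =
        (w1 (l.take s')).length + (w2 (l.take s')).length := congrArg (fun z => z.2.1) hf
    have hss : (s : ℕ) < s' := hlt
    have hmid : l.take s' = l.take s ++ (l.drop s).take (s' - s) := by
      rw [← List.take_add]
      congr 1
      omega
    have hw : w1 (l.take s') = w1 (l.take s) ∧ w2 (l.take s') = w2 (l.take s) := by
      rw [hmid, w1_append, w2_append] at hf2 ⊢
      simp only [List.length_append] at hf2
      have e1 : w1 ((l.drop s).take (s' - s)) = [] := List.length_eq_zero_iff.1 (by omega)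
      have e2 : w2 ((l.drop s).take (s' - s)) = [] := List.length_eq_zero_iff.1 (by omega)
      rw [e1, e2, List.append_nil, List.append_nil]
      exact ⟨rfl, rfl⟩
    have hs' : (s' : ℕ) ≤ l.length := Nat.lt_succ_iff.1 s'.2
    have hp' : Path T A (l.take s ++ l.drop s') B := path_append.2 ⟨C s, hC1 s, hf1 ▸ hC2 s'⟩
    have e1 : w1 (l.take s ++ l.drop s') = w1 l := by
      conv_rhs => rw [← List.take_append_drop s' l, w1_append, hw.1]
      rw [w1_append]
    have e2 : w2 (l.take s ++ l.drop s') = w2 l := by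
      conv_rhs => rw [← List.take_append_drop s' l, w2_append, hw.2]
      rw [w2_append]
    have e3 : AllP P i (l.take s ++ l.drop s') := by
      have h5 : AllP P i (l.take s') ∧ AllP P (i + (w1 (l.take s')).length) (l.drop s') := by
        rw [← allP_append, List.take_append_drop]
        exact hP
      have h6 : AllP P i (l.take s) := by
        have h7 := h5.1
        rw [hmid, allP_append] at h7
        exact h7.1
      rw [allP_append]
      exact ⟨h6, hw.1 ▸ h5.2⟩
    obtain ⟨l', a1, a2, a3, a5, a4⟩ := exists_short n (l.take s ++ l.drop s') (by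
      simp only [List.length_append, List.length_take, List.length_drop]
      omega) hp' e3
    rw [e1, e2] at a4
    exact ⟨l', a1, a2.trans e1, a3.trans e2, a5, a4⟩

/-! ### Paths as runs -/

section

variable {α : Type} (T) (L : ℕ)

/-- the moves: stay, use a rule, go on -/
abbrev Mov : Type := (N × Fin (L + 1)) ⊕ T ⊕ (N × Fin L)

/-- the length of the word of a rule -/
def len1 (r : T) : Fin (L + 1) := ⟨min r.1.2.1.length L, Nat.lt_succ_of_le (min_le_right _ _)⟩

/-- the source -/
def src : Mov T L → N × Fin (L + 1)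
  | .inl q => q
  | .inr (.inl r) => (r.1.1, 0)
  | .inr (.inr q) => (q.1, q.2.succ)

/-- the target -/
def dst : Mov T L → N × Fin (L + 1)
  | .inl q => q
  | .inr (.inl r) => (r.1.2.2.1, len1 T L r)
  | .inr (.inr q) => (q.1, q.2.castSucc)

/-- the weight -/
def wt : Mov T L → ℕ
  | .inl _ => 0
  | .inr (.inl r) => r.1.2.2.2.length
  | .inr (.inr _) => 0

variable {X : Type} [Ctx X] (P : Rul N β γ → List α → X × ℕ → Prop)

/-- availability -/
def avl : Mov T L → List α → (X × (ℕ × ℕ)) × ℕ → Prop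
  | .inl _, _, z => z.2 % (z.1.2.2 + 1) < z.1.2.2
  | .inr (.inl r), w, z => z.2 % (z.1.2.2 + 1) < z.1.2.2 ∧
      P r.1 w (z.1.1, z.1.2.1 + z.2 / (z.1.2.2 + 1))
  | .inr (.inr _), _, z => z.2 % (z.1.2.2 + 1) = z.1.2.2

variable {T L P}

theorem lr_avl (hP : ∀ r ∈ T, LR (P r)) (θ : Mov T L) : LR (avl T L P θ) := by
  have h1 : LR (fun (_ : List α) (z : (X × (ℕ × ℕ)) × ℕ) => z.2 % (z.1.2.2 + 1) < z.1.2.2) :=
    LS.lt (LS.snd'.fmod (LS.fst'.snd.snd.fadd (LS.const 1))) LS.fst'.snd.snd
  rcases θ with q | r | q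
  · exact h1
  · exact h1.and ((hP r.1 r.2).comp (f := fun (_ : List α) (z : (X × (ℕ × ℕ)) × ℕ) =>
      (z.1.1, z.1.2.1 + z.2 / (z.1.2.2 + 1))) (LS.fst'.fst.pair
        (LS.fst'.snd.fst.fadd (LS.snd'.fdiv (LS.fst'.snd.snd.fadd (LS.const 1))))))
  · exact LS.eq (LS.snd'.fmod (LS.fst'.snd.snd.fadd (LS.const 1))) LS.fst'.snd.snd

theorem div_succ {s J : ℕ} (h : s % (J + 1) < J) : (s + 1) / (J + 1) = s / (J + 1) := by
  have h1 := Nat.div_add_mod s (J + 1)
  rw [show s + 1 = (J + 1) * (s / (J + 1)) + (s % (J + 1) + 1) by omega,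
    Nat.mul_add_div (by omega), Nat.div_eq_of_lt (by omega : s % (J + 1) + 1 < J + 1)]
  rfl

theorem div_succ' {s J : ℕ} (h : s % (J + 1) = J) : (s + 1) / (J + 1) = s / (J + 1) + 1 := by
  have h1 := Nat.div_add_mod s (J + 1)
  rw [show s + 1 = (J + 1) * (s / (J + 1) + 1) by rw [mul_add]; omega,
    Nat.mul_div_cancel_left _ (by omega)]

variable {w : List α} {x : X} {A : N} {i J : ℕ}

theorem run_sound (hL : ∀ r ∈ T, r.2.1.length ≤ L) :
    ∀ (s : ℕ) (F : N) (d : Fin (L + 1)) (ℓ : ℕ),
      Run (src T L) (dst T L) (wt T L) (fun θ s => avl T L P θ w ((x, (i, J)), s)) (A, 0) s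
        (F, d) ℓ →
      ∃ l, Path T A l F ∧ AllP (fun r p => P r w (x, p)) i l ∧
        (w1 l).length = s / (J + 1) + d ∧ (w2 l).length = ℓ
  | 0, F, d, ℓ, h => by
    obtain ⟨h1, h2⟩ := h
    obtain ⟨rfl, rfl⟩ := Prod.mk.inj h1
    exact ⟨[], Path.nil A, trivial, by simp [w1_nil], by simp [w2_nil, h2]⟩
  | s + 1, F, d, ℓ, h => by
    obtain ⟨θ, h1, h2, h3, h4⟩ := h
    rcases θ with q | r | q
    · have h5 : q = (F, d) := h2
      subst h5
      obtain ⟨l, a1, a2, a3, a4⟩ := run_sound hL s F d ℓ h4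
      have h6 : s % (J + 1) < J := h1
      exact ⟨l, a1, a2, by rw [div_succ h6, a3], a4⟩
    · have h5 : (r.1.2.2.1, len1 T L r) = (F, d) := h2
      obtain ⟨rfl, rfl⟩ := Prod.mk.inj h5
      obtain ⟨l, a1, a2, a3, a4⟩ := run_sound hL s r.1.1 0 (ℓ - r.1.2.2.2.length) h4
      have h6 : s % (J + 1) < J ∧ P r.1 w (x, i + s / (J + 1)) := h1
      have h7 : r.1.2.2.2.length ≤ ℓ := h3
      have h8 : ((0 : Fin (L + 1)) : ℕ) = 0 := rfl
      rw [h8, add_zero] at a3
      refine ⟨l ++ [r.1], path_append.2 ⟨_, a1, path_single.2 ⟨rfl, r.2, rfl⟩⟩, ?_, ?_, ?_⟩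
      · rw [allP_append, a3, allP_single]
        exact ⟨a2, h6.2⟩
      · rw [w1_append, List.length_append, a3, w1_single, div_succ h6.1]
        have : ((len1 T L r : Fin (L + 1)) : ℕ) = r.1.2.1.length := min_eq_left (hL _ r.2)
        rw [this]
      · rw [w2_append, List.length_append, a4, w2_single]
        omega
    · have h5 : (q.1, q.2.castSucc) = (F, d) := h2
      obtain ⟨rfl, rfl⟩ := Prod.mk.inj h5
      obtain ⟨l, a1, a2, a3, a4⟩ := run_sound hL s q.1 q.2.succ ℓ h4
      have h6 : s % (J + 1) = J := h1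
      refine ⟨l, a1, a2, ?_, a4⟩
      rw [a3, div_succ' h6, Fin.val_succ, Fin.val_castSucc]
      omega

theorem run_idle {F : N} {ℓ s : ℕ} : ∀ (s' : ℕ), s ≤ s' →
    ∀ (d' d : Fin (L + 1)), (d' : ℕ) = d + (s' / (J + 1) - s / (J + 1)) →
      Run (src T L) (dst T L) (wt T L) (fun θ s => avl T L P θ w ((x, (i, J)), s)) (A, 0) s
        (F, d') ℓ →
      Run (src T L) (dst T L) (wt T L) (fun θ s => avl T L P θ w ((x, (i, J)), s)) (A, 0) s'
        (F, d) ℓ := by
  intro s' hs
  induction s', hs using Nat.le_induction with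
  | base =>
    intro d' d hd h
    have : d' = d := Fin.ext (by omega)
    exact this ▸ h
  | succ t ht ih =>
    intro d' d hd h
    have hmono : s / (J + 1) ≤ t / (J + 1) := Nat.div_le_div_right ht
    rcases lt_or_eq_of_le (Nat.lt_succ_iff.1 (Nat.mod_lt t (Nat.succ_pos J))) with h1 | h1
    · rw [div_succ h1] at hd
      exact ⟨Sum.inl (F, d), h1, rfl, Nat.zero_le _, ih d' d hd h⟩
    · rw [div_succ' h1] at hd
      have h2 : (d : ℕ) < L := by
        have := d'.2
        omega
      refine ⟨Sum.inr (Sum.inr (F, ⟨d, h2⟩)), h1, ?_, Nat.zero_le _, ?_⟩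
      · show (F, Fin.castSucc ⟨(d : ℕ), h2⟩) = (F, d)
        rfl
      · exact ih d' (Fin.succ ⟨d, h2⟩) (by rw [Fin.val_succ]; show (d' : ℕ) = d + 1 + _; omega) h

theorem run_complete (hL : ∀ r ∈ T, r.2.1.length ≤ L) :
    ∀ (l : List (Rul N β γ)) (F : N), Path T A l F → AllP (fun r p => P r w (x, p)) i l →
      l.length ≤ J →
      Run (src T L) (dst T L) (wt T L) (fun θ s => avl T L P θ w ((x, (i, J)), s)) (A, 0)
        ((J + 1) * (w1 l).length + l.length) (F, 0) (w2 l).length := by
  intro l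
  induction l using List.reverseRecOn with
  | nil =>
    intro F hp _ _
    rw [path_nil_iff] at hp
    subst hp
    exact ⟨rfl, rfl⟩
  | append_singleton l r ih =>
    intro F hp hf hJ
    obtain ⟨E, hp1, hp2⟩ := path_append.1 hp
    obtain ⟨h1, h2, h3⟩ := path_single.1 hp2
    subst h1
    rw [allP_append, allP_single] at hf
    rw [List.length_append, List.length_singleton] at hJ
    have h4 := ih r.1 hp1 hf.1 (by omega)
    have hmod : ((J + 1) * (w1 l).length + l.length) % (J + 1) = l.length := by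
      rw [Nat.mul_add_mod, Nat.mod_eq_of_lt (by omega)]
    have hdiv : ((J + 1) * (w1 l).length + l.length) / (J + 1) = (w1 l).length := by
      rw [Nat.mul_add_div (by omega), Nat.div_eq_of_lt (by omega), add_zero]
    have h5 : Run (src T L) (dst T L) (wt T L) (fun θ s => avl T L P θ w ((x, (i, J)), s)) (A, 0)
        ((J + 1) * (w1 l).length + l.length + 1) (F, len1 T L ⟨r, h2⟩)
        ((w2 l).length + r.2.2.2.length) := by
      refine ⟨Sum.inr (Sum.inl ⟨r, h2⟩), ⟨?_, ?_⟩, ?_, Nat.le_add_left _ _, ?_⟩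
      · show ((J + 1) * (w1 l).length + l.length) % (J + 1) < J
        rw [hmod]
        omega
      · show P r w (x, i + ((J + 1) * (w1 l).length + l.length) / (J + 1))
        rw [hdiv]
        exact hf.2
      · show (r.2.2.1, _) = (F, _)
        rw [h3]
      · have h6 : (w2 l).length + r.2.2.2.length - wt T L (Sum.inr (Sum.inl ⟨r, h2⟩)) =
            (w2 l).length := Nat.add_sub_cancel _ _
        rw [h6]
        exact h4
    have hlen : ((len1 T L ⟨r, h2⟩ : Fin (L + 1)) : ℕ) = r.2.1.length := min_eq_left (hL _ h2)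
    rw [w1_append, w2_append, List.length_append, List.length_append, w1_single, w2_single,
      List.length_append, List.length_singleton]
    refine run_idle _ ?_ _ _ ?_ h5
    · have : (J + 1) * (w1 l).length ≤ (J + 1) * ((w1 l).length + r.2.1.length) :=
        Nat.mul_le_mul_left _ (Nat.le_add_right _ _)
      omega
    · rw [hlen, add_assoc ((J + 1) * (w1 l).length), Nat.mul_add_div (by omega),
        Nat.mul_add_div (by omega), Nat.div_eq_of_lt (by omega)]
      show _ = 0 + _
      omega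

end

/-- there is a path with words of lengths `i' - i` and `ℓ` which uses its rules only at allowed
positions -/
def Wp (T : Set (Rul N β γ)) (A B : N) (P : Rul N β γ → ℕ → Prop) (i i' ℓ : ℕ) : Prop :=
  ∃ l, Path T A l B ∧ AllP P i l ∧ i + (w1 l).length = i' ∧ (w2 l).length = ℓ

/-- **The lengths of the outputs.** -/
theorem lr_wp [Fintype N] {α X : Type} [Ctx X] (hT : T.Finite)
    {P : Rul N β γ → List α → X × ℕ → Prop} (hP : ∀ r ∈ T, LR (P r)) (A B : N) :
    LR (fun w (z : (X × (ℕ × ℕ)) × ℕ) =>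
      Wp T A B (fun r p => P r w (z.1.1, p)) z.1.2.1 z.1.2.2 z.2) := by
  classical
  have := hT.fintype
  obtain ⟨L, hL⟩ : ∃ L, ∀ r ∈ T, r.2.1.length ≤ L := by
    obtain ⟨L, hL⟩ := (hT.image fun r => r.2.1.length).bddAbove
    exact ⟨L, fun r hr => hL ⟨r, hr, rfl⟩⟩
  have h1 := lr_run (X := X × (ℕ × ℕ)) (src T L) (dst T L) (wt T L) (avl T L P) (A, 0)
    (lr_avl hP) (B, 0)
  set J : (X × (ℕ × ℕ)) × ℕ → ℕ := fun z => Fintype.card N * ((z.1.2.2 - z.1.2.1) + z.2 + 1)
    with hJ
  have hd : LS (fun (_ : List α) (z : (X × (ℕ × ℕ)) × ℕ) => z.1.2.2 - z.1.2.1) :=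
    LS.fst'.snd.snd.fsub LS.fst'.snd.fst
  have hJ' : LS (fun (_ : List α) z => J z) :=
    (LS.const _).fmul ((hd.fadd LS.snd').fadd (LS.const 1))
  have h2 := h1.comp (f := fun _ (z : (X × (ℕ × ℕ)) × ℕ) =>
    (((z.1.1, (z.1.2.1, J z)), (J z + 1) * (z.1.2.2 - z.1.2.1) + J z), z.2))
    (((LS.fst'.fst.pair (LS.fst'.snd.fst.pair hJ')).pair
      (((hJ'.fadd (LS.const 1)).fmul hd).fadd hJ')).pair LS.snd')
  refine ((LS.le LS.fst'.snd.fst LS.fst'.snd.snd).and h2).congr fun w z => ?_
  obtain ⟨⟨x, i, i'⟩, ℓ⟩ := z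
  simp only
  set j := J ((x, (i, i')), ℓ) with hj
  have hjv : j = Fintype.card N * (i' - i + ℓ + 1) := rfl
  have hdiv : ((j + 1) * (i' - i) + j) / (j + 1) = i' - i := by
    rw [Nat.mul_add_div (by omega), Nat.div_eq_of_lt (by omega), add_zero]
  constructor
  · rintro ⟨h3, h4⟩
    obtain ⟨l, a1, a2, a3, a4⟩ := run_sound hL _ _ _ _ h4
    rw [hdiv] at a3
    refine ⟨l, a1, a2, ?_, a4⟩
    have : ((0 : Fin (L + 1)) : ℕ) = 0 := rfl
    omega
  · rintro ⟨l, a1, a2, a3, a4⟩
    refine ⟨by omega, ?_⟩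
    obtain ⟨l', b1, b2, b3, b5, b4⟩ := exists_short l.length l le_rfl a1 a2
    have h5 : (w1 l).length = i' - i := by omega
    rw [h5, a4, ← hjv] at b4
    have h6 := run_complete (P := P) hL (w := w) (x := x) (A := A) (i := i) (J := j) l' B b1
      b5 b4
    rw [b2, b3, h5, a4] at h6
    refine run_idle _ ?_ _ _ ?_ h6
    · omega
    · rw [hdiv, Nat.mul_add_div (by omega), Nat.div_eq_of_lt (by omega)]
      omega

/-- there is a path with the word `U[i, i')` on the first tape, and `ℓ` letters on the second -/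
def Wt (T : Set (Rul N β γ)) (A B : N) (U : List β) (i i' ℓ : ℕ) : Prop :=
  ∃ l, Path T A l B ∧ Fac U i (w1 l) ∧ i + (w1 l).length = i' ∧ (w2 l).length = ℓ

theorem lr_wt [Fintype N] {α : Type} (hT : T.Finite) {U : List α → List β} (hU : LW U) (A B : N) :
    LR (fun w (z : (ℕ × ℕ) × ℕ) => Wt T A B (U w) z.1.1 z.1.2 z.2) := by
  have h1 := lr_wp (X := Unit) (P := fun r w (z : Unit × ℕ) => Fac (U w) z.2 r.2.1) hT
    (fun r _ => hU.fac r.2.1 LS.snd') A B
  refine (h1.comp (f := fun (_ : List α) (z : (ℕ × ℕ) × ℕ) => (((), z.1), z.2))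
    ((LS.unit.pair LS.fst').pair LS.snd')).congr fun w z => ?_
  unfold Wp Wt
  simp only [allP_fac]

end Pool.Agent.HM13.LS
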