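import Pool.Agent.HM13.LS.Ops

/-!
# Words computed in logarithmic space, and reductions
-/

set_option autoImplicit false

namespace Pool.Agent.HM13.LS

open Finset

variable {α β γ : Type} {X Y : Type} [Ctx X] [Ctx Y]

/-- the word `Ω w x` can be computed in logarithmic space -/
def LV (Ω : List α → X → List β) : Prop :=
  LS (fun w x => (Ω w x).length) ∧ ∀ b, LR (fun w (z : X × ℕ) => (Ω w z.1)[z.2]? = some b)

theorem LV.congr {Ω Ω' : List α → X → List β} (h : LV Ω) (h' : ∀ w x, Ω w x = Ω' w x) : LV Ω' := by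
  have : Ω = Ω' := funext fun w => funext fun x => h' w x
  rwa [← this]

theorem LV.comp {Ω : List α → Y → List β} (h : LV Ω) {f : List α → X → Y} (hf : LS f) :
    LV (fun w x => Ω w (f w x)) :=
  ⟨h.1.comp hf, fun b => (h.2 b).comp (f := fun w (z : X × ℕ) => (f w z.1, z.2))
    ((hf.comp LS.fst').pair LS.snd')⟩

theorem LV.nil : LV (fun (_ : List α) (_ : X) => ([] : List β)) :=
  ⟨LS.const 0, fun b => (LR.const False).congr fun w z => by simp⟩

theorem LV.single (c : β) : LV (fun (_ : List α) (_ : X) => [c]) := by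
  refine ⟨LS.const 1, fun b => ((LS.eq_zero LS.snd').and (LR.const (c = b))).congr fun w z => ?_⟩
  rcases z with ⟨x, i⟩
  cases i <;> simp

theorem LV.append {Ω Ω' : List α → X → List β} (h : LV Ω) (h' : LV Ω') :
    LV (fun w x => Ω w x ++ Ω' w x) := by
  refine ⟨(h.1.fadd h'.1).congr fun w x => (List.length_append).symm, fun b => ?_⟩
  have hl : LS (fun w (z : X × ℕ) => (Ω w z.1).length) := h.1.comp LS.fst'
  refine ((h.2 b).or ((LS.le hl LS.snd').and ((h'.2 b).comp
    (f := fun w (z : X × ℕ) => (z.1, z.2 - (Ω w z.1).length))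
    (LS.fst'.pair (LS.snd'.fsub hl))))).congr fun w z => ?_
  rcases z with ⟨x, i⟩
  simp only
  by_cases hi : i < (Ω w x).length
  · rw [List.getElem?_append_left hi]
    constructor
    · rintro (h1 | h1)
      · exact h1
      · omega
    · exact Or.inl
  · rw [List.getElem?_append_right (by omega)]
    constructor
    · rintro (h1 | h1)
      · rw [List.getElem?_eq_none (by omega)] at h1
        exact absurd h1 (by simp)
      · exact h1.2
    · exact fun h1 => Or.inr ⟨by omega, h1⟩

theorem LV.ite {R : List α → X → Prop} [∀ w x, Decidable (R w x)] {Ω Ω' : List α → X → List β}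
    (hR : LR R) (h : LV Ω) (h' : LV Ω') : LV (fun w x => if R w x then Ω w x else Ω' w x) := by
  refine ⟨(LS.ite hR h.1 h'.1).congr fun w x => ?_, fun b => ?_⟩
  · by_cases h1 : R w x <;> simp [h1]
  have hR' := hR.comp (f := fun _ (z : X × ℕ) => z.1) LS.fst'
  refine ((hR'.and (h.2 b)).or (hR'.not.and (h'.2 b))).congr fun w z => ?_
  by_cases h1 : R w z.1 <;> simp [h1]

theorem LV.replicate {m : List α → X → ℕ} (hm : LS m) (c : β) :
    LV (fun w x => List.replicate (m w x) c) := by
  refine ⟨hm.congr fun w x => (List.length_replicate).symm, fun b => ?_⟩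
  refine ((LS.lt LS.snd' (hm.comp LS.fst')).and (LR.const (c = b))).congr fun w z => ?_
  rw [List.getElem?_replicate]
  by_cases h : z.2 < m w z.1 <;> simp [h]

theorem LV.reverse {Ω : List α → X → List β} (h : LV Ω) : LV (fun w x => (Ω w x).reverse) := by
  refine ⟨h.1.congr fun w x => (List.length_reverse).symm, fun b => ?_⟩
  have hl : LS (fun w (z : X × ℕ) => (Ω w z.1).length) := h.1.comp LS.fst'
  refine ((LS.lt LS.snd' hl).and ((h.2 b).comp
    (f := fun w (z : X × ℕ) => (z.1, (Ω w z.1).length - 1 - z.2))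
    (LS.fst'.pair ((hl.fsub (LS.const 1)).fsub LS.snd')))).congr fun w z => ?_
  rcases z with ⟨x, i⟩
  simp only
  by_cases hi : i < (Ω w x).length
  · rw [List.getElem?_reverse hi]
    simp [hi]
  · have h1 : (Ω w x).reverse[i]? = none := List.getElem?_eq_none (by simp; omega)
    rw [h1]
    simp [hi]

theorem LV.take {Ω : List α → X → List β} (h : LV Ω) {m : List α → X → ℕ} (hm : LS m) :
    LV (fun w x => (Ω w x).take (m w x)) := by
  refine ⟨(LS.fsub hm (hm.fsub h.1)).congr fun w x => by rw [List.length_take]; omega,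
    fun b => ?_⟩
  refine ((LS.lt LS.snd' (hm.comp LS.fst')).and (h.2 b)).congr fun w z => ?_
  rw [List.getElem?_take]
  by_cases h : z.2 < m w z.1 <;> simp [h]

theorem LV.drop {Ω : List α → X → List β} (h : LV Ω) {m : List α → X → ℕ} (hm : LS m) :
    LV (fun w x => (Ω w x).drop (m w x)) := by
  refine ⟨(h.1.fsub hm).congr fun w x => (List.length_drop).symm, fun b => ?_⟩
  refine ((h.2 b).comp (f := fun w (z : X × ℕ) => (z.1, m w z.1 + z.2))
    (LS.fst'.pair ((hm.comp LS.fst').fadd LS.snd'))).congr fun w z => ?_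
  rw [List.getElem?_drop]

theorem getElem?_flatMap_range (f : ℕ → List β) (b : β) : ∀ (m p : ℕ),
    ((List.range m).flatMap f)[p]? = some b ↔
      ∃ t < m, ∑ s ∈ range t, (f s).length ≤ p ∧ (f t)[p - ∑ s ∈ range t, (f s).length]? = some b
  | 0, p => by simp
  | m + 1, p => by
    have hlen : ∀ m, ((List.range m).flatMap f).length = ∑ s ∈ range m, (f s).length := by
      intro m
      induction m with
      | zero => rfl
      | succ m ih => rw [List.range_succ, List.flatMap_append, List.length_append, ih,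
          sum_range_succ]; simp
    rw [List.range_succ, List.flatMap_append]
    have h1 : List.flatMap f [m] = f m := by simp
    rw [h1]
    by_cases hp : p < ∑ s ∈ range m, (f s).length
    · rw [List.getElem?_append_left (by rw [hlen]; exact hp), getElem?_flatMap_range f b m p]
      constructor
      · rintro ⟨t, ht, h⟩
        exact ⟨t, by omega, h⟩
      · rintro ⟨t, ht, h2, h3⟩
        rcases Nat.lt_succ_iff_lt_or_eq.1 ht with h | h
        · exact ⟨t, h, h2, h3⟩
        · subst h
          omega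
    · rw [List.getElem?_append_right (by rw [hlen]; omega), hlen]
      constructor
      · exact fun h => ⟨m, by omega, by omega, h⟩
      · rintro ⟨t, ht, h2, h3⟩
        rcases Nat.lt_succ_iff_lt_or_eq.1 ht with h | h
        · have h4 : p - ∑ s ∈ range t, (f s).length < (f t).length := by
            by_contra hc
            rw [List.getElem?_eq_none (by omega)] at h3
            exact absurd h3 (by simp)
          have h5 : ∑ s ∈ range (t + 1), (f s).length ≤ ∑ s ∈ range m, (f s).length :=
            Finset.sum_le_sum_of_subset (range_mono h)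
          rw [sum_range_succ] at h5
          omega
        · subst h
          exact h3

theorem LV.flatRange {Ω : List α → X × ℕ → List β} (h : LV Ω) {m : List α → X → ℕ} (hm : LS m) :
    LV (fun w x => (List.range (m w x)).flatMap fun t => Ω w (x, t)) := by
  have hS : LS (fun w (x : X × ℕ) => ∑ s ∈ range x.2, (Ω w (x.1, s)).length) := by
    exact LS.sum (f := fun w (z : (X × ℕ) × ℕ) => (Ω w (z.1.1, z.2)).length)
      (h.1.comp (LS.fst'.fst.pair LS.snd')) LS.snd'
  have hlen : ∀ w x m, ((List.range m).flatMap fun t => Ω w (x, t)).length =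
      ∑ s ∈ range m, (Ω w (x, s)).length := by
    intro w x m
    induction m with
    | zero => rfl
    | succ m ih => rw [List.range_succ, List.flatMap_append, List.length_append, ih,
        sum_range_succ]; simp
  refine ⟨(hS.comp (LS.id.pair hm)).congr fun w x => (hlen w x (m w x)).symm, fun b => ?_⟩
  have h1 : LR (fun w (z : (X × ℕ) × ℕ) => ∑ s ∈ range z.2, (Ω w (z.1.1, s)).length ≤ z.1.2 ∧
      (Ω w (z.1.1, z.2))[z.1.2 - ∑ s ∈ range z.2, (Ω w (z.1.1, s)).length]? = some b) := by
    have hS' : LS (fun w (z : (X × ℕ) × ℕ) => ∑ s ∈ range z.2, (Ω w (z.1.1, s)).length) :=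
      hS.comp (LS.fst'.fst.pair LS.snd')
    refine (LS.le hS' LS.fst'.snd).and ((h.2 b).comp
      (f := fun w (z : (X × ℕ) × ℕ) =>
        ((z.1.1, z.2), z.1.2 - ∑ s ∈ range z.2, (Ω w (z.1.1, s)).length)) ?_)
    exact (LS.fst'.fst.pair LS.snd').pair (LS.fst'.snd.fsub hS')
  refine (LR.ex h1 (m := fun w (z : X × ℕ) => m w z.1) (hm.comp LS.fst')).congr fun w z => ?_
  simp only
  exact (getElem?_flatMap_range (fun t => Ω w (z.1, t)) b (m w z.1) z.2).symm

theorem LV.const (u : List β) : LV (fun (_ : List α) (_ : X) => u) := by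
  induction u with
  | nil => exact LV.nil
  | cons b u ih => exact (LV.single b).append ih

/-- the input -/
theorem LV.input : LV (fun (w : List α) (_ : X) => w) := by
  refine ⟨LS.len, fun a => ?_⟩
  exact LR.comp (R := fun w (i : ℕ) => w[i]? = some a)
    ((LS.letter' a).congr fun w x => by congr) LS.snd'

/-- homomorphisms -/
theorem LV.flatMap [Finite β] {Ω : List α → X → List β} (h : LV Ω) (f : β → List γ) :
    LV (fun w x => (Ω w x).flatMap f) := by
  classical
  have := Fintype.ofFinite β
  -- the word at one position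
  have h1 : LV (fun w (z : X × ℕ) => ((Ω w z.1)[z.2]?).elim [] f) := by
    refine ⟨(LS.fsum univ fun b : β => LS.ite (h.2 b) (LS.const (f b).length)
      (LS.const 0)).congr fun w z => ?_, fun c => ?_⟩
    · simp only
      rcases (Ω w z.1)[z.2]? with _ | b
      · simp
      · simp
    · have h2 : ∀ b : β, LR (fun w (z : (X × ℕ) × ℕ) => (Ω w z.1.1)[z.1.2]? = some b ∧
          (f b)[z.2]? = some c) := fun b =>
        ((h.2 b).comp LS.fst').and (((LV.const (X := Unit) (f b)).2 c).comp
          (f := fun (_ : List α) (z : (X × ℕ) × ℕ) => ((), z.2)) (LS.unit.pair LS.snd'))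
      refine (LR.exFin h2).congr fun w z => ?_
      simp only
      rcases (Ω w z.1.1)[z.1.2]? with _ | b
      · simp
      · simp
  refine (h1.flatRange h.1).congr fun w x => ?_
  show (List.range (Ω w x).length).flatMap (fun t => ((Ω w x)[t]?).elim [] f) =
    (Ω w x).flatMap f
  generalize Ω w x = u
  induction u using List.reverseRecOn with
  | nil => rfl
  | append_singleton u b ih =>
    rw [List.length_append, List.length_singleton, List.range_succ, List.flatMap_append,
      List.flatMap_append]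
    have h3 : (List.range u.length).flatMap (fun t => ((u ++ [b])[t]?).elim [] f) =
        u.flatMap f := by
      rw [← ih]
      refine List.flatMap_congr fun t ht => ?_
      rw [List.mem_range] at ht
      rw [List.getElem?_append_left ht]
    rw [h3]
    simp

/-! ### Simulation of programs on computed words -/

/-- the registers of the program are below `R` -/
def Prog.Below (R : ℕ) : Prog β → Prop
  | const i _ => i < R
  | copy i j => i < R ∧ j < R
  | len i => i < R
  | letter i j _ => i < R ∧ j < R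
  | add i j k => i < R ∧ j < R ∧ k < R
  | sub i j k => i < R ∧ j < R ∧ k < R
  | mul i j k => i < R ∧ j < R ∧ k < R
  | div i j k => i < R ∧ j < R ∧ k < R
  | seq P Q => P.Below R ∧ Q.Below R
  | loop i P => i < R ∧ P.Below R

theorem Prog.Below.mono {R S : ℕ} (h : R ≤ S) : ∀ {P : Prog β}, P.Below R → P.Below S
  | const _ _, h1 => lt_of_lt_of_le h1 h
  | copy _ _, h1 => ⟨by have := h1.1; omega, by have := h1.2; omega⟩
  | len _, h1 => lt_of_lt_of_le h1 h
  | letter _ _ _, h1 => ⟨by have := h1.1; omega, by have := h1.2; omega⟩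
  | add _ _ _, h1 => by obtain ⟨a, b, c⟩ := h1; exact ⟨by omega, by omega, by omega⟩
  | sub _ _ _, h1 => by obtain ⟨a, b, c⟩ := h1; exact ⟨by omega, by omega, by omega⟩
  | mul _ _ _, h1 => by obtain ⟨a, b, c⟩ := h1; exact ⟨by omega, by omega, by omega⟩
  | div _ _ _, h1 => by obtain ⟨a, b, c⟩ := h1; exact ⟨by omega, by omega, by omega⟩
  | seq _ _, h1 => ⟨h1.1.mono h, h1.2.mono h⟩
  | loop _ _, h1 => ⟨by have := h1.1; omega, h1.2.mono h⟩

theorem Prog.exists_below : ∀ P : Prog β, ∃ R, P.Below R
  | const i _ => ⟨i + 1, Nat.lt_succ_self i⟩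
  | copy i j => ⟨i + j + 1, by constructor <;> omega⟩
  | len i => ⟨i + 1, Nat.lt_succ_self i⟩
  | letter i j _ => ⟨i + j + 1, by constructor <;> omega⟩
  | add i j k => ⟨i + j + k + 1, by refine ⟨?_, ?_, ?_⟩ <;> omega⟩
  | sub i j k => ⟨i + j + k + 1, by refine ⟨?_, ?_, ?_⟩ <;> omega⟩
  | mul i j k => ⟨i + j + k + 1, by refine ⟨?_, ?_, ?_⟩ <;> omega⟩
  | div i j k => ⟨i + j + k + 1, by refine ⟨?_, ?_, ?_⟩ <;> omega⟩
  | seq P Q => by
    obtain ⟨R, hR⟩ := P.exists_below
    obtain ⟨S, hS⟩ := Q.exists_below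
    exact ⟨R + S, hR.mono (by omega), hS.mono (by omega)⟩
  | loop i P => by
    obtain ⟨R, hR⟩ := P.exists_below
    exact ⟨R + i + 1, by omega, hR.mono (by omega)⟩

/-- extension of a vector by zeros -/
def ext {R : ℕ} (y : Fin R → ℕ) : ℕ → ℕ := fun i => if h : i < R then y ⟨i, h⟩ else 0

theorem ext_of_lt {R : ℕ} (y : Fin R → ℕ) {i : ℕ} (h : i < R) : ext y i = y ⟨i, h⟩ := dif_pos h

theorem ext_update {R : ℕ} (y : Fin R → ℕ) {i : ℕ} (h : i < R) (v : ℕ) :
    Function.update (ext y) i v = ext (Function.update y ⟨i, h⟩ v) := by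
  funext j
  by_cases hj : j = i
  · subst hj
    rw [Function.update_self, ext_of_lt _ h, Function.update_self]
  · rw [Function.update_of_ne hj]
    unfold ext
    by_cases hjR : j < R
    · rw [dif_pos hjR, dif_pos hjR, Function.update_of_ne]
      intro h'
      exact hj (congrArg Fin.val h')
    · rw [dif_neg hjR, dif_neg hjR]

/-- the program works on the first registers -/
theorem exists_sim {R : ℕ} (u : List β) (B : ℕ) : ∀ (P : Prog β), P.Below R →
    ∀ y : Fin R → ℕ, ∃ z : Fin R → ℕ, P.run u B (ext y) = ext z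
  | .const i c, h, y => ⟨_, ext_update y h _⟩
  | .copy i j, h, y => ⟨_, ext_update y h.1 _⟩
  | .len i, h, y => ⟨_, ext_update y h _⟩
  | .letter i j a, h, y => ⟨_, ext_update y h.1 _⟩
  | .add i j k, h, y => ⟨_, ext_update y h.1 _⟩
  | .sub i j k, h, y => ⟨_, ext_update y h.1 _⟩
  | .mul i j k, h, y => ⟨_, ext_update y h.1 _⟩
  | .div i j k, h, y => ⟨_, ext_update y h.1 _⟩
  | .seq P Q, h, y => by
    obtain ⟨z, hz⟩ := exists_sim u B P h.1 y
    obtain ⟨z', hz'⟩ := exists_sim u B Q h.2 z
    refine ⟨z', ?_⟩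
    show Q.run u B (P.run u B (ext y)) = _
    rw [hz, hz']
  | .loop i P, h, y => by
    have key : ∀ n : ℕ, ∃ z : Fin R → ℕ, (P.run u B)^[n] (ext y) = ext z := by
      intro n
      induction n with
      | zero => exact ⟨y, rfl⟩
      | succ n ih =>
        obtain ⟨z, hz⟩ := ih
        rw [Function.iterate_succ', Function.comp_apply, hz]
        exact exists_sim u B P h.2 z
    exact key _

/-- the bound for the values -/
theorem run_le {M : ℕ} (u : List β) {B : ℕ} (hB : B ≤ M) : ∀ (P : Prog β) (σ : ℕ → ℕ),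
    (∀ i, σ i ≤ M) → ∀ i, P.run u B σ i ≤ M := by
  have hup : ∀ (σ : ℕ → ℕ) (i v : ℕ), (∀ i, σ i ≤ M) → v ≤ M →
      ∀ j, Function.update σ i v j ≤ M := by
    intro σ i v hσ hv j
    by_cases hj : j = i
    · rw [hj, Function.update_self]; exact hv
    · rw [Function.update_of_ne hj]; exact hσ j
  intro P
  induction P with
  | const i c => exact fun σ hσ => hup σ i _ hσ ((min_le_right _ _).trans hB)
  | copy i j => exact fun σ hσ => hup σ i _ hσ (hσ j)
  | len i => exact fun σ hσ => hup σ i _ hσ ((min_le_right _ _).trans hB)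
  | letter i j a =>
    refine fun σ hσ => hup σ i _ hσ ?_
    split_ifs
    · exact (min_le_right _ _).trans hB
    · exact Nat.zero_le _
  | add i j k => exact fun σ hσ => hup σ i _ hσ ((min_le_right _ _).trans hB)
  | sub i j k => exact fun σ hσ => hup σ i _ hσ ((min_le_right _ _).trans hB)
  | mul i j k => exact fun σ hσ => hup σ i _ hσ ((min_le_right _ _).trans hB)
  | div i j k => exact fun σ hσ => hup σ i _ hσ ((min_le_right _ _).trans hB)
  | seq P Q ihP ihQ => exact fun σ hσ => ihQ _ (ihP σ hσ)
  | loop i P ih =>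
    intro σ hσ
    have key : ∀ n : ℕ, ∀ j, (P.run u B)^[n] σ j ≤ M := by
      intro n
      induction n with
      | zero => exact hσ
      | succ n ihn => rw [Function.iterate_succ', Function.comp_apply]; exact ih _ ihn
    exact key _

/-- the result of the program, on the first registers -/
noncomputable def sim {R : ℕ} (Ω : List α → X → List β) (k : ℕ) (P : Prog β) (w : List α)
    (z : X × (Fin R → ℕ)) : Fin R → ℕ :=
  fun r => P.run (Ω w z.1) (((Ω w z.1).length + 2) ^ k) (ext z.2) r

omit [Ctx X] in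
theorem ext_sim {R : ℕ} {Ω : List α → X → List β} {k : ℕ} {P : Prog β} (hP : P.Below R)
    (w : List α) (x : X) (y : Fin R → ℕ) :
    ext (sim Ω k P w (x, y)) = P.run (Ω w x) (((Ω w x).length + 2) ^ k) (ext y) := by
  obtain ⟨z, hz⟩ := exists_sim (Ω w x) (((Ω w x).length + 2) ^ k) P hP y
  funext i
  unfold sim
  rw [hz]
  unfold ext
  by_cases h : i < R
  · rw [dif_pos h, dif_pos h]
    simp [h]
  · rw [dif_neg h, dif_neg h]

theorem LS.fmin {f g : List α → X → ℕ} (hf : LS f) (hg : LS g) :
    LS (fun w x => min (f w x) (g w x)) := (hf.fsub (hf.fsub hg)).congr fun w x => by omega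

theorem ls_upd {R : ℕ} {f : List α → X × (Fin R → ℕ) → ℕ} (hf : LS f) (i : Fin R) :
    LS (fun w (z : X × (Fin R → ℕ)) => Function.update z.2 i (f w z)) := by
  refine LS.pi fun r => ?_
  by_cases h : r = i
  · subst h
    exact hf.congr fun w z => by rw [Function.update_self]
  · exact (LS.snd'.app r).congr fun w z => by rw [Function.update_of_ne h]

theorem ls_sim {R : ℕ} {Ω : List α → X → List β} (hΩ : LV Ω) (k : ℕ) : ∀ (P : Prog β), P.Below R →
    LS (sim (R := R) Ω k P) := by
  classical
  have hB : LS (fun w (z : X × (Fin R → ℕ)) => ((Ω w z.1).length + 2) ^ k) :=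
    (((hΩ.1.comp LS.fst').fadd (LS.const 2)).fpow k)
  -- basic instructions
  have key : ∀ (P : Prog β) (i : ℕ) (hi : i < R) (f : List α → X × (Fin R → ℕ) → ℕ), LS f →
      (∀ w x y, P.run (Ω w x) (((Ω w x).length + 2) ^ k) (ext y) =
        Function.update (ext y) i (f w (x, y))) → LS (sim (R := R) Ω k P) := by
    intro P i hi f hf h
    refine (ls_upd hf ⟨i, hi⟩).congr fun w z => ?_
    obtain ⟨x, y⟩ := z
    funext r
    unfold sim
    rw [h, ext_update y hi, ext_of_lt _ r.2]
  have harg : ∀ (j : ℕ) (hj : j < R), LS (fun (_ : List α) (z : X × (Fin R → ℕ)) => ext z.2 j) :=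
    fun j hj => (LS.snd'.app ⟨j, hj⟩).congr fun w z => (ext_of_lt _ hj).symm
  intro P
  induction P with
  | const i c =>
    exact fun h => key _ i h _ ((LS.const c).fmin hB) fun w x y => rfl
  | copy i j =>
    exact fun h => key _ i h.1 _ (harg j h.2) fun w x y => rfl
  | len i =>
    exact fun h => key _ i h _ ((hΩ.1.comp LS.fst').fmin hB) fun w x y => rfl
  | letter i j a =>
    intro h
    refine key _ i h.1 (fun w z => if (Ω w z.1)[ext z.2 j]? = some a then
      min 1 (((Ω w z.1).length + 2) ^ k) else 0) ?_ fun w x y => ?_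
    · refine LS.ite (R := fun w (z : X × (Fin R → ℕ)) => (Ω w z.1)[ext z.2 j]? = some a) ?_
        ((LS.const 1).fmin hB) (LS.const 0)
      exact (hΩ.2 a).comp (f := fun w (z : X × (Fin R → ℕ)) => (z.1, ext z.2 j))
        (LS.fst'.pair (harg j h.2))
    · show Function.update (ext y) i _ = _
      congr
  | add i j l =>
    exact fun h => key _ i h.1 _ (((harg j h.2.1).fadd (harg l h.2.2)).fmin hB) fun w x y => rfl
  | sub i j l =>
    exact fun h => key _ i h.1 _ (((harg j h.2.1).fsub (harg l h.2.2)).fmin hB) fun w x y => rfl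
  | mul i j l =>
    exact fun h => key _ i h.1 _ (((harg j h.2.1).fmul (harg l h.2.2)).fmin hB) fun w x y => rfl
  | div i j l =>
    exact fun h => key _ i h.1 _ (((harg j h.2.1).fdiv (harg l h.2.2)).fmin hB) fun w x y => rfl
  | seq P Q ihP ihQ =>
    intro h
    refine ((ihQ h.2).comp (f := fun w (z : X × (Fin R → ℕ)) => (z.1, sim Ω k P w z))
      (LS.fst'.pair (ihP h.1))).congr fun w z => ?_
    obtain ⟨x, y⟩ := z
    funext r
    unfold sim
    simp only
    have h1 := ext_sim (Ω := Ω) (k := k) h.1 w x y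
    unfold sim at h1
    simp only at h1
    rw [h1]
    rfl
  | loop i P ih =>
    intro h
    have h0 := ih h.2
    -- the iteration
    have h1 : ∀ (w : List α) (x : X) (y : Fin R → ℕ) (t : ℕ),
        ext (itr (fun _ (z : X × (Fin R → ℕ)) => z.2)
          (fun w (z : ((X × (Fin R → ℕ)) × ℕ) × (Fin R → ℕ)) => sim Ω k P w (z.1.1.1, z.2))
          w (x, y) t) = (P.run (Ω w x) (((Ω w x).length + 2) ^ k))^[t] (ext y) := by
      intro w x y t
      induction t with
      | zero => rfl
      | succ t iht =>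
        rw [Function.iterate_succ', Function.comp_apply, ← iht]
        exact ext_sim h.2 w x _
    have h2 : LS (fun w (z : (X × (Fin R → ℕ)) × ℕ) =>
        itr (fun _ (z : X × (Fin R → ℕ)) => z.2)
          (fun w (z : ((X × (Fin R → ℕ)) × ℕ) × (Fin R → ℕ)) => sim Ω k P w (z.1.1.1, z.2))
          w z.1 z.2) := by
      refine LS.iter LS.snd' (h0.comp (f := fun (_ : List α)
        (z : ((X × (Fin R → ℕ)) × ℕ) × (Fin R → ℕ)) => (z.1.1.1, z.2))
        (LS.fst'.fst.fst.pair LS.snd')) fun d => ?_
      obtain ⟨e, he, _⟩ := hB d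
      refine ⟨d + e, fun w x t hx ht => ?_⟩
      obtain ⟨x, y⟩ := x
      rw [bd_pi]
      intro r
      have h3 := congrFun (h1 w x y t) r
      rw [ext_of_lt _ r.2] at h3
      rw [show (⟨(r : ℕ), r.2⟩ : Fin R) = r from rfl] at h3
      rw [h3]
      have hM1 : ((Ω w x).length + 2) ^ k ≤ (w.length + 2) ^ (d + e) :=
        (bd_nat.1 (he w (x, y) hx)).trans (Nat.pow_le_pow_right (by omega) (by omega))
      have hM2 : ∀ i, ext y i ≤ (w.length + 2) ^ (d + e) := by
        intro i
        unfold ext
        split_ifs with hi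
        · exact ((bd_prod.1 hx).2 ⟨i, hi⟩).trans (Nat.pow_le_pow_right (by omega) (by omega))
        · exact Nat.zero_le _
      have key2 : ∀ n : ℕ, ∀ j, (P.run (Ω w x) (((Ω w x).length + 2) ^ k))^[n] (ext y) j ≤
          (w.length + 2) ^ (d + e) := by
        intro n
        induction n with
        | zero => exact hM2
        | succ n ihn =>
          rw [Function.iterate_succ', Function.comp_apply]
          exact run_le _ hM1 P _ ihn
      exact key2 t r
    refine (h2.comp (LS.id.pair (harg i h.1))).congr fun w z => ?_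
    obtain ⟨x, y⟩ := z
    funext r
    have h3 := congrFun (h1 w x y (ext y i)) r
    rw [ext_of_lt _ r.2] at h3
    rw [show (⟨(r : ℕ), r.2⟩ : Fin R) = r from rfl] at h3
    exact h3

/-- **Reductions in logarithmic space.** -/
theorem InL.reduce {K : Set (List β)} (hK : InL K) {Ω : List α → X → List β} (hΩ : LV Ω) :
    LR (fun w x => Ω w x ∈ K) := by
  obtain ⟨P, k, hP⟩ := hK
  obtain ⟨R, hR⟩ := P.exists_below
  have hR' : P.Below (R + 1) := hR.mono (by omega)
  have h1 := (ls_sim (R := R + 1) hΩ k P hR').comp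
    (f := fun (_ : List α) (x : X) => (x, fun _ : Fin (R + 1) => 0))
    (LS.id.pair (LS.pi fun _ => LS.const 0))
  refine (LS.eq (h1.app 0) (LS.const 1)).congr fun w x => ?_
  rw [hP (Ω w x)]
  have h2 : ext (fun _ : Fin (R + 1) => 0) = fun _ => 0 := by
    funext i
    unfold ext
    split_ifs <;> rfl
  show P.run (Ω w x) _ (ext _) 0 = 1 ↔ _
  rw [h2]

end Pool.Agent.HM13.LS
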